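import Pool.Agent.H98.DH.Defs

/-!
ROW AP (approximation of all gates; about 150 lines).  PROOF.
`par_rep`: an element `F ∈ Par e G I` is `F = p + ∑ g ∈ s, G g` with `p ∈ Pol n e` and a finset `s`, `↑s ⊆ I` (over `ZMod 2`: `Submodule.mem_sup`; an element of the span of `G '' I` is a sum of
`G g` over a finset of indices: `Submodule.span_induction`, with symmetric differences, or `Finsupp.mem_span_image_iff_linearCombination` and coefficients `0`, `1`).
`ee_mono`: `ee k ≤ ee (k+1)` for `k < D` since `1 ≤ w (k+1)`; so `ee k ≤ ee l` for `k ≤ l ≤ D`.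
`approx_gates`: by induction on `k ≤ D`: there are `ap : ℕ → Fn n`, `Er : ℕ → Set _` with, for all `g < S` with `lev g ≤ k`: `ap g ∈ Pol n (ee (lev g))`, `Om q (Er g) ≤ ε * (1+q)^n`,
and for all `x` with (`x ∉ Er g` for all `g < S`, `lev g ≤ k`): `G g x = ap g x` for all `g < S`, `lev g ≤ k`.  `k = 0`: there are no such gates (`c.pos`).  Step `k → k + 1`: keep `ap`, `Er` for levels `≤ k`.
Let `g < S` with `lev g = k + 1`, `H` from `c.or`.  For `h ∈ H` take `h = p_h + ∑ g' ∈ s_h, G g'` (`par_rep`), `lev g' ≤ k`, and `h~ = p_h + ∑ g' ∈ s_h, ap g' ∈ Pol n (ee k)` (`ee_mono`, `Pol_mono`).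
Apply `H96RE.approx (w (k+1))` with the degree `ee k` and the set `{h~ | h ∈ H}`: `a0 ∈ Pol n (ee k * w (k+1))`, `a0 x = 1` if all `h~ x = 0`, and the error set `{x | ¬ (∀ ..) ∧ a0 x ≠ 0}` has
`Om ≤ (1 - q^(ee k)/2)^(w (k+1)) * (1+q)^n ≤ ε * (1+q)^n`.  Put `ap g = 1 + a0`, `Er g` = error set.  If `x` is outside all error sets then `h~ x = h x` for `h ∈ H`; so `G g x = 1` iff some `h~ x = 1` iff `a0 x = 0`
(values in `ZMod 2` are `0` or `1`), i.e. `G g x = 1 + a0 x`.
-/

set_option autoImplicit false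
open scoped Classical

namespace H98DH

open H96RE H91RE

theorem par_rep {n e : ℕ} {G : ℕ → Fn n} {I : Set ℕ} {F : Fn n} (hF : F ∈ Par e G I) :
    ∃ p ∈ Pol n e, ∃ s : Finset ℕ, (∀ g ∈ s, g ∈ I) ∧ F = p + ∑ g ∈ s, G g := by
  unfold Par at hF
  obtain ⟨p, hp, z, hz, rfl⟩ := Submodule.mem_sup.1 hF
  rw [Finsupp.mem_span_image_iff_linearCombination] at hz
  obtain ⟨l, hl, rfl⟩ := hz
  refine ⟨p, hp, l.support, fun g hg => ?_, ?_⟩
  · exact (Finsupp.mem_supported (ZMod 2) l).1 hl (Finset.mem_coe.2 hg)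
  · rw [Finsupp.linearCombination_apply, Finsupp.sum]
    have h01 : ∀ t : ZMod 2, t ≠ 0 → t = 1 := by decide
    rw [Finset.sum_congr rfl fun g hg => ?_]
    rw [h01 _ (Finsupp.mem_support_iff.1 hg), one_smul]

theorem ee_mono {D : ℕ} {w ee : ℕ → ℕ} (hs : ∀ k < D, ee (k + 1) = ee k * w (k + 1)) (hw : ∀ k, 1 ≤ w k)
    {k l : ℕ} (hkl : k ≤ l) (hl : l ≤ D) : ee k ≤ ee l := by
  induction l, hkl using Nat.le_induction with
  | base => exact le_refl _
  | succ l hkl ih =>
    have h1 := ih (by omega)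
    rw [hs l (by omega)]
    exact le_trans h1 (Nat.le_mul_of_pos_right _ (by have := hw (l + 1); omega))

theorem approx_gates {n e D S : ℕ} (c : Circ n e D S) {w ee : ℕ → ℕ} (hee : ee 0 = e)
    (hs : ∀ k < D, ee (k + 1) = ee k * w (k + 1)) (hw : ∀ k, 1 ≤ w k) {q ε : ℝ} (hq0 : 0 ≤ q) (hq1 : q < 1)
    (hε : ∀ k < D, (1 - q ^ (ee k) / 2) ^ (w (k + 1)) ≤ ε) :
    ∃ (ap : ℕ → Fn n) (Er : ℕ → Set (Fin n → ZMod 2)),
      (∀ g < S, ap g ∈ Pol n (ee (c.lev g)) ∧ H96RX.Om (Fin n → ZMod 2) q (Er g) ≤ ε * (1 + q) ^ n) ∧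
      ∀ x, (∀ g < S, x ∉ Er g) → ∀ g < S, c.G g x = ap g x := by
  have h01 : ∀ t : ZMod 2, t = 0 ∨ t = 1 := by decide
  have key : ∀ k ≤ D, ∃ (ap : ℕ → Fn n) (Er : ℕ → Set (Fin n → ZMod 2)),
      (∀ g < S, c.lev g ≤ k → ap g ∈ Pol n (ee (c.lev g)) ∧ H96RX.Om (Fin n → ZMod 2) q (Er g) ≤ ε * (1 + q) ^ n) ∧
      ∀ x, (∀ g < S, c.lev g ≤ k → x ∉ Er g) → ∀ g < S, c.lev g ≤ k → c.G g x = ap g x := by
    intro k
    induction k with
    | zero =>
      intro _
      refine ⟨fun _ => 0, fun _ => ∅, fun g hg hk => ?_, fun x _ g hg hk => ?_⟩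
      · have := c.pos g hg
        omega
      · have := c.pos g hg
        omega
    | succ k ih =>
      intro hk
      obtain ⟨ap, Er, h1, h2⟩ := ih (by omega)
      have step : ∀ g, g < S → c.lev g = k + 1 → ∃ (A : Fn n) (E : Set (Fin n → ZMod 2)), A ∈ Pol n (ee (k + 1)) ∧
          H96RX.Om (Fin n → ZMod 2) q E ≤ ε * (1 + q) ^ n ∧
          ∀ x, (∀ g' < S, c.lev g' ≤ k → c.G g' x = ap g' x) → x ∉ E → c.G g x = A x := by
        intro g hg hlev
        obtain ⟨H, hH1, hH2⟩ := c.or g hg
        choose p hp s hs' hF using fun (h : Fn n) (hh : h ∈ H) => par_rep (hH1 h hh)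
        obtain ⟨P, hPd⟩ : ∃ P : Set ((Fin n → ZMod 2) → ZMod 2),
            P = {f | ∃ (h : Fn n) (hh : h ∈ H), f = p h hh + ∑ g' ∈ s h hh, ap g'} := ⟨_, rfl⟩
        have hP : ∀ f ∈ P, f ∈ Pol n (ee k) := by
          intro f hf
          rw [hPd] at hf
          obtain ⟨h, hh, rfl⟩ := hf
          refine Submodule.add_mem _ (Pol_mono ?_ (hp h hh)) (Submodule.sum_mem _ fun g' hg' => ?_)
          · rw [← hee]
            exact ee_mono hs hw (Nat.zero_le k) (by omega)
          · obtain ⟨h3, h4⟩ := hs' h hh g' hg'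
            refine Pol_mono ?_ (h1 g' h3 (by omega)).1
            exact ee_mono hs hw (by omega) (by omega)
        obtain ⟨a, ha, ha1, hOm⟩ := approx (w (k + 1)) hq0 hq1 P hP
        refine ⟨(fun _ => 1) + a, {x | ¬ (∀ p ∈ P, p x = 0) ∧ a x ≠ 0}, ?_, ?_, ?_⟩
        · rw [hs k (by omega)]
          exact Submodule.add_mem _ (const_mem 1) ha
        · refine le_trans hOm (mul_le_mul_of_nonneg_right (hε k (by omega)) ?_)
          exact pow_nonneg (by linarith) n
        · intro x hx hE
          have hval : ∀ (h : Fn n) (hh : h ∈ H), h x = (p h hh + ∑ g' ∈ s h hh, ap g') x := by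
            intro h hh
            rw [Pi.add_apply, Finset.sum_apply]
            have h5 := congrFun (hF h hh) x
            rw [Pi.add_apply, Finset.sum_apply] at h5
            rw [h5]
            rw [Finset.sum_congr rfl fun g' hg' => ?_]
            obtain ⟨h3, h4⟩ := hs' h hh g' hg'
            exact hx g' h3 (by omega)
          show c.G g x = 1 + a x
          by_cases hall : ∀ p ∈ P, p x = 0
          · rw [ha1 x hall]
            have h6 : ¬ c.G g x = 1 := by
              intro h7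
              obtain ⟨h, hh, hhx⟩ := (hH2 x).1 h7
              have h8 := hall _ (by rw [hPd]; exact ⟨h, hh, rfl⟩)
              rw [← hval h hh, hhx] at h8
              exact one_ne_zero h8
            rw [(h01 _).resolve_right h6]
            decide
          · have h6 : a x = 0 := by
              by_contra h7
              exact hE ⟨hall, h7⟩
            rw [h6, add_zero]
            push Not at hall
            obtain ⟨f, hf, hfx⟩ := hall
            rw [hPd] at hf
            obtain ⟨h, hh, rfl⟩ := hf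
            refine (hH2 x).2 ⟨h, hh, ?_⟩
            rw [hval h hh]
            exact (h01 _).resolve_left hfx
      choose A E hA hE hx using step
      refine ⟨fun g => if h : g < S ∧ c.lev g = k + 1 then A g h.1 h.2 else ap g,
        fun g => if h : g < S ∧ c.lev g = k + 1 then E g h.1 h.2 else Er g, ?_, ?_⟩
      · intro g hg hgk
        by_cases h3 : c.lev g = k + 1
        · have h4 : g < S ∧ c.lev g = k + 1 := ⟨hg, h3⟩
          simp only [dif_pos h4]
          have h7 : ee (c.lev g) = ee (k + 1) := congrArg ee h3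
          refine ⟨?_, hE g hg h3⟩
          rw [h7]
          exact hA g hg h3
        · have h4 : ¬ (g < S ∧ c.lev g = k + 1) := fun h => h3 h.2
          simp only [dif_neg h4]
          exact h1 g hg (by omega)
      · intro x hx'
        have h5 : ∀ g < S, c.lev g ≤ k → c.G g x = ap g x := by
          refine h2 x fun g hg hgk => ?_
          have h6 := hx' g hg (by omega)
          have h4 : ¬ (g < S ∧ c.lev g = k + 1) := fun h => by omega
          simp only [dif_neg h4] at h6
          exact h6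
        intro g hg hgk
        by_cases h3 : c.lev g = k + 1
        · have h4 : g < S ∧ c.lev g = k + 1 := ⟨hg, h3⟩
          simp only [dif_pos h4]
          refine hx g hg h3 x h5 ?_
          have h6 := hx' g hg (by omega)
          simp only [dif_pos h4] at h6
          exact h6
        · have h4 : ¬ (g < S ∧ c.lev g = k + 1) := fun h => h3 h.2
          simp only [dif_neg h4]
          exact h5 g hg (by omega)
  obtain ⟨ap, Er, h1, h2⟩ := key D le_rfl
  refine ⟨ap, Er, fun g hg => h1 g hg (c.le g hg), fun x hx g hg => ?_⟩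
  exact h2 x (fun g hg _ => hx g hg) g hg (c.le g hg)

end H98DH
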