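import Pool.Agent.H98.DH.Defs

/-!
ROW GW (weights; about 170 lines).  PROOF.
`wt_nonneg`, `wt_univ`: `∑_(T ⊆ Fin B) p^|T| (1-p)^(B-|T|) = (p + (1-p))^B = 1` (`Finset.sum_pow_mul_eq_add_pow` / `Finset.prod_add`).
`wt_compl`: `wt p {T | Tᶜ ∉ L} = 1 - wt (1-p) L`: substitute `T ↦ Tᶜ` (`Finset.card_compl`): `∑_(T ∉ L) (1-p)^|T| p^(B-|T|) = 1 - ∑_(T ∈ L) ..`.
`wt_point`: the only term is `T = ∅`.
`wt_prod`: `wt p {T | ∀ i, subT T i ∈ L} = (wt p L)^a` on `Fin (a * B)`: `T ↦ (subT T i)_i` is a bijection onto `Fin a → Finset (Fin B)`, `|T| = ∑_i |subT T i|`, and the product of sums (`Finset.prod_univ_sum`, `Fintype.piFinset`).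
`wt_step`: `stepL a L = {T | ∀ i, subT T i ∈ {T' | T'ᶜ ∉ L}}`, `wt_prod`, `wt_compl`.
`wt_half`: `wt (1/2) L = Nat.card L / 2^B` (every term is `2^(-B)`).
`wt_q`: with `p = q/(1+q)`, `1 - p = 1/(1+q)`: `q^|T| = (1+q)^B p^|T| (1-p)^(B-|T|)`.
-/

set_option autoImplicit false
open scoped Classical

namespace H98DH

private theorem mem_f {B : ℕ} {L : Set (Finset (Fin B))} {T : Finset (Fin B)} :
    T ∈ Finset.univ.filter (fun T : Finset (Fin B) => T ∈ L) ↔ T ∈ L := by
  simp

private theorem wt_eq {B : ℕ} (p : ℝ) (L : Set (Finset (Fin B))) :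
    wt p L = ∑ T : Finset (Fin B), if T ∈ L then p ^ T.card * (1 - p) ^ (B - T.card) else 0 := by
  unfold wt
  rw [Finset.sum_filter]

theorem wt_nonneg {B : ℕ} {p : ℝ} (h0 : 0 ≤ p) (h1 : p ≤ 1) (L : Set (Finset (Fin B))) : 0 ≤ wt p L := by
  unfold wt
  refine Finset.sum_nonneg fun T _ => ?_
  exact mul_nonneg (pow_nonneg h0 _) (pow_nonneg (by linarith) _)

theorem wt_univ {B : ℕ} (p : ℝ) : wt p (Set.univ : Set (Finset (Fin B))) = 1 := by
  have h1 := Fintype.sum_pow_mul_eq_add_pow (Fin B) p (1 - p)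
  have h2 : (p + (1 - p)) = 1 := by ring
  rw [Fintype.card_fin, h2, one_pow] at h1
  rw [wt_eq]
  simp only [Set.mem_univ, if_true]
  exact h1

theorem wt_mono {B : ℕ} {p : ℝ} (h0 : 0 ≤ p) (h1 : p ≤ 1) {L L' : Set (Finset (Fin B))} (h : L ⊆ L') :
    wt p L ≤ wt p L' := by
  unfold wt
  refine Finset.sum_le_sum_of_subset_of_nonneg ?_ fun T _ _ => ?_
  · intro T hT
    exact mem_f.2 (h (mem_f.1 hT))
  · exact mul_nonneg (pow_nonneg h0 _) (pow_nonneg (by linarith) _)

theorem wt_compl {B : ℕ} (p : ℝ) (L : Set (Finset (Fin B))) :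
    wt p {T : Finset (Fin B) | Tᶜ ∉ L} = 1 - wt (1 - p) L := by
  have h1 : wt (1 - p) (Set.univ : Set (Finset (Fin B))) = wt (1 - p) L +
      ∑ T : Finset (Fin B), if T ∈ L then 0 else (1 - p) ^ T.card * (1 - (1 - p)) ^ (B - T.card) := by
    rw [wt_eq, wt_eq, ← Finset.sum_add_distrib]
    refine Finset.sum_congr rfl fun T _ => ?_
    by_cases hT : T ∈ L
    · rw [if_pos (Set.mem_univ _), if_pos hT, if_pos hT, add_zero]
    · rw [if_pos (Set.mem_univ _), if_neg hT, if_neg hT, zero_add]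
  have h2 : wt p {T : Finset (Fin B) | Tᶜ ∉ L} =
      ∑ T : Finset (Fin B), if T ∈ L then 0 else (1 - p) ^ T.card * (1 - (1 - p)) ^ (B - T.card) := by
    rw [wt_eq, ← Equiv.sum_comp (Function.Involutive.toPerm (compl : Finset (Fin B) → Finset (Fin B))
      compl_involutive)]
    refine Finset.sum_congr rfl fun T _ => ?_
    rw [Function.Involutive.coe_toPerm]
    have hc : T.card ≤ B := (Finset.card_le_univ T).trans (by rw [Fintype.card_fin])
    by_cases hT : T ∈ L
    · rw [if_pos hT, if_neg]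
      intro h
      have h' : Tᶜᶜ ∉ L := h
      rw [compl_compl] at h'
      exact h' hT
    · rw [if_neg hT, if_pos]
      · rw [Finset.card_compl, Fintype.card_fin, Nat.sub_sub_self hc, sub_sub_cancel, mul_comm]
      · show Tᶜᶜ ∉ L
        rw [compl_compl]
        exact hT
  rw [wt_univ] at h1
  rw [h2]
  linarith

theorem wt_point (b : ℕ) (p : ℝ) : wt p ({∅} : Set (Finset (Fin b))) = (1 - p) ^ b := by
  rw [wt_eq, Finset.sum_eq_single (∅ : Finset (Fin b))]
  · rw [if_pos (Set.mem_singleton _), Finset.card_empty, pow_zero, one_mul, Nat.sub_zero]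
  · intro T _ hT
    rw [if_neg]
    exact hT
  · intro h
    exact absurd (Finset.mem_univ _) h

theorem card_subT {a B : ℕ} (T : Finset (Fin (a * B))) : T.card = ∑ i, (subT T i).card := by
  have h1 : T.card = ∑ x : Fin (a * B), if x ∈ T then 1 else 0 := by
    rw [Finset.sum_boole]
    simp
  rw [h1, ← Fintype.sum_equiv finProdFinEquiv (fun x => if finProdFinEquiv x ∈ T then 1 else 0) _ (fun x => rfl),
    Fintype.sum_prod_type]
  refine Finset.sum_congr rfl fun i _ => ?_
  unfold subT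
  rw [Finset.sum_boole]
  simp

/-- the set with the given parts -/
noncomputable def unT {a B : ℕ} (x : Fin a → Finset (Fin B)) : Finset (Fin (a * B)) :=
  Finset.univ.filter (fun y => (finProdFinEquiv.symm y).2 ∈ x (finProdFinEquiv.symm y).1)

theorem subT_unT {a B : ℕ} (x : Fin a → Finset (Fin B)) : (fun i => subT (unT x) i) = x := by
  funext i
  ext l
  simp only [subT, unT, Finset.mem_filter, Finset.mem_univ, true_and, Equiv.symm_apply_apply]

theorem unT_subT {a B : ℕ} (T : Finset (Fin (a * B))) : unT (fun i => subT T i) = T := by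
  ext y
  simp only [subT, unT, Finset.mem_filter, Finset.mem_univ, true_and, Prod.mk.eta, Equiv.apply_symm_apply]

theorem wt_prod {B : ℕ} (a : ℕ) (p : ℝ) (L : Set (Finset (Fin B))) :
    wt p ({T | ∀ i, subT T i ∈ L} : Set (Finset (Fin (a * B)))) = (wt p L) ^ a := by
  have h1 : (wt p L) ^ a = ∏ _i : Fin a, wt p L := by
    rw [Finset.prod_const, Finset.card_univ, Fintype.card_fin]
  rw [h1]
  unfold wt
  rw [Finset.prod_univ_sum]
  refine Finset.sum_nbij' (fun T i => subT T i) (fun x => unT x) ?_ ?_ ?_ ?_ ?_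
  · intro T hT
    have hT' : ∀ i, subT T i ∈ L := mem_f.1 hT
    rw [Fintype.mem_piFinset]
    intro i
    exact mem_f.2 (hT' i)
  · intro x hx
    rw [Fintype.mem_piFinset] at hx
    refine mem_f.2 ?_
    intro i
    have h2 := congrFun (subT_unT x) i
    have h3 : subT (unT x) i = x i := h2
    rw [h3]
    exact mem_f.1 (hx i)
  · intro T _
    exact unT_subT T
  · intro x _
    exact subT_unT x
  · intro T _
    have h3 : ∑ i : Fin a, (B - (subT T i).card) = a * B - T.card := by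
      have h4 : ∑ i : Fin a, (B - (subT T i).card) + ∑ i : Fin a, (subT T i).card = a * B := by
        rw [← Finset.sum_add_distrib]
        have h5 : ∀ i ∈ (Finset.univ : Finset (Fin a)), (B - (subT T i).card) + (subT T i).card = B := by
          intro i _
          exact Nat.sub_add_cancel ((Finset.card_le_univ _).trans (by rw [Fintype.card_fin]))
        rw [Finset.sum_congr rfl h5, Finset.sum_const, Finset.card_univ, Fintype.card_fin, smul_eq_mul]
      rw [card_subT T]
      omega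
    show p ^ T.card * (1 - p) ^ (a * B - T.card) =
      ∏ i : Fin a, (p ^ (subT T i).card * (1 - p) ^ (B - (subT T i).card))
    rw [Finset.prod_mul_distrib, Finset.prod_pow_eq_pow_sum, Finset.prod_pow_eq_pow_sum, ← card_subT, h3]

theorem wt_step {B : ℕ} (a : ℕ) (p : ℝ) (L : Set (Finset (Fin B))) : wt p (stepL a L) = (1 - wt (1 - p) L) ^ a := by
  have h1 : stepL a L = {T | ∀ i, subT T i ∈ {T' : Finset (Fin B) | T'ᶜ ∉ L}} := rfl
  rw [h1, wt_prod, wt_compl]

theorem wt_half {B : ℕ} (L : Set (Finset (Fin B))) : wt (1 / 2) L = (Nat.card L : ℝ) / 2 ^ B := by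
  have h1 : ∀ T ∈ Finset.univ.filter (fun T : Finset (Fin B) => T ∈ L),
      ((1 / 2 : ℝ)) ^ T.card * (1 - 1 / 2) ^ (B - T.card) = 1 / 2 ^ B := by
    intro T _
    have hc : T.card ≤ B := (Finset.card_le_univ T).trans (by rw [Fintype.card_fin])
    rw [show (1 - 1 / 2 : ℝ) = 1 / 2 from by norm_num, ← pow_add, Nat.add_sub_cancel' hc, one_div_pow]
  unfold wt
  rw [Finset.sum_congr rfl h1, Finset.sum_const, nsmul_eq_mul]
  have h2 : Nat.card L = (Finset.univ.filter (fun T : Finset (Fin B) => T ∈ L)).card := by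
    rw [Nat.card_eq_fintype_card, Fintype.card_subtype]
  rw [h2]
  ring

theorem wt_q {B : ℕ} {q : ℝ} (hq : 0 < q) (L : Set (Finset (Fin B))) :
    ∑ T ∈ Finset.univ.filter (fun T : Finset (Fin B) => T ∈ L), q ^ T.card = (1 + q) ^ B * wt (q / (1 + q)) L := by
  unfold wt
  rw [Finset.mul_sum]
  refine Finset.sum_congr rfl fun T _ => ?_
  have hc : T.card ≤ B := (Finset.card_le_univ T).trans (by rw [Fintype.card_fin])
  have h0 : (1 + q) ≠ 0 := by positivity
  have h1 : (1 - q / (1 + q)) = 1 / (1 + q) := by field_simp; ring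
  have h2 : (1 + q) ^ B = (1 + q) ^ T.card * (1 + q) ^ (B - T.card) := by
    rw [← pow_add, Nat.add_sub_cancel' hc]
  rw [h1, h2, div_pow, one_div_pow]
  field_simp

end H98DH
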