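import Pool.Agent.H98.DH.OB

/-!
ROW MU (multiplication rules; about 110 lines).  PROOF.
`Mh_mul`: span induction on both factors: `mono T * mono R = mono (T ∪ R)` (`H96RE.mono_mul`), `heavy_union`.
`K_mul`: for `h = mono R`, `R.card ≤ c`: induction on `R`: `g * mono (insert i R) = mulX i (g * mono R)` with `g * mono R ∈ Mh (a + R.card)` (`Mh_mul`) and `a + R.card + 1 ≤ a + c ≤ D0`; then linearity in `h`
(`Submodule.span_induction` on `h ∈ Pol n c`).
`indic_C_mem`: `indic (C j)ᶜ` is a combination of `mono T'` with `blk i ∈ S j` for all `i ∈ T'` (it does not change if the variables outside the blocks of `S j` are set to zero: `H91RE.setz`, `mono_top`).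
`K_ind`: by linearity `g = mono T`, `(heavy T).card ≤ a`.  For `T1 ⊆ T` show `mono T1 * indic (C j)ᶜ ∈ K` by induction on `T1` (`mulX`): `mono T1 * indic (C j)ᶜ ∈ span (mono '' {T1 ∪ T' | T' in the blocks of S j})` and
`heavy (T1 ∪ T') ⊆ heavy T1 ∪ S j` (`heavy_sub`), so it is in `Mh (a + (S j).card)` (`heavy_mono`: `heavy T1 ⊆ heavy T`) and `a + (S j).card + 1 ≤ D0`.
-/

set_option autoImplicit false
open scoped Classical

namespace H98DH

open H96RE H91RE

variable {n m : ℕ} {blk : Fin n → Fin m} {Lt : Finset (Fin n) → Prop}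

theorem Mh_le {a b : ℕ} (h : a ≤ b) : Mh blk Lt a ≤ Mh blk Lt b := by
  unfold Mh
  refine Submodule.span_mono (Set.image_mono ?_)
  intro T hT
  exact le_trans (show (heavy blk Lt T).card ≤ a from hT) h

theorem Mh_mul (hLt : ∀ R R' : Finset (Fin n), R ⊆ R' → Lt R' → Lt R) {a c : ℕ} {g h : Fn n}
    (hg : g ∈ Mh blk Lt a) (hh : h ∈ Pol n c) : g * h ∈ Mh blk Lt (a + c) := by
  have h1 : Mh blk Lt a * Pol n c ≤ Mh blk Lt (a + c) := by
    unfold Mh Pol
    rw [Submodule.span_mul_span]
    refine Submodule.span_le.2 ?_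
    rintro _ ⟨_, ⟨T, hT, rfl⟩, _, ⟨T', hT', rfl⟩, rfl⟩
    have h2 : mono T * mono T' = mono (T ∪ T') := mono_mul T T'
    have h3 : (heavy blk Lt (T ∪ T')).card ≤ a + c :=
      (heavy_union hLt T T').trans (Nat.add_le_add hT hT')
    exact Submodule.subset_span ⟨T ∪ T', h3, h2.symm⟩
  exact h1 (Submodule.mul_mem_mul hg hh)

private theorem MU_insert {i : Fin n} {T : Finset (Fin n)} (hi : i ∉ T) (g : Fn n) :
    g * mono (insert i T) = mulX i (g * mono T) := by
  funext x
  simp only [Pi.mul_apply, mono, mulX, Finset.prod_insert hi]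
  ring

private theorem MU_empty (g : Fn n) : g * mono (∅ : Finset (Fin n)) = g := by
  funext x
  simp [mono]

theorem K_mul (hLt : ∀ R R' : Finset (Fin n), R ⊆ R' → Lt R' → Lt R) {K : Submodule (ZMod 2) (Fn n)} {D0 : ℕ}
    (hK : ∀ g ∈ K, ∀ a, a + 1 ≤ D0 → g ∈ Mh blk Lt a → ∀ i, mulX i g ∈ K) {a c : ℕ} (hac : a + c ≤ D0)
    {g h : Fn n} (hg : g ∈ K) (hg' : g ∈ Mh blk Lt a) (hh : h ∈ Pol n c) : g * h ∈ K := by
  have key : ∀ T : Finset (Fin n), a + T.card ≤ D0 → g * mono T ∈ K := by
    intro T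
    induction T using Finset.induction_on with
    | empty =>
      intro _
      rw [MU_empty]
      exact hg
    | insert i T hi ih =>
      intro hE
      rw [Finset.card_insert_of_notMem hi] at hE
      rw [MU_insert hi]
      exact hK _ (ih (by omega)) (a + T.card) (by omega) (Mh_mul hLt hg' (mono_mem (le_refl T.card))) i
  unfold Pol at hh
  induction hh using Submodule.span_induction with
  | mem h hh =>
    obtain ⟨T, hT, rfl⟩ := hh
    exact key T (by have hT' : T.card ≤ c := hT; omega)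
  | zero => rw [mul_zero]; exact Submodule.zero_mem _
  | add u v _ _ hu hv => rw [mul_add]; exact Submodule.add_mem _ hu hv
  | smul c u _ hu => rw [mul_smul_comm]; exact Submodule.smul_mem _ c hu

private theorem MU_span (A : Finset (Fin n)) (f : Fn n) (hf : setz A f = f) :
    f ∈ Submodule.span (ZMod 2) (mono '' {T' : Finset (Fin n) | T' ⊆ A}) := by
  have hle : Submodule.span (ZMod 2) (Set.range (mono : Finset (Fin n) → Fn n)) ≤
      Submodule.comap (setz A) (Submodule.span (ZMod 2) (mono '' {T' : Finset (Fin n) | T' ⊆ A})) := by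
    rw [Submodule.span_le]
    rintro _ ⟨T', rfl⟩
    show setz A (mono T') ∈ Submodule.span (ZMod 2) (mono '' {T' : Finset (Fin n) | T' ⊆ A})
    by_cases hs : T' ⊆ A
    · rw [setz_mono_of_subset A T' hs]
      exact Submodule.subset_span ⟨T', hs, rfl⟩
    · rw [setz_mono_of_not_subset A T' hs]
      exact Submodule.zero_mem _
  have h1 : f ∈ Submodule.span (ZMod 2) (Set.range (mono : Finset (Fin n) → Fn n)) := by
    rw [mono_top]
    exact Submodule.mem_top
  have h2 : setz A f ∈ Submodule.span (ZMod 2) (mono '' {T' : Finset (Fin n) | T' ⊆ A}) := hle h1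
  rwa [hf] at h2

theorem indic_C_mem {ι : Type} {S : ι → Finset (Fin m)} {C : ι → Set (Fin n → ZMod 2)}
    (hC : ∀ j x y, (∀ i, blk i ∈ S j → x i = y i) → x ∈ C j → y ∈ C j) (j : ι) :
    indic (C j)ᶜ ∈ Submodule.span (ZMod 2) (mono '' {T' : Finset (Fin n) | ∀ i ∈ T', blk i ∈ S j}) := by
  obtain ⟨A, hA⟩ : ∃ A : Finset (Fin n), A = Finset.univ.filter (fun i => blk i ∈ S j) := ⟨_, rfl⟩
  have hmem : ∀ i, i ∈ A ↔ blk i ∈ S j := by
    intro i
    rw [hA]
    simp
  have h1 := MU_span A (indic (C j)ᶜ) (by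
    funext x
    rw [setz_apply]
    unfold indic
    have hiff : (fun i => if i ∈ A then x i else 0) ∈ C j ↔ x ∈ C j := by
      constructor
      · intro h
        refine hC j _ _ (fun i hi => ?_) h
        rw [if_pos ((hmem i).2 hi)]
      · intro h
        refine hC j _ _ (fun i hi => ?_) h
        rw [if_pos ((hmem i).2 hi)]
    have hiff' : ((fun i => if i ∈ A then x i else 0) ∈ (C j)ᶜ) = (x ∈ (C j)ᶜ) := by
      rw [Set.mem_compl_iff, Set.mem_compl_iff, hiff]
    by_cases h : x ∈ (C j)ᶜ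
    · rw [if_pos h, if_pos (by rw [hiff']; exact h)]
    · rw [if_neg h, if_neg (by rw [hiff']; exact h)])
  refine Submodule.span_mono (Set.image_mono ?_) h1
  intro T hT i hi
  exact (hmem i).1 (hT hi)

theorem K_ind (hLt : ∀ R R' : Finset (Fin n), R ⊆ R' → Lt R' → Lt R) {K : Submodule (ZMod 2) (Fn n)} {D0 : ℕ}
    (hK : ∀ g ∈ K, ∀ a, a + 1 ≤ D0 → g ∈ Mh blk Lt a → ∀ i, mulX i g ∈ K)
    {ι : Type} {S : ι → Finset (Fin m)} {C : ι → Set (Fin n → ZMod 2)}
    (hC : ∀ j x y, (∀ i, blk i ∈ S j → x i = y i) → x ∈ C j → y ∈ C j) {j : ι} (hj : indic (C j)ᶜ ∈ K)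
    {a : ℕ} (ha : a + (S j).card < D0) {g : Fn n} (hg : g ∈ Mh blk Lt a) : g * indic (C j)ᶜ ∈ K := by
  have hf := indic_C_mem hC j
  obtain ⟨f, hfe⟩ : ∃ f : Fn n, f = indic (C j)ᶜ := ⟨_, rfl⟩
  rw [← hfe] at hf hj ⊢
  have hdeg : ∀ T1 : Finset (Fin n), (heavy blk Lt T1).card ≤ a → f * mono T1 ∈ Mh blk Lt (a + (S j).card) := by
    intro T1 hT1
    have h1 : Submodule.span (ZMod 2) (mono '' {T' : Finset (Fin n) | ∀ i ∈ T', blk i ∈ S j}) *
        Submodule.span (ZMod 2) {mono T1} ≤ Mh blk Lt (a + (S j).card) := by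
      unfold Mh
      rw [Submodule.span_mul_span]
      refine Submodule.span_le.2 ?_
      rintro _ ⟨_, ⟨T, hT, rfl⟩, _, rfl, rfl⟩
      have h2 : mono T * mono T1 = mono (T ∪ T1) := mono_mul T T1
      have h3 : heavy blk Lt (T ∪ T1) ⊆ heavy blk Lt T1 ∪ S j := by
        apply heavy_sub hLt
        intro i hi
        rcases Finset.mem_union.1 hi with hi | hi
        · exact Or.inr (hT i hi)
        · exact Or.inl hi
      have h4 : (heavy blk Lt (T ∪ T1)).card ≤ a + (S j).card :=
        (Finset.card_le_card h3).trans ((Finset.card_union_le _ _).trans (by omega))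
      exact Submodule.subset_span ⟨T ∪ T1, h4, h2.symm⟩
    exact h1 (Submodule.mul_mem_mul hf (Submodule.mem_span_singleton_self _))
  have key : ∀ T : Finset (Fin n), (heavy blk Lt T).card ≤ a → f * mono T ∈ K := by
    intro T
    induction T using Finset.induction_on with
    | empty =>
      intro _
      rw [MU_empty]
      exact hj
    | insert i T hi ih =>
      intro hE
      have hE' : (heavy blk Lt T).card ≤ a :=
        (Finset.card_le_card (heavy_mono hLt (Finset.subset_insert i T))).trans hE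
      rw [MU_insert hi]
      exact hK _ (ih hE') (a + (S j).card) (by omega) (hdeg T hE') i
  unfold Mh at hg
  induction hg using Submodule.span_induction with
  | mem h hh =>
    obtain ⟨T, hT, rfl⟩ := hh
    rw [mul_comm]
    exact key T hT
  | zero => rw [zero_mul]; exact Submodule.zero_mem _
  | add u v _ _ hu hv => rw [add_mul]; exact Submodule.add_mem _ hu hv
  | smul c u _ hu => rw [smul_mul_assoc]; exact Submodule.smul_mem _ c hu

end H98DH
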