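import Pool.Agent.H98.DH.Defs

/-!
ROW OB (reducibility and one private block; about 150 lines).  `Red o V T` (H91RE): `mono T ∈ V ⊔ span (mono '' {T' | o T' < o T})`.  `van Z` = functions vanishing on `Z`
(H96RX.van).  PROOF.
`prt_mono`, `heavy_mono`: `T ⊆ T'` gives `prt T v ⊆ prt T' v` and (by `hLt`) `heavy T ⊆ heavy T'`.
`heavy_insert`: only the part in the block of `i` changes.  `heavy_union`: induction.  `heavy_sub`: if `T' ⊆ T ∪ {i | blk i ∈ W}` then for `v ∉ W`
`prt T' v ⊆ prt T v`, so `v` heavy for `T'` implies `v ∈ W` or heavy for `T`.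
`one_block`: put `L = prt blk T v` and for `h : Fn n` let `Λ h x = mono L x * ∑ z ∈ P, h (merge blk v z x)` (a linear map `Fn n →ₗ Fn n`).
(a) `Λ` maps `van W` into `van Z` (`hW`).  (b) For every `T'`: `mono T' (merge blk v z x) = mono (prt T' v) z * mono (T'.filter (blk · ≠ v)) x`, so
`Λ (mono T') = (∑ z ∈ P, mono (prt T' v) z) • mono (T'.filter (blk · ≠ v) ∪ L)` (`mono_mul`).  In particular `Λ (mono T) = mono T` (`hP` with `R = L`, and
`T.filter (≠ v) ∪ L = T`).  (c) If `o T' < o T` then `Λ (mono T') ∈ span (mono '' {T'' | o T'' < o T})`: if `prt T' v = L` it is `mono T'`; if `prt T' v` is light and `≠ L` it is `0` (`hP`);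
if `prt T' v` is heavy: `T'' = T'.filter (≠ v) ∪ L` has the parts of `T'` outside `v` and the light part `L` in `v`: `(heavy T'').card + 1 = (heavy T').card`, and `(heavy T').card ≤ (heavy T).card`
(otherwise `o T < o T'` by `ho`), so `(heavy T'').card < (heavy T).card` and `o T'' < o T`.
Apply `Λ` to `mono T ∈ van W ⊔ span ..` (`Submodule.mem_sup`, `Submodule.map_span`).
`ord_exists`: as in H91RE.ord_exists: `o T = (heavy T).card * N + e T`, `e : Finset (Fin n) ≃ Fin N`.
-/

set_option autoImplicit false
open scoped Classical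

namespace H98DH

open H96RE H91RE

variable {n m : ℕ} {blk : Fin n → Fin m} {Lt : Finset (Fin n) → Prop}

private theorem mem_heavyOB {T : Finset (Fin n)} {v : Fin m} :
    v ∈ heavy blk Lt T ↔ ¬ Lt (prt blk T v) := by
  unfold heavy
  rw [Finset.mem_filter]
  exact ⟨fun h => h.2, fun h => ⟨Finset.mem_univ _, h⟩⟩

private theorem mem_prtOB {T : Finset (Fin n)} {v : Fin m} {i : Fin n} :
    i ∈ prt blk T v ↔ i ∈ T ∧ blk i = v := by
  unfold prt
  rw [Finset.mem_filter]

theorem heavy_mono (hLt : ∀ R R' : Finset (Fin n), R ⊆ R' → Lt R' → Lt R) {T T' : Finset (Fin n)} (h : T ⊆ T') :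
    heavy blk Lt T ⊆ heavy blk Lt T' := by
  intro v hv
  rw [mem_heavyOB] at hv ⊢
  intro h1
  refine hv (hLt _ _ ?_ h1)
  exact Finset.filter_subset_filter _ h

theorem heavy_insert (hLt : ∀ R R' : Finset (Fin n), R ⊆ R' → Lt R' → Lt R) (i : Fin n) (T : Finset (Fin n)) :
    heavy blk Lt (insert i T) ⊆ insert (blk i) (heavy blk Lt T) := by
  intro v hv
  rw [Finset.mem_insert]
  by_cases h : v = blk i
  · exact Or.inl h
  · right
    rw [mem_heavyOB] at hv ⊢
    intro h1
    refine hv (hLt _ _ ?_ h1)
    intro l hl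
    rw [mem_prtOB] at hl ⊢
    rcases Finset.mem_insert.1 hl.1 with h2 | h2
    · exact absurd (by rw [← hl.2, h2]) h
    · exact ⟨h2, hl.2⟩

theorem heavy_union (hLt : ∀ R R' : Finset (Fin n), R ⊆ R' → Lt R' → Lt R) (T R : Finset (Fin n)) :
    (heavy blk Lt (T ∪ R)).card ≤ (heavy blk Lt T).card + R.card := by
  induction R using Finset.induction_on with
  | empty => rw [Finset.union_empty, Finset.card_empty, Nat.add_zero]
  | insert i R hi ih =>
    rw [Finset.union_insert, Finset.card_insert_of_notMem hi]
    have h1 := Finset.card_le_card (heavy_insert hLt i (T ∪ R) (blk := blk))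
    have h2 := Finset.card_insert_le (blk i) (heavy blk Lt (T ∪ R))
    omega

theorem heavy_sub (hLt : ∀ R R' : Finset (Fin n), R ⊆ R' → Lt R' → Lt R) {T T' : Finset (Fin n)} {W : Finset (Fin m)}
    (h : ∀ i ∈ T', i ∈ T ∨ blk i ∈ W) : heavy blk Lt T' ⊆ heavy blk Lt T ∪ W := by
  intro v hv
  rw [Finset.mem_union]
  by_cases hW : v ∈ W
  · exact Or.inr hW
  · left
    rw [mem_heavyOB] at hv ⊢
    intro h1
    refine hv (hLt _ _ ?_ h1)
    intro l hl
    rw [mem_prtOB] at hl ⊢
    rcases h l hl.1 with h2 | h2
    · exact ⟨h2, hl.2⟩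
    · rw [hl.2] at h2
      exact absurd h2 hW

/-- the orders we use: injective, refining the number of heavy blocks -/
def HOrd (blk : Fin n → Fin m) (Lt : Finset (Fin n) → Prop) (o : Finset (Fin n) → ℕ) : Prop :=
  Function.Injective o ∧ ∀ T T' : Finset (Fin n), (heavy blk Lt T').card < (heavy blk Lt T).card → o T' < o T

theorem hord_exists (blk : Fin n → Fin m) (Lt : Finset (Fin n) → Prop) : ∃ o, HOrd blk Lt o := by
  let e := Fintype.equivFin (Finset (Fin n))
  set N := Fintype.card (Finset (Fin n)) with hN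
  refine ⟨fun T => (heavy blk Lt T).card * N + (e T : ℕ), ?_, ?_⟩
  · intro T T' h
    have h1 : (e T : ℕ) < N := (e T).2
    have h2 : (e T' : ℕ) < N := (e T').2
    have h3 : ((heavy blk Lt T).card * N + (e T : ℕ)) % N =
        ((heavy blk Lt T').card * N + (e T' : ℕ)) % N := by
      have h' : (heavy blk Lt T).card * N + (e T : ℕ) =
        (heavy blk Lt T').card * N + (e T' : ℕ) := h
      rw [h']
    rw [Nat.mul_add_mod_self_right, Nat.mul_add_mod_self_right, Nat.mod_eq_of_lt h1,
      Nat.mod_eq_of_lt h2] at h3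
    exact e.injective (Fin.ext h3)
  · intro T T' h
    have h2 : (e T' : ℕ) < N := (e T').2
    have h1 : ((heavy blk Lt T').card + 1) * N ≤ (heavy blk Lt T).card * N :=
      Nat.mul_le_mul_right _ h
    show (heavy blk Lt T').card * N + (e T' : ℕ) < (heavy blk Lt T).card * N + (e T : ℕ)
    have h3 : ((heavy blk Lt T').card + 1) * N = (heavy blk Lt T').card * N + N := by ring
    omega

private noncomputable def LamOB (blk : Fin n → Fin m) (v : Fin m) (L : Finset (Fin n))
    (P : Finset (Fin n → ZMod 2)) : Fn n →ₗ[ZMod 2] Fn n where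
  toFun h := fun x => mono L x * ∑ z ∈ P, h (merge blk v z x)
  map_add' := by
    intro f g
    funext x
    show mono L x * ∑ z ∈ P, (f (merge blk v z x) + g (merge blk v z x)) =
      mono L x * ∑ z ∈ P, f (merge blk v z x) + mono L x * ∑ z ∈ P, g (merge blk v z x)
    rw [Finset.sum_add_distrib, mul_add]
  map_smul' := by
    intro c f
    funext x
    show mono L x * ∑ z ∈ P, (c * f (merge blk v z x)) =
      c * (mono L x * ∑ z ∈ P, f (merge blk v z x))
    rw [← Finset.mul_sum]
    ring

private theorem LamOB_apply (v : Fin m) (L : Finset (Fin n)) (P : Finset (Fin n → ZMod 2))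
    (h : Fn n) (x : Fin n → ZMod 2) :
    LamOB blk v L P h x = mono L x * ∑ z ∈ P, h (merge blk v z x) := rfl

private theorem LamOB_mono (v : Fin m) (L : Finset (Fin n)) (P : Finset (Fin n → ZMod 2))
    (T : Finset (Fin n)) :
    LamOB blk v L P (mono T) =
      (∑ z ∈ P, mono (prt blk T v) z) • mono (L ∪ T.filter (fun i => ¬ blk i = v)) := by
  funext x
  rw [LamOB_apply, ← mono_mul]
  show _ = (∑ z ∈ P, mono (prt blk T v) z) * (mono L x * mono (T.filter (fun i => ¬ blk i = v)) x)
  have h1 : ∀ z : Fin n → ZMod 2, mono T (merge blk v z x) =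
      mono (prt blk T v) z * mono (T.filter (fun i => ¬ blk i = v)) x := by
    intro z
    unfold mono merge prt
    rw [Finset.prod_ite]
  simp only [h1]
  rw [← Finset.sum_mul]
  ring

theorem one_block {o : Finset (Fin n) → ℕ} (ho : HOrd blk Lt o) (v : Fin m) (Z W : Set (Fin n → ZMod 2))
    (T : Finset (Fin n)) (hT : Lt (prt blk T v)) (P : Finset (Fin n → ZMod 2))
    (hP : ∀ R : Finset (Fin n), (∀ i ∈ R, blk i = v) → Lt R → ∑ z ∈ P, mono R z = if R = prt blk T v then 1 else 0)
    (hW : ∀ x ∈ Z, ∀ z ∈ P, merge blk v z x ∈ W) (hred : Red o (H96RX.van W) T) : Red o (H96RX.van Z) T := by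
  obtain ⟨L, hL⟩ : ∃ L, L = prt blk T v := ⟨_, rfl⟩
  have hLv : ∀ i ∈ L, blk i = v := by
    intro i hi
    rw [hL] at hi
    exact (mem_prtOB.1 hi).2
  rw [← hL] at hT hP
  have hun : ∀ T' : Finset (Fin n), prt blk T' v = L →
      L ∪ T'.filter (fun i => ¬ blk i = v) = T' := by
    intro T' h
    rw [← h]
    exact Finset.filter_union_filter_not_eq _ _
  have hTT : LamOB blk v L P (mono T) = mono T := by
    rw [LamOB_mono, ← hL, hP L hLv hT, if_pos rfl, one_smul, hun T hL.symm]
  have hS : Submodule.span (ZMod 2) (mono '' {T' | o T' < o T}) ≤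
      Submodule.comap (LamOB blk v L P)
        (Submodule.span (ZMod 2) (mono '' {T' | o T' < o T})) := by
    rw [Submodule.span_le]
    rintro _ ⟨T', hT', rfl⟩
    have hT'' : o T' < o T := hT'
    show LamOB blk v L P (mono T') ∈ Submodule.span (ZMod 2) (mono '' {T' | o T' < o T})
    rw [LamOB_mono]
    have hpv : ∀ i ∈ prt blk T' v, blk i = v := fun i hi => (mem_prtOB.1 hi).2
    by_cases h1 : prt blk T' v = L
    · rw [hun T' h1]
      exact Submodule.smul_mem _ _ (Submodule.subset_span ⟨T', hT', rfl⟩)
    · by_cases h2 : Lt (prt blk T' v)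
      · rw [hP _ hpv h2, if_neg h1, zero_smul]
        exact Submodule.zero_mem _
      · refine Submodule.smul_mem _ _ (Submodule.subset_span ⟨_, ?_, rfl⟩)
        show o (L ∪ T'.filter (fun i => ¬ blk i = v)) < o T
        apply ho.2
        have h3 : heavy blk Lt (L ∪ T'.filter (fun i => ¬ blk i = v)) ⊆
            (heavy blk Lt T').erase v := by
          intro u hu
          rw [mem_heavyOB] at hu
          rw [Finset.mem_erase, mem_heavyOB]
          by_cases huv : u = v
          · exfalso
            apply hu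
            have e1 : prt blk (L ∪ T'.filter (fun i => ¬ blk i = v)) u = L := by
              ext i
              rw [mem_prtOB, Finset.mem_union, Finset.mem_filter, huv]
              constructor
              · rintro ⟨h4 | h4, h5⟩
                · exact h4
                · exact absurd h5 h4.2
              · intro h4
                exact ⟨Or.inl h4, hLv i h4⟩
            rw [e1]
            exact hT
          · refine ⟨huv, ?_⟩
            have e1 : prt blk (L ∪ T'.filter (fun i => ¬ blk i = v)) u = prt blk T' u := by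
              ext i
              rw [mem_prtOB, mem_prtOB, Finset.mem_union, Finset.mem_filter]
              constructor
              · rintro ⟨h4 | h4, h5⟩
                · exact absurd (h5.symm.trans (hLv i h4)) huv
                · exact ⟨h4.1, h5⟩
              · rintro ⟨h4, h5⟩
                exact ⟨Or.inr ⟨h4, fun h6 => huv (h5.symm.trans h6)⟩, h5⟩
            rw [e1] at hu
            exact hu
        have h4 : v ∈ heavy blk Lt T' := mem_heavyOB.2 h2
        have h5 := Finset.card_le_card h3
        have h6 := Finset.card_erase_lt_of_mem h4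
        have h7 : (heavy blk Lt T').card ≤ (heavy blk Lt T).card := by
          by_contra hcon
          rw [not_le] at hcon
          have := ho.2 T' T hcon
          omega
        omega
  unfold Red at hred ⊢
  obtain ⟨a, ha, b, hb, hab⟩ := Submodule.mem_sup.1 hred
  rw [← hTT, ← hab, map_add]
  refine Submodule.add_mem_sup ?_ (hS hb)
  show ∀ x ∈ Z, LamOB blk v L P a x = 0
  intro x hx
  rw [LamOB_apply, Finset.sum_eq_zero (fun z hz => ha _ (hW x hx z hz)), mul_zero]

end H98DH
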