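import Pool.Agent.H98.DH.RS

/-!
ROW AR (Alekhnovich-Razborov operator with heavy blocks; about 200 lines; adapt Pool/Agent/H96/RE/ThmB.lean, same structure).  PROOF.  `o` from `hord_exists`.  For `J : Finset ι` let `P J` be the projection
of `H91RE.proj o ho.1 (van (Sat C J))`: `P J g = 0` for `g ∈ van (Sat C J)`, `P J (mono T) = mono T` for irreducible `T`, `g - P J g ∈ van (Sat C J)`,
`P J (mono T) ∈ span (mono '' {T' | ¬ Red T' ∧ o T' ≤ o T})`.
(V) As in `H91RE.proj_vars` (use `setz` for the set `A = T ∪ {i | blk i ∈ J.biUnion S}` of variables; setting the other variables to zero maps `van (Sat C J)` into itself by `hC`, because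
`Sat C J` only depends on the blocks of `J.biUnion S`; then uniqueness `H91RE.irr_unique`): `P J (mono T) ∈ span (mono '' {T' | ¬ Red T' ∧ o T' ≤ o T ∧ ∀ i ∈ T', i ∈ T ∨ blk i ∈ J.biUnion S})`.
(O) `o T' ≤ o T` implies `(heavy T').card ≤ (heavy T).card` (`ho`).
Write `cl T = Sup S s (heavy blk Lt T)`, for `(heavy T).card ≤ D0`.
(1) `cl T ⊆ J`, `J.card ≤ s`: `P J (mono T) = P (cl T) (mono T)`: as in ThmB `h1`: every `T'` in `P (cl T) (mono T)` has `(heavy T').card ≤ D0`, `heavy T' ⊆ heavy T ∪ (cl T).biUnion S` (`heavy_sub`), so `cl T' ⊆ cl T`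
(`sup_sub`), and is `J`-irreducible by `red_sup` (if `Red (van (Sat C J)) T'` then `Red (van (Sat C (cl T'))) T'`, then `Red (van (Sat C (cl T))) T'` since `van (Sat C (cl T')) ≤ van (Sat C (cl T))`).
(2) `R` = the linear map with `R (mono T) = P (cl T) (mono T)` for `(heavy T).card ≤ D0` and `0` for the other `T` (basis `Module.Basis.mk (mono_indep n) (mono_top n).ge`).
`K = Mh blk Lt D0 ⊓ ker R`.
(K1) `indic (C j)ᶜ ∈ K`: it is a combination of `mono T'`, all `i ∈ T'` with `blk i ∈ S j` (setting the variables outside the blocks of `S j` to zero does not change it: `setz`, `hC`; and `mono_top`), so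
`heavy T' ⊆ S j` and `cl T' ⊆ J := Sup S s (S j)`, `j ∈ J` (`sup_mem`), `J.card ≤ s`; `R g = P J g` for such `g` by (1), and `P J (indic (C j)ᶜ) = 0` because it vanishes on `Sat C J`.
(K2) `g ∈ K ⊓ Mh a`, `a + 1 ≤ D0`: `R (mulX i g) = R (mulX i (R g))`: for `g = mono T`, `(heavy T).card ≤ a`: `J = Sup S s (insert (blk i) (heavy T))`, `(insert ..).card ≤ D0`;
all monomials `T''` of `mulX i (mono T)` and of `mulX i (P (cl T) (mono T))` have `heavy T'' ⊆ insert (blk i) (heavy T) ∪ J.biUnion S` (`heavy_insert`, `heavy_sub`, `cl T ⊆ J`) and at most `D0` heavy blocks, so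
`cl T'' ⊆ J` and `R = P J` on them; `P J (mulX i (mono T - P (cl T) (mono T))) = 0` since this function vanishes on `Sat C (cl T) ⊇ Sat C J`.  So `R (mulX i g) = R (mulX i (R g)) = R 0 = 0`.
(K3) if `cl T = ∅` then `van (Sat C ∅) = {0}` and `R (mono T) = mono T`: `R g = g` on the span; so `g ∈ K` gives `g = 0`.
-/

set_option autoImplicit false
open scoped Classical

namespace H98DH

open H96RE H91RE

private theorem AR_mulX {n : ℕ} (i : Fin n) (g : Fn n) :
    mulX i g = LinearMap.mulLeft (ZMod 2) (mono {i}) g := by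
  funext x
  show x i * g x = (mono {i} * g) x
  rw [Pi.mul_apply]
  unfold mono
  rw [Finset.prod_singleton]

private theorem AR_mulL {n : ℕ} (i : Fin n) (T : Finset (Fin n)) :
    LinearMap.mulLeft (ZMod 2) (mono {i}) (mono T) = mono (insert i T) := by
  rw [LinearMap.mulLeft_apply, mono_mul, Finset.insert_eq]

private theorem AR_anti {n : ℕ} {ι : Type} (C : ι → Set (Fin n → ZMod 2)) {J J' : Finset ι} (h : J ⊆ J') :
    H96RX.van (Sat C J) ≤ H96RX.van (Sat C J') :=
  fun _ hg x hx => hg x fun j hj => hx j (h hj)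

private theorem AR_mulmem {n : ℕ} (Z : Set (Fin n → ZMod 2)) (i : Fin n) (g : Fn n)
    (hg : g ∈ H96RX.van Z) : LinearMap.mulLeft (ZMod 2) (mono {i}) g ∈ H96RX.van Z := by
  intro x hx
  rw [LinearMap.mulLeft_apply, Pi.mul_apply, hg x hx, mul_zero]

private theorem AR_setz {n m : ℕ} {ι : Type} (blk : Fin n → Fin m) (S : ι → Finset (Fin m))
    (C : ι → Set (Fin n → ZMod 2))
    (hC : ∀ j x y, (∀ i, blk i ∈ S j → x i = y i) → x ∈ C j → y ∈ C j) (J : Finset ι) (A : Finset (Fin n))
    (hA : ∀ i, blk i ∈ J.biUnion S → i ∈ A) (g : Fn n) (hg : g ∈ H96RX.van (Sat C J)) :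
    setz A g ∈ H96RX.van (Sat C J) := by
  intro x hx
  rw [setz_apply]
  refine hg _ fun j hj => ?_
  refine hC j x _ (fun i hi => ?_) (hx j hj)
  rw [if_pos (hA i (Finset.mem_biUnion.mpr ⟨j, hj, hi⟩))]

private theorem AR_vars {n m : ℕ} {ι : Type} (blk : Fin n → Fin m) (S : ι → Finset (Fin m))
    (C : ι → Set (Fin n → ZMod 2))
    (hC : ∀ j x y, (∀ i, blk i ∈ S j → x i = y i) → x ∈ C j → y ∈ C j)
    (o : Finset (Fin n) → ℕ) (ho : Function.Injective o) (J : Finset ι) (T : Finset (Fin n)) (r : Fn n)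
    (hr : r ∈ Submodule.span (ZMod 2) (mono '' {T' | ¬ Red o (H96RX.van (Sat C J)) T' ∧ o T' ≤ o T}))
    (hV : mono T - r ∈ H96RX.van (Sat C J)) :
    r ∈ Submodule.span (ZMod 2) (mono '' {T' | ¬ Red o (H96RX.van (Sat C J)) T' ∧ o T' ≤ o T ∧
      ∀ i ∈ T', i ∈ T ∨ blk i ∈ J.biUnion S}) := by
  set A : Finset (Fin n) := T ∪ Finset.univ.filter (fun i => blk i ∈ J.biUnion S) with hA
  have hAmem : ∀ i ∈ A, i ∈ T ∨ blk i ∈ J.biUnion S := by
    intro i hi
    rcases Finset.mem_union.mp hi with h | h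
    · exact Or.inl h
    · exact Or.inr (Finset.mem_filter.mp h).2
  have hA2 : ∀ i, blk i ∈ J.biUnion S → i ∈ A := fun i hi =>
    Finset.mem_union_right _ (Finset.mem_filter.mpr ⟨Finset.mem_univ i, hi⟩)
  have h1 : setz A r ∈ Submodule.span (ZMod 2) (mono '' {T' | ¬ Red o (H96RX.van (Sat C J)) T' ∧
      o T' ≤ o T ∧ ∀ i ∈ T', i ∈ T ∨ blk i ∈ J.biUnion S}) := by
    have hle : Submodule.span (ZMod 2) (mono '' {T' | ¬ Red o (H96RX.van (Sat C J)) T' ∧ o T' ≤ o T}) ≤
        Submodule.comap (setz A)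
          (Submodule.span (ZMod 2) (mono '' {T' | ¬ Red o (H96RX.van (Sat C J)) T' ∧ o T' ≤ o T ∧
            ∀ i ∈ T', i ∈ T ∨ blk i ∈ J.biUnion S})) := by
      rw [Submodule.span_le]
      rintro _ ⟨T', hT', rfl⟩
      show setz A (mono T') ∈
        Submodule.span (ZMod 2) (mono '' {T' | ¬ Red o (H96RX.van (Sat C J)) T' ∧ o T' ≤ o T ∧
            ∀ i ∈ T', i ∈ T ∨ blk i ∈ J.biUnion S})
      by_cases hs : T' ⊆ A
      · rw [setz_mono_of_subset A T' hs]
        exact Submodule.subset_span ⟨T', ⟨hT'.1, hT'.2, fun i hi => hAmem i (hs hi)⟩, rfl⟩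
      · rw [setz_mono_of_not_subset A T' hs]
        exact Submodule.zero_mem _
    exact hle hr
  have h2 : mono T - setz A r ∈ H96RX.van (Sat C J) := by
    have := AR_setz blk S C hC J A hA2 _ hV
    rwa [map_sub, setz_mono_of_subset A T Finset.subset_union_left] at this
  have h3 : r - setz A r ∈ H96RX.van (Sat C J) := by
    have := Submodule.sub_mem _ h2 hV
    rwa [sub_sub_sub_cancel_left] at this
  have h4 : r - setz A r ∈ Submodule.span (ZMod 2) (mono '' {T' | ¬ Red o (H96RX.van (Sat C J)) T'}) := by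
    refine Submodule.sub_mem _ (Submodule.span_mono ?_ hr) (Submodule.span_mono ?_ h1)
    · rintro _ ⟨T', hT', rfl⟩
      exact ⟨T', hT'.1, rfl⟩
    · rintro _ ⟨T', hT', rfl⟩
      exact ⟨T', hT'.1, rfl⟩
  have h5 := irr_unique o ho _ _ h3 h4
  rw [sub_eq_zero] at h5
  rw [h5]
  exact h1

private theorem AR_ind {n m : ℕ} (blk : Fin n → Fin m) (W : Finset (Fin m)) (B : Set (Fin n → ZMod 2))
    (hB : ∀ x y, (∀ i, blk i ∈ W → x i = y i) → x ∈ B → y ∈ B) :
    indic Bᶜ ∈ Submodule.span (ZMod 2) (mono '' {T' : Finset (Fin n) | ∀ i ∈ T', blk i ∈ W}) := by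
  set A : Finset (Fin n) := Finset.univ.filter (fun i => blk i ∈ W) with hA
  have h1 : setz A (indic Bᶜ) = indic Bᶜ := by
    funext x
    rw [setz_apply]
    have hag : ∀ i, blk i ∈ W → (fun i => if i ∈ A then x i else 0) i = x i := by
      intro i hi
      show (if i ∈ A then x i else 0) = x i
      rw [if_pos (Finset.mem_filter.mpr ⟨Finset.mem_univ i, hi⟩)]
    have hiff : (fun i => if i ∈ A then x i else 0) ∈ B ↔ x ∈ B :=
      ⟨hB _ _ hag, hB _ _ fun i hi => (hag i hi).symm⟩
    unfold indic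
    by_cases hx : x ∈ B
    · have e1 : (fun i => if i ∈ A then x i else 0) ∉ Bᶜ := fun h => h (hiff.mpr hx)
      have e2 : x ∉ Bᶜ := fun h => h hx
      rw [if_neg e1, if_neg e2]
    · have e1 : (fun i => if i ∈ A then x i else 0) ∈ Bᶜ := fun h => hx (hiff.mp h)
      have e2 : x ∈ Bᶜ := hx
      rw [if_pos e1, if_pos e2]
  have h2 : ∀ g : Fn n, setz A g ∈
      Submodule.span (ZMod 2) (mono '' {T' : Finset (Fin n) | ∀ i ∈ T', blk i ∈ W}) := by
    intro g
    have hle : Submodule.span (ZMod 2) (Set.range (mono : Finset (Fin n) → Fn n)) ≤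
        Submodule.comap (setz A)
          (Submodule.span (ZMod 2) (mono '' {T' : Finset (Fin n) | ∀ i ∈ T', blk i ∈ W})) := by
      rw [Submodule.span_le]
      rintro _ ⟨T', rfl⟩
      show setz A (mono T') ∈
        Submodule.span (ZMod 2) (mono '' {T' : Finset (Fin n) | ∀ i ∈ T', blk i ∈ W})
      by_cases hs : T' ⊆ A
      · rw [setz_mono_of_subset A T' hs]
        exact Submodule.subset_span ⟨T', fun i hi => (Finset.mem_filter.mp (hs hi)).2, rfl⟩
      · rw [setz_mono_of_not_subset A T' hs]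
        exact Submodule.zero_mem _
    exact hle (by rw [mono_top n]; trivial)
  rw [← h1]
  exact h2 _

theorem ar_operator {n m : ℕ} {ι : Type} [Fintype ι] (blk : Fin n → Fin m) (Lt : Finset (Fin n) → Prop)
    (hLt0 : Lt ∅) (hLt : ∀ R R' : Finset (Fin n), R ⊆ R' → Lt R' → Lt R)
    (S : ι → Finset (Fin m)) (C : ι → Set (Fin n → ZMod 2))
    (hC : ∀ j x y, (∀ i, blk i ∈ S j → x i = y i) → x ∈ C j → y ∈ C j) (hpriv : Priv blk Lt S C)
    {s D0 : ℕ} (hs : 1 ≤ s) (hS : ∀ j, (S j).card ≤ D0) (hE : Expd S s D0) :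
    ∃ K : Submodule (ZMod 2) (Fn n), (∀ j, indic (C j)ᶜ ∈ K) ∧
      (∀ g ∈ K, ∀ a, a + 1 ≤ D0 → g ∈ Mh blk Lt a → ∀ i, mulX i g ∈ K) ∧
      Disjoint (Submodule.span (ZMod 2)
        (mono '' {T | (heavy blk Lt T).card ≤ D0 ∧ Sup S s (heavy blk Lt T) = ∅})) K := by
  obtain ⟨o, ho⟩ := hord_exists blk Lt
  choose P hP0 hPirr hPsub hPmono using fun J : Finset ι => proj o ho.1 (H96RX.van (Sat C J))
  have hPv : ∀ (J : Finset ι) (T : Finset (Fin n)), P J (mono T) ∈
      Submodule.span (ZMod 2) (mono '' {T' | ¬ Red o (H96RX.van (Sat C J)) T' ∧ o T' ≤ o T ∧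
        ∀ i ∈ T', i ∈ T ∨ blk i ∈ J.biUnion S}) :=
    fun J T => AR_vars blk S C hC o ho.1 J T _ (hPmono J T) (hPsub J (mono T))
  have hcard : ∀ T T' : Finset (Fin n), o T' ≤ o T →
      (heavy blk Lt T').card ≤ (heavy blk Lt T).card := by
    intro T T' h
    by_contra hc
    have := ho.2 T' T (by omega)
    omega
  -- independence of the set of constraints
  have h1 : ∀ (T : Finset (Fin n)) (J : Finset ι), (heavy blk Lt T).card ≤ D0 →
      Sup S s (heavy blk Lt T) ⊆ J → J.card ≤ s →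
      P J (mono T) = P (Sup S s (heavy blk Lt T)) (mono T) := by
    intro T J hT hTJ hJ
    set c := Sup S s (heavy blk Lt T) with hc
    have h2 : P J (mono T - P c (mono T)) = 0 := hP0 J _ (AR_anti C hTJ (hPsub c (mono T)))
    rw [map_sub, sub_eq_zero] at h2
    rw [h2]
    have h3 : Set.EqOn (P J) (LinearMap.id (R := ZMod 2) (M := Fn n))
        (mono '' {T' | ¬ Red o (H96RX.van (Sat C c)) T' ∧ o T' ≤ o T ∧
          ∀ i ∈ T', i ∈ T ∨ blk i ∈ c.biUnion S}) := by
      rintro _ ⟨T', ⟨hirr, hoT, hsub⟩, rfl⟩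
      have hT' : (heavy blk Lt T').card ≤ D0 := (hcard T T' hoT).trans hT
      have hs' : Sup S s (heavy blk Lt T') ⊆ c := sup_sub hE hT hT' (heavy_sub hLt hsub)
      show P J (mono T') = mono T'
      refine hPirr J T' fun hred => hirr ?_
      have h4 := red_sup ho hC hpriv hE T' hT' J (hs'.trans hTJ) hJ hred
      exact (sup_le_sup_right (AR_anti C hs') _) h4
    exact LinearMap.eqOn_span h3 (hPv c T)
  -- the operator
  let b := Module.Basis.mk (mono_indep n) (mono_top n).ge
  let R : Fn n →ₗ[ZMod 2] Fn n :=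
    b.constr (ZMod 2) (fun T => if (heavy blk Lt T).card ≤ D0 then
      P (Sup S s (heavy blk Lt T)) (mono T) else 0)
  have hR : ∀ T : Finset (Fin n), (heavy blk Lt T).card ≤ D0 →
      R (mono T) = P (Sup S s (heavy blk Lt T)) (mono T) := by
    intro T hT
    have hb : b T = mono T := Module.Basis.mk_apply (mono_indep n) (mono_top n).ge T
    have h2 : R (b T) = if (heavy blk Lt T).card ≤ D0 then
      P (Sup S s (heavy blk Lt T)) (mono T) else 0 := b.constr_basis (ZMod 2) _ T
    rw [← hb, h2, if_pos hT, hb]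
  -- multiplication
  have hmul : ∀ (i : Fin n) (a : ℕ), a + 1 ≤ D0 → ∀ g ∈ Mh blk Lt a,
      R (LinearMap.mulLeft (ZMod 2) (mono {i}) g) = R (LinearMap.mulLeft (ZMod 2) (mono {i}) (R g)) := by
    intro i a ha g hg
    have h2 : Set.EqOn (R ∘ₗ LinearMap.mulLeft (ZMod 2) (mono {i}))
        (R ∘ₗ LinearMap.mulLeft (ZMod 2) (mono {i}) ∘ₗ R)
        (mono '' {T : Finset (Fin n) | (heavy blk Lt T).card ≤ a}) := by
      rintro _ ⟨T, hT, rfl⟩
      have hT1 : (heavy blk Lt T).card ≤ a := hT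
      have hTE' : (heavy blk Lt T).card ≤ D0 := by omega
      set U : Finset (Fin m) := insert (blk i) (heavy blk Lt T) with hU
      have hUc : U.card ≤ D0 := (Finset.card_insert_le _ _).trans (by omega)
      set J := Sup S s U with hJ
      have hJB : J.card ≤ s := by
        have h0 : 2 * J.card ≤ s := (sup_spec hE hUc).1
        omega
      have hins : ∀ T' : Finset (Fin n), (heavy blk Lt T').card ≤ a →
          (heavy blk Lt (insert i T')).card ≤ D0 := by
        intro T' hT'
        refine (Finset.card_le_card (heavy_insert hLt i T')).trans ?_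
        exact (Finset.card_insert_le _ _).trans (by omega)
      have hcT : Sup S s (heavy blk Lt T) ⊆ J :=
        sup_sub hE hUc hTE' ((Finset.subset_insert _ _).trans Finset.subset_union_left)
      have hcTi : Sup S s (heavy blk Lt (insert i T)) ⊆ J :=
        sup_sub hE hUc (hins T hT1) ((heavy_insert hLt i T).trans Finset.subset_union_left)
      show R (LinearMap.mulLeft (ZMod 2) (mono {i}) (mono T)) =
        R (LinearMap.mulLeft (ZMod 2) (mono {i}) (R (mono T)))
      have h3 : R (LinearMap.mulLeft (ZMod 2) (mono {i}) (mono T)) =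
          P J (LinearMap.mulLeft (ZMod 2) (mono {i}) (mono T)) := by
        rw [AR_mulL, hR _ (hins T hT1), h1 _ J (hins T hT1) hcTi hJB]
      have h4 : P J (LinearMap.mulLeft (ZMod 2) (mono {i}) (mono T)) =
          P J (LinearMap.mulLeft (ZMod 2) (mono {i}) (R (mono T))) := by
        rw [← sub_eq_zero, ← map_sub, ← map_sub, hR T hTE']
        exact hP0 J _ (AR_mulmem _ i _ (AR_anti C hcT (hPsub _ (mono T))))
      have h5 : Set.EqOn (P J ∘ₗ LinearMap.mulLeft (ZMod 2) (mono {i}))
          (R ∘ₗ LinearMap.mulLeft (ZMod 2) (mono {i}))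
          (mono '' {T' | ¬ Red o (H96RX.van (Sat C (Sup S s (heavy blk Lt T)))) T' ∧ o T' ≤ o T ∧
            ∀ i ∈ T', i ∈ T ∨ blk i ∈ (Sup S s (heavy blk Lt T)).biUnion S}) := by
        rintro _ ⟨T', ⟨hirr, hoT, hsub⟩, rfl⟩
        have hT' : (heavy blk Lt T').card ≤ a := (hcard T T' hoT).trans hT1
        have hs' : Sup S s (heavy blk Lt (insert i T')) ⊆ J := by
          refine sup_sub hE hUc (hins T' hT') ?_
          intro v hv
          rcases Finset.mem_insert.mp (heavy_insert hLt i T' hv) with rfl | hv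
          · exact Finset.mem_union_left _ (Finset.mem_insert_self _ _)
          · rcases Finset.mem_union.mp (heavy_sub hLt hsub hv) with h6 | h6
            · exact Finset.mem_union_left _ (Finset.mem_insert_of_mem h6)
            · exact Finset.mem_union_right _ (Finset.biUnion_subset_biUnion_of_subset_left S hcT h6)
        show P J (LinearMap.mulLeft (ZMod 2) (mono {i}) (mono T')) =
          R (LinearMap.mulLeft (ZMod 2) (mono {i}) (mono T'))
        rw [AR_mulL, hR _ (hins T' hT'), h1 _ J (hins T' hT') hs' hJB]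
      have h6 := LinearMap.eqOn_span h5 (hPv (Sup S s (heavy blk Lt T)) T)
      rw [← hR T hTE'] at h6
      rw [h3, h4]
      exact h6
    exact LinearMap.eqOn_span h2 hg
  have hheavy0 : heavy blk Lt ∅ = ∅ := by
    unfold heavy
    refine Finset.filter_false_of_mem fun v _ => ?_
    intro h
    apply h
    unfold prt
    rw [Finset.filter_empty]
    exact hLt0
  have hSj : ∀ (j : ι) (T' : Finset (Fin n)), (∀ i ∈ T', blk i ∈ S j) → heavy blk Lt T' ⊆ S j := by
    intro j T' h
    have h2 := heavy_sub (T := (∅ : Finset (Fin n))) (W := S j) hLt fun i hi => Or.inr (h i hi)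
    rwa [hheavy0, Finset.empty_union] at h2
  -- the constraints
  have hax : ∀ j, R (indic (C j)ᶜ) = 0 := by
    intro j
    set J := Sup S s (S j) with hJ
    have hJB : J.card ≤ s := by
      have h0 : 2 * J.card ≤ s := (sup_spec hE (hS j)).1
      omega
    have hjJ : j ∈ J := sup_mem hE hs j (hS j)
    have h5 : Set.EqOn R (P J) (mono '' {T' : Finset (Fin n) | ∀ i ∈ T', blk i ∈ S j}) := by
      rintro _ ⟨T', hT', rfl⟩
      have hsub : heavy blk Lt T' ⊆ S j := hSj j T' hT'
      have hT'E : (heavy blk Lt T').card ≤ D0 := (Finset.card_le_card hsub).trans (hS j)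
      rw [hR _ hT'E, h1 _ J hT'E (sup_sub hE (hS j) hT'E (hsub.trans Finset.subset_union_left)) hJB]
    rw [LinearMap.eqOn_span h5 (AR_ind blk (S j) (C j) (hC j))]
    refine hP0 J _ fun x hx => ?_
    have e1 : x ∉ (C j)ᶜ := fun h => h (hx j hjJ)
    unfold indic
    rw [if_neg e1]
  have hMmul : ∀ (i : Fin n) (a : ℕ), a + 1 ≤ D0 → ∀ g ∈ Mh blk Lt a,
      LinearMap.mulLeft (ZMod 2) (mono {i}) g ∈ Mh blk Lt D0 := by
    intro i a ha g hg
    have hle : Mh blk Lt a ≤ Submodule.comap (LinearMap.mulLeft (ZMod 2) (mono {i})) (Mh blk Lt D0) := by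
      unfold Mh
      rw [Submodule.span_le]
      rintro _ ⟨T', hT', rfl⟩
      have hT'' : (heavy blk Lt T').card ≤ a := hT'
      show LinearMap.mulLeft (ZMod 2) (mono {i}) (mono T') ∈
        Submodule.span (ZMod 2) (mono '' {T | (heavy blk Lt T).card ≤ D0})
      rw [AR_mulL]
      refine Submodule.subset_span ⟨_, ?_, rfl⟩
      show (heavy blk Lt (insert i T')).card ≤ D0
      refine (Finset.card_le_card (heavy_insert hLt i T')).trans ?_
      exact (Finset.card_insert_le _ _).trans (by omega)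
    exact hle hg
  refine ⟨Mh blk Lt D0 ⊓ LinearMap.ker R, ?_, ?_, ?_⟩
  · intro j
    refine Submodule.mem_inf.mpr ⟨?_, LinearMap.mem_ker.mpr (hax j)⟩
    refine Submodule.span_mono ?_ (AR_ind blk (S j) (C j) (hC j))
    rintro _ ⟨T', hT', rfl⟩
    exact ⟨T', (Finset.card_le_card (hSj j T' hT')).trans (hS j), rfl⟩
  · intro g hg a ha hga i
    have hgR : R g = 0 := LinearMap.mem_ker.mp (Submodule.mem_inf.mp hg).2
    rw [AR_mulX]
    refine Submodule.mem_inf.mpr ⟨hMmul i a ha g hga, LinearMap.mem_ker.mpr ?_⟩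
    rw [hmul i a ha g hga, hgR, map_zero, map_zero]
  -- the free monomials are fixed
  · rw [Submodule.disjoint_def]
    intro f hf hfK
    have h6 : Set.EqOn R (LinearMap.id (R := ZMod 2) (M := Fn n))
        (mono '' {T | (heavy blk Lt T).card ≤ D0 ∧ Sup S s (heavy blk Lt T) = ∅}) := by
      rintro _ ⟨T, ⟨hT, hG⟩, rfl⟩
      show R (mono T) = mono T
      rw [hR T hT, hG]
      have h7 : mono T - P ∅ (mono T) = 0 := by
        funext x
        exact hPsub ∅ (mono T) x fun j hj => absurd hj (Finset.notMem_empty j)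
      rw [sub_eq_zero] at h7
      exact h7.symm
    have h7 := LinearMap.eqOn_span h6 hf
    have h8 : R f = 0 := LinearMap.mem_ker.mp (Submodule.mem_inf.mp hfK).2
    rw [h8] at h7
    exact h7.symm

end H98DH
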