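import Pool.Agent.H98.DH.Seq

/-!
Upper bound (project DH; helper91): unsatisfiable families of formulas of depth `K + 1` have small refutations with `K + 2` levels.
-/

set_option autoImplicit false
open scoped Classical

namespace H98DH

open H96RE H91RE

/-- a finite set of gates with levels, closed downwards -/
def GOK {n : ℕ} (e D : ℕ) (W : Finset (ℕ × Fn n)) : Prop :=
  ∀ p ∈ W, 1 ≤ p.1 ∧ p.1 ≤ D ∧ ∃ H : Set (Fn n),
    (∀ h ∈ H, h ∈ Pol n e ⊔ Submodule.span (ZMod 2) {F | ∃ l, (l, F) ∈ W ∧ l < p.1}) ∧ ∀ x, p.2 x = 1 ↔ ∃ h ∈ H, h x = 1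

theorem span_le' {n e : ℕ} {W W' : Finset (ℕ × Fn n)} {a b : ℕ} (h : W ⊆ W') (hab : a ≤ b) :
    Pol n e ⊔ Submodule.span (ZMod 2) {F | ∃ l, (l, F) ∈ W ∧ l < a} ≤
      Pol n e ⊔ Submodule.span (ZMod 2) {F | ∃ l, (l, F) ∈ W' ∧ l < b} := by
  refine sup_le_sup le_rfl (Submodule.span_mono ?_)
  rintro F ⟨l, h1, h2⟩
  exact ⟨l, h h1, h2.trans_le hab⟩

theorem GOK.union {n e D : ℕ} {W W' : Finset (ℕ × Fn n)} (h : GOK e D W) (h' : GOK e D W') : GOK e D (W ∪ W') := by
  intro p hp
  rcases Finset.mem_union.mp hp with h1 | h1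
  · obtain ⟨h2, h3, H, hH1, hH2⟩ := h p h1
    exact ⟨h2, h3, H, fun k hk => span_le' Finset.subset_union_left le_rfl (hH1 k hk), hH2⟩
  · obtain ⟨h2, h3, H, hH1, hH2⟩ := h' p h1
    exact ⟨h2, h3, H, fun k hk => span_le' Finset.subset_union_right le_rfl (hH1 k hk), hH2⟩

theorem GOK.mono {n e D D' : ℕ} {W : Finset (ℕ × Fn n)} (hD : D ≤ D') (h : GOK e D W) : GOK e D' W := by
  intro p hp
  obtain ⟨h2, h3, h4⟩ := h p hp
  exact ⟨h2, h3.trans hD, h4⟩

theorem GOK.insert {n e D : ℕ} {W : Finset (ℕ × Fn n)} (h : GOK e D W) (l : ℕ) (F : Fn n) (hl : 1 ≤ l) (hlD : l ≤ D)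
    (H : Set (Fn n)) (hH1 : ∀ h ∈ H, h ∈ Pol n e ⊔ Submodule.span (ZMod 2) {F | ∃ l', (l', F) ∈ W ∧ l' < l})
    (hH2 : ∀ x, F x = 1 ↔ ∃ h ∈ H, h x = 1) : GOK e D (insert (l, F) W) := by
  intro p hp
  rcases Finset.mem_insert.mp hp with h1 | h1
  · subst h1
    exact ⟨hl, hlD, H, fun k hk => span_le' (Finset.subset_insert _ _) le_rfl (hH1 k hk), hH2⟩
  · obtain ⟨h2, h3, H', hH1', hH2'⟩ := h p h1
    exact ⟨h2, h3, H', fun k hk => span_le' (Finset.subset_insert _ _) le_rfl (hH1' k hk), hH2'⟩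

theorem indic_one {n : ℕ} (A : Set (Fin n → ZMod 2)) (x : Fin n → ZMod 2) : indic A x = 1 ↔ x ∈ A := by
  unfold indic
  by_cases h : x ∈ A
  · rw [if_pos h]
    exact ⟨fun _ => h, fun _ => rfl⟩
  · rw [if_neg h]
    exact ⟨fun h1 => absurd h1 zero_ne_one, fun h1 => absurd h1 h⟩

/-- the indicator function of the truth of a formula -/
noncomputable def tv {n : ℕ} (k : ℕ) (φ : Fm n k) : Fn n := indic {x | Holds k φ x}

theorem tv_one {n k : ℕ} (φ : Fm n k) (x : Fin n → ZMod 2) : tv k φ x = 1 ↔ Holds k φ x :=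
  indic_one _ x

theorem tv_zero {n k : ℕ} (φ : Fm n k) (x : Fin n → ZMod 2) : 1 + tv k φ x = 1 ↔ ¬ Holds k φ x := by
  rw [← tv_one]
  generalize tv k φ x = u
  revert u
  decide

theorem lit_pol {n : ℕ} (i : Fin n) (b : ZMod 2) : (tv 0 (show Fm n 0 from (i, b)) : Fn n) ∈ Pol n 1 := by
  have h1 : (tv 0 (show Fm n 0 from (i, b)) : Fn n) = mono {i} + fun _ => 1 + b := by
    funext x
    have h2 : tv 0 (show Fm n 0 from (i, b)) x = if x i = b then 1 else 0 := by
      by_cases h : x i = b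
      · rw [if_pos h]
        exact (tv_one _ x).mpr h
      · rw [if_neg h]
        have h3 : ¬ tv 0 (show Fm n 0 from (i, b)) x = 1 := fun h4 => h ((tv_one _ x).mp h4)
        revert h3
        generalize tv 0 (show Fm n 0 from (i, b)) x = u
        revert u
        decide
    rw [h2, Pi.add_apply]
    unfold mono
    rw [Finset.prod_singleton]
    clear h2
    generalize x i = u
    revert u b
    decide
  rw [h1]
  exact Submodule.add_mem _ (Submodule.subset_span ⟨{i}, by simp, rfl⟩) (const_mem _)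

/-- a formula without leaves is constant -/
theorem const_of_leaves {n : ℕ} : ∀ (k : ℕ) (φ : Fm n k), leaves k φ = 0 → ∀ x y, Holds k φ x ↔ Holds k φ y
  | 0, _, h, _, _ => absurd h one_ne_zero
  | k + 1, φ, h, x, y => by
    have h1 : ((show List (Fm n k) from φ).map (leaves k)).sum = 0 := h
    show (¬ ∀ ψ ∈ (show List (Fm n k) from φ), Holds k ψ x) ↔ (¬ ∀ ψ ∈ (show List (Fm n k) from φ), Holds k ψ y)
    rw [List.sum_eq_zero_iff] at h1
    have h2 : ∀ ψ ∈ (show List (Fm n k) from φ), leaves k ψ = 0 := fun ψ hψ => h1 _ (List.mem_map_of_mem hψ)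
    refine not_congr (forall₂_congr fun ψ hψ => const_of_leaves k ψ (h2 ψ hψ) x y)

/-- all formulas of a list of formulas of depth `k` can be computed -/
theorem gates_of {n : ℕ} : ∀ (k : ℕ) (φ : Fm n k), ∃ W : Finset (ℕ × Fn n), GOK 1 k W ∧ W.card ≤ k * leaves k φ ∧
    tv k φ ∈ Pol n 1 ⊔ Submodule.span (ZMod 2) {F | ∃ l, (l, F) ∈ W ∧ l < k + 1}
  | 0, φ => ⟨∅, fun p hp => absurd hp (Finset.notMem_empty p), by simp, Submodule.mem_sup_left (lit_pol φ.1 φ.2)⟩
  | k + 1, φ => by
    by_cases h0 : leaves (k + 1) φ = 0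
    · refine ⟨∅, fun p hp => absurd hp (Finset.notMem_empty p), by simp, Submodule.mem_sup_left ?_⟩
      have h1 : (tv (k + 1) φ : Fn n) = fun _ => tv (k + 1) φ 0 := by
        funext x
        have h2 := const_of_leaves (k + 1) φ h0 x 0
        have h3 := tv_one φ x
        have h4 := tv_one φ 0
        have h5 : tv (k + 1) φ x = 1 ↔ tv (k + 1) φ 0 = 1 := h3.trans (h2.trans h4.symm)
        revert h5
        generalize tv (k + 1) φ x = u
        generalize tv (k + 1) φ 0 = v
        revert u v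
        decide
      rw [h1]
      exact const_mem _
    · have hlist : ∀ l : List (Fm n k), ∃ W : Finset (ℕ × Fn n), GOK 1 k W ∧ W.card ≤ k * (l.map (leaves k)).sum ∧
          ∀ ψ ∈ l, tv k ψ ∈ Pol n 1 ⊔ Submodule.span (ZMod 2) {F | ∃ i, (i, F) ∈ W ∧ i < k + 1} := by
        intro l
        induction l with
        | nil => exact ⟨∅, fun p hp => absurd hp (Finset.notMem_empty p), by simp, fun ψ hψ => absurd hψ List.not_mem_nil⟩
        | cons ψ l ih =>
          obtain ⟨W, hW1, hW2, hW3⟩ := ih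
          obtain ⟨W', hW1', hW2', hW3'⟩ := gates_of k ψ
          refine ⟨W' ∪ W, hW1'.union hW1, ?_, ?_⟩
          · refine (Finset.card_union_le _ _).trans ?_
            rw [List.map_cons, List.sum_cons, Nat.mul_add]
            exact Nat.add_le_add hW2' hW2
          · intro χ hχ
            rcases List.mem_cons.mp hχ with rfl | hχ
            · exact span_le' Finset.subset_union_left le_rfl hW3'
            · exact span_le' Finset.subset_union_right le_rfl (hW3 χ hχ)
      obtain ⟨W, hW1, hW2, hW3⟩ := hlist (show List (Fm n k) from φ)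
      refine ⟨insert (k + 1, tv (k + 1) φ) W, ?_, ?_, ?_⟩
      · refine (hW1.mono (Nat.le_succ k)).insert (k + 1) _ (by omega) le_rfl
          {h | ∃ ψ ∈ (show List (Fm n k) from φ), h = fun x => 1 + tv k ψ x} ?_ ?_
        · rintro _ ⟨ψ, hψ, rfl⟩
          exact Submodule.add_mem _ (Submodule.mem_sup_left (const_mem 1)) (hW3 ψ hψ)
        · intro x
          rw [tv_one]
          show (¬ ∀ ψ ∈ (show List (Fm n k) from φ), Holds k ψ x) ↔ _
          constructor
          · intro h1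
            push Not at h1
            obtain ⟨ψ, hψ, h2⟩ := h1
            exact ⟨_, ⟨ψ, hψ, rfl⟩, (tv_zero ψ x).mpr h2⟩
          · rintro ⟨_, ⟨ψ, hψ, rfl⟩, h2⟩ h3
            exact (tv_zero ψ x).mp h2 (h3 ψ hψ)
      · refine (Finset.card_insert_le _ _).trans ?_
        have h1 : leaves (k + 1) φ = ((show List (Fm n k) from φ).map (leaves k)).sum := rfl
        rw [← h1] at hW2
        have h2 : (k + 1) * leaves (k + 1) φ = k * leaves (k + 1) φ + leaves (k + 1) φ := by ring
        omega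
      · refine Submodule.mem_sup_right (Submodule.subset_span ⟨k + 1, Finset.mem_insert_self _ _, by omega⟩)

/-- a closed set of gates gives a circuit -/
theorem circ_of {n e D : ℕ} {W : Finset (ℕ × Fn n)} (h : GOK e D W) :
    ∃ c : Circ n e D W.card, ∀ a, Pol n e ⊔ Submodule.span (ZMod 2) {F | ∃ l, (l, F) ∈ W ∧ l < a} ≤
      Par e c.G {g | g < W.card} := by
  let E := W.equivFin
  obtain ⟨v, hv⟩ : ∃ v : ℕ → ℕ × Fn n, ∀ g (hg : g < W.card), v g = (E.symm ⟨g, hg⟩ : ℕ × Fn n) :=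
    ⟨fun g => if hg : g < W.card then (E.symm ⟨g, hg⟩ : ℕ × Fn n) else (0, 0), fun g hg => by simp only [dif_pos hg]⟩
  have hvW : ∀ g, g < W.card → v g ∈ W := by
    intro g hg
    rw [hv g hg]
    exact (E.symm ⟨g, hg⟩).2
  have hex : ∀ p ∈ W, ∃ g, g < W.card ∧ v g = p := by
    intro p hp
    refine ⟨(E ⟨p, hp⟩ : ℕ), (E ⟨p, hp⟩).2, ?_⟩
    rw [hv _ (E ⟨p, hp⟩).2]
    show ((E.symm (E ⟨p, hp⟩)) : ℕ × Fn n) = p
    rw [Equiv.symm_apply_apply]
  let c : Circ n e D W.card :=
    { lev := fun g => (v g).1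
      G := fun g => (v g).2
      pos := fun g hg => (h _ (hvW g hg)).1
      le := fun g hg => (h _ (hvW g hg)).2.1
      or := fun g hg => by
        obtain ⟨H, hH1, hH2⟩ := (h _ (hvW g hg)).2.2
        refine ⟨H, fun k hk => ?_, hH2⟩
        refine (sup_le_sup le_rfl (Submodule.span_mono ?_) : Pol n e ⊔ _ ≤ _) (hH1 k hk)
        rintro F ⟨l, h1, h2⟩
        obtain ⟨g', hg', hvg⟩ := hex _ h1
        exact ⟨g', ⟨hg', by rw [hvg]; exact h2⟩, by show (v g').2 = F; rw [hvg]⟩ }
  refine ⟨c, fun a => ?_⟩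
  refine sup_le_sup le_rfl (Submodule.span_mono ?_)
  rintro F ⟨l, h1, -⟩
  obtain ⟨g', hg', hvg⟩ := hex _ h1
  exact ⟨g', hg', by show (v g').2 = F; rw [hvg]⟩

theorem upper {n K r N : ℕ} (Φ : Fin r → Fm n (K + 1)) (hN : ∀ j, leaves (K + 1) (Φ j) ≤ N)
    (hun : ∀ x, ∃ j, ¬ Holds (K + 1) (Φ j) x) :
    Refutes (fun j => {x | Holds (K + 1) (Φ j) x}) 1 (K + 2) 2 (r * ((K + 1) * N + 1)) := by
  -- all gates of the constraints
  choose W hW1 hW2 hW3 using fun j => gates_of (K + 1) (Φ j)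
  obtain ⟨W1, hW1d⟩ : ∃ W1 : Finset (ℕ × Fn n), W1 = Finset.univ.biUnion W := ⟨_, rfl⟩
  have hsubW : ∀ j, W j ⊆ W1 := fun j => by
    rw [hW1d]
    exact Finset.subset_biUnion_of_mem W (Finset.mem_univ j)
  have hok1 : GOK 1 (K + 1) W1 := by
    intro p hp
    rw [hW1d] at hp
    obtain ⟨j, -, hj⟩ := Finset.mem_biUnion.mp hp
    obtain ⟨h2, h3, H, hH1, hH2⟩ := hW1 j p hj
    exact ⟨h2, h3, H, fun k hk => span_le' (hsubW j) le_rfl (hH1 k hk), hH2⟩
  have hcard1 : W1.card ≤ r * ((K + 1) * N) := by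
    rw [hW1d]
    refine Finset.card_biUnion_le.trans ?_
    refine (Finset.sum_le_card_nsmul _ _ ((K + 1) * N) fun j _ => (hW2 j).trans (Nat.mul_le_mul_left _ (hN j))).trans ?_
    rw [Finset.card_univ, Fintype.card_fin, smul_eq_mul]
  -- conjunctions
  obtain ⟨A, hA⟩ : ∃ A : ℕ → Fn n, ∀ i x, A i x = 1 ↔ ∃ j : Fin r, (j : ℕ) ≤ i ∧ ¬ Holds (K + 1) (Φ j) x :=
    ⟨fun i => indic {x | ∃ j : Fin r, (j : ℕ) ≤ i ∧ ¬ Holds (K + 1) (Φ j) x}, fun i x => indic_one _ x⟩
  have hok2 : ∀ R : ℕ, GOK 1 (K + 2) (W1 ∪ (Finset.range R).image (fun i => (K + 2, A i))) := by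
    intro R
    induction R with
    | zero =>
      simp only [Finset.range_zero, Finset.image_empty, Finset.union_empty]
      exact hok1.mono (by omega)
    | succ R ih =>
      rw [Finset.range_add_one, Finset.image_insert, Finset.union_insert]
      refine ih.insert (K + 2) (A R) (by omega) le_rfl {h | ∃ j : Fin r, (j : ℕ) ≤ R ∧ h = fun x => 1 + tv (K + 1) (Φ j) x} ?_ ?_
      · rintro _ ⟨j, -, rfl⟩
        refine Submodule.add_mem _ (Submodule.mem_sup_left (const_mem 1)) ?_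
        exact span_le' ((hsubW j).trans Finset.subset_union_left) le_rfl (hW3 j)
      · intro x
        rw [hA]
        constructor
        · rintro ⟨j, hj, h1⟩
          exact ⟨_, ⟨j, hj, rfl⟩, (tv_zero (Φ j) x).mpr h1⟩
        · rintro ⟨_, ⟨j, hj, rfl⟩, h1⟩
          exact ⟨j, hj, (tv_zero (Φ j) x).mp h1⟩
  obtain ⟨c, hc⟩ := circ_of (hok2 r)
  have hcard2 : (W1 ∪ (Finset.range r).image (fun i => (K + 2, A i))).card ≤ r * ((K + 1) * N + 1) := by
    refine (Finset.card_union_le _ _).trans ?_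
    have h1 := (Finset.card_image_le (s := Finset.range r) (f := fun i => (K + 2, A i)))
    rw [Finset.card_range] at h1
    have h2 : r * ((K + 1) * N + 1) = r * ((K + 1) * N) + r := by ring
    omega
  refine Refutes.mono (by omega) hcard2 ?_
  have hr : 0 < r := by
    obtain ⟨j, -⟩ := hun 0
    exact lt_of_le_of_lt (Nat.zero_le _) j.2
  -- lines: `2 i` is the constraint `i`, `2 i + 1` the conjunction of the first `i + 1` constraints
  obtain ⟨F, hF0, hF1⟩ : ∃ F : ℕ → Fn n, (∀ i (hi : i < r), F (2 * i) = tv (K + 1) (Φ ⟨i, hi⟩)) ∧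
      ∀ i, F (2 * i + 1) = fun x => 1 + A i x := by
    refine ⟨fun k => if k % 2 = 0 then (if hk : k / 2 < r then tv (K + 1) (Φ ⟨k / 2, hk⟩) else 0) else
      fun x => 1 + A (k / 2) x, fun i hi => ?_, fun i => ?_⟩
    · have h1 : 2 * i % 2 = 0 := by omega
      have h2 : 2 * i / 2 = i := by omega
      simp only [h1, h2, if_true, dif_pos hi]
    · have h1 : (2 * i + 1) % 2 ≠ 0 := by omega
      have h2 : (2 * i + 1) / 2 = i := by omega
      simp only [if_neg h1, h2]
  have hA0 : ∀ i x, 1 + A i x = 1 ↔ ∀ j : Fin r, (j : ℕ) ≤ i → Holds (K + 1) (Φ j) x := by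
    intro i x
    have h1 := hA i x
    constructor
    · intro h2 j hj
      by_contra h3
      have h4 := h1.mpr ⟨j, hj, h3⟩
      rw [h4] at h2
      revert h2
      decide
    · intro h2
      have h3 : ¬ A i x = 1 := by
        intro h4
        obtain ⟨j, hj, h5⟩ := h1.mp h4
        exact h5 (h2 j hj)
      revert h3
      generalize A i x = u
      revert u
      decide
  refine ⟨c, 2 * r, F, ?_, ?_, 2 * (r - 1) + 1, by omega, ?_⟩
  · intro k hk
    rcases Nat.even_or_odd' k with ⟨i, rfl | rfl⟩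
    · rw [hF0 i (by omega)]
      exact hc (K + 2) (span_le' ((hsubW _).trans Finset.subset_union_left) le_rfl (hW3 _))
    · rw [hF1 i]
      refine Submodule.add_mem _ (Submodule.mem_sup_left (const_mem 1)) ?_
      refine hc (K + 3) (Submodule.mem_sup_right (Submodule.subset_span ⟨K + 2, ?_, by omega⟩))
      exact Finset.mem_union_right _ (Finset.mem_image.mpr ⟨i, Finset.mem_range.mpr (by omega), rfl⟩)
  · intro k hk
    rcases Nat.even_or_odd' k with ⟨i, rfl | rfl⟩
    · refine Or.inl ⟨⟨i, by omega⟩, fun x hx => ?_⟩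
      rw [hF0 i (by omega)]
      exact (tv_one _ x).mpr hx
    · rcases Nat.eq_zero_or_pos i with rfl | hi
      · refine Or.inr ⟨{0}, by rw [Finset.card_singleton]; omega, ?_, fun x hx => ?_⟩
        · intro l hl
          rw [Finset.mem_singleton] at hl
          omega
        · have h1 := hx 0 (Finset.mem_singleton_self _)
          have h2 := hF0 0 hr
          rw [Nat.mul_zero] at h2
          rw [h2, tv_one] at h1
          rw [hF1 0]
          refine (hA0 0 x).mpr fun j hj => ?_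
          have h3 : j = ⟨0, hr⟩ := Fin.ext (by simpa using hj)
          rw [h3]
          exact h1
      · refine Or.inr ⟨{2 * i, 2 * (i - 1) + 1}, Finset.card_le_two, ?_, fun x hx => ?_⟩
        · intro l hl
          rw [Finset.mem_insert, Finset.mem_singleton] at hl
          omega
        · have h1 := hx (2 * i) (by simp)
          have h2 := hx (2 * (i - 1) + 1) (by simp)
          rw [hF0 i (by omega), tv_one] at h1
          rw [hF1 (i - 1)] at h2
          have h3 := (hA0 (i - 1) x).mp h2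
          rw [hF1 i]
          refine (hA0 i x).mpr fun j hj => ?_
          rcases Nat.lt_or_ge (j : ℕ) i with h4 | h4
          · exact h3 j (by omega)
          · have h5 : j = ⟨i, by omega⟩ := Fin.ext (by simp; omega)
            rw [h5]
            exact h1
  · intro x
    rw [hF1]
    obtain ⟨j, hj⟩ := hun x
    have h1 := (hA (r - 1) x).mpr ⟨j, by have := j.2; omega, hj⟩
    show 1 + A (r - 1) x = 0
    rw [h1]
    decide

end H98DH
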