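import Pool.Agent.H98.DH.AP
import Pool.Agent.H96.RE.ThmC

/-!
ROW TC (the multiplier argument; about 170 lines; adapt Pool/Agent/H96/RE/ThmC.lean, whose private lemmas ThmC_union, ThmC_exists may be copied).  PROOF.  Unpack `href`: circuit `c`, lines `F i`, `i < N`.
Let `ap`, `Er` be as in `approx_gates`.  For `i < N` write `F i = p_i + ∑ g ∈ s_i, G g` (`par_rep`), `a i = 1 + p_i + ∑ g ∈ s_i, ap g ∈ Pol n (ee D)` (`ee_mono`, `Pol_mono`, `const_mem`), `Z i = {x | F i x = 0}`.  So for `x` outside all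
`Er g` (`g < S`): `indic (Z i) x = a i x` (values in `ZMod 2`).
Fix `D'`, `G' = {T | T.card = D' ∧ T ∈ Gs}`.  (1) If `∑_(g<S) rk D' (Er g) < card G'` there is `φ ≠ 0` in `span (mono '' G')` vanishing on all `Er g` (as in ThmC_exists: `finrank span = card G'`, `rk_add`, `rk_submod`).
(2) So `φ * indic (Z i) = φ * a i` for all `i < N`, and `φ ∈ M D1`.  Claim `φ * indic (Z i) ∈ K` by strong induction on `i`.
 If `C j ⊆ {F i = 1}`: `Z i ⊆ (C j)ᶜ`, `φ * indic (Z i) = (φ * a i) * indic (C j)ᶜ` with `φ * a i ∈ M (D1 + ee D)` and `D1 + ee D + t < D0`: `hK2`.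
 If `F i` follows from `Kf` (`Kf.card ≤ f`): `Z i ⊆ ⋃_(k∈Kf) Z k`; `φ * indic (Z i) = (φ * a i) * (1 - ∏_(k∈Kf) (1 - a k))` (pointwise where `φ x ≠ 0`).  By induction over finsets `K' ⊆ Kf`: `(φ * a i) * (1 - ∏_(k∈K') (1 - a k)) ∈ K`:
 `1 - ∏_(insert k K') = (1 - ∏_K') + a k * ∏_K' (1 - ·)` and `(φ * a i) * a k * ∏_K' = (φ * a k) * (a i * ∏_K' (1 - ·))`, `φ * a k = φ * indic (Z k) ∈ K` (k < i) and `∈ M (D1 + ee D)`, second factor in `Pol n (ee D + ee D * K'.card)`,
 `(D1 + ee D) + (ee D + ee D * K'.card) ≤ D1 + (f + 1) * ee D ≤ D0` because `K'.card + 1 ≤ f`: `hK`.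
(3) Last line: `Z i = univ`: `φ ∈ K` and `φ ∈ span (mono '' Gs)`: `φ = 0` (`hG2`), contradiction.
So `card G' ≤ ∑_(g<S) rk D' (Er g)`; multiply by `q^D'`, `pow_mul_rk_le` (`q^D' * rk D' X ≤ Om q X`), `approx_gates`.
`weight_bound`: sum over `D' ∈ range (n+1)` (`T.card ≤ n`; `Finset.sum_fiberwise`-like / `Finset.card_eq_sum_card_fiberwise`).
-/

set_option autoImplicit false
open scoped Classical

namespace H98DH

open H96RE H91RE

private theorem TC_zmod (a : ZMod 2) : a = 0 ∨ a = 1 := by
  revert a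
  decide

private theorem TC_union {n : ℕ} (D' : ℕ) (Er : ℕ → Set (Fin n → ZMod 2)) (N : ℕ) :
    H96RX.rk (Fin n → ZMod 2) D' {x | ∃ i < N, x ∈ Er i} ≤
      ∑ i ∈ Finset.range N, H96RX.rk (Fin n → ZMod 2) D' (Er i) := by
  induction N with
  | zero =>
    have h1 : {x : Fin n → ZMod 2 | ∃ i < 0, x ∈ Er i} = ∅ := by
      ext x
      simp
    rw [h1, H96RX.rk_empty]
    exact Nat.zero_le _
  | succ N ih =>
    have h1 : {x : Fin n → ZMod 2 | ∃ i < N + 1, x ∈ Er i} = {x | ∃ i < N, x ∈ Er i} ∪ Er N := by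
      ext x
      constructor
      · rintro ⟨i, hi, hx⟩
        rcases Nat.lt_succ_iff_lt_or_eq.1 hi with h | h
        · exact Or.inl ⟨i, h, hx⟩
        · rw [h] at hx
          exact Or.inr hx
      · rintro (⟨i, hi, hx⟩ | hx)
        · exact ⟨i, hi.trans (Nat.lt_succ_self N), hx⟩
        · exact ⟨N, Nat.lt_succ_self N, hx⟩
    rw [h1, Finset.sum_range_succ]
    have h2 := H96RX.rk_submod (V := Fin n → ZMod 2) D' {x | ∃ i < N, x ∈ Er i} (Er N)
    omega

private theorem TC_exists {n N D' : ℕ} (G' : Finset (Finset (Fin n))) (hG' : ∀ T ∈ G', T.card ≤ D')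
    (Er : ℕ → Set (Fin n → ZMod 2))
    (h : ∑ i ∈ Finset.range N, H96RX.rk (Fin n → ZMod 2) D' (Er i) < G'.card) :
    ∃ φ ∈ Submodule.span (ZMod 2) (mono '' (G' : Set (Finset (Fin n)))), φ ≠ 0 ∧
      ∀ i < N, ∀ x ∈ Er i, φ x = 0 := by
  obtain ⟨X, hX⟩ : ∃ X : Submodule (ZMod 2) ((Fin n → ZMod 2) → ZMod 2),
      X = Submodule.span (ZMod 2) (mono '' (G' : Set (Finset (Fin n)))) := ⟨_, rfl⟩
  have hfX : Module.finrank (ZMod 2) X = G'.card := by
    have h1 : LinearIndependent (ZMod 2) (fun T : G' => mono (T : Finset (Fin n))) :=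
      (mono_indep n).comp (fun T : G' => (T : Finset (Fin n))) Subtype.val_injective
    have h2 := finrank_span_eq_card h1
    have h3 : Set.range (fun T : G' => mono (T : Finset (Fin n))) = mono '' (G' : Set (Finset (Fin n))) := by
      ext g
      constructor
      · rintro ⟨T, rfl⟩
        exact ⟨T.1, T.2, rfl⟩
      · rintro ⟨T, hT, rfl⟩
        exact ⟨⟨T, hT⟩, rfl⟩
    rw [h3, Fintype.card_coe] at h2
    rw [hX]
    exact h2
  have hXR : X ≤ H96RX.RM (Fin n → ZMod 2) D' := by
    rw [← Pol_eq_RM, hX]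
    refine Submodule.span_le.2 ?_
    rintro _ ⟨T, hT, rfl⟩
    exact mono_mem (hG' T hT)
  obtain ⟨U, hU⟩ : ∃ U : Set (Fin n → ZMod 2), U = {x | ∃ i < N, x ∈ Er i} := ⟨_, rfl⟩
  have h2 := TC_union D' Er N
  rw [← hU] at h2
  have h3 := H96RX.rk_add (V := Fin n → ZMod 2) D' U
  have h4 := Submodule.finrank_sup_add_finrank_inf_eq X (H96RX.RM (Fin n → ZMod 2) D' ⊓ H96RX.van U)
  have h5 : Module.finrank (ZMod 2) ↥(X ⊔ (H96RX.RM (Fin n → ZMod 2) D' ⊓ H96RX.van U)) ≤
      Module.finrank (ZMod 2) (H96RX.RM (Fin n → ZMod 2) D') :=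
    Submodule.finrank_mono (sup_le hXR inf_le_left)
  have h6 : 0 < Module.finrank (ZMod 2) ↥(X ⊓ (H96RX.RM (Fin n → ZMod 2) D' ⊓ H96RX.van U)) := by
    omega
  have h7 : X ⊓ (H96RX.RM (Fin n → ZMod 2) D' ⊓ H96RX.van U) ≠ ⊥ := by
    intro h8
    rw [h8, finrank_bot] at h6
    exact lt_irrefl _ h6
  obtain ⟨φ, hφ, hφ0⟩ := Submodule.exists_mem_ne_zero_of_ne_bot h7
  refine ⟨φ, ?_, hφ0, fun i hi x hx => ?_⟩
  · rw [← hX]
    exact hφ.1
  · exact hφ.2.2 x (by rw [hU]; exact ⟨i, hi, hx⟩)

theorem gate_bound {n e D f S t D1 D0 : ℕ} {ι : Type} {C : ι → Set (Fin n → ZMod 2)}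
    (M : ℕ → Submodule (ZMod 2) (Fn n)) (K : Submodule (ZMod 2) (Fn n))
    (hMle : ∀ a b, a ≤ b → M a ≤ M b)
    (hM : ∀ a c, ∀ g ∈ M a, ∀ h ∈ Pol n c, g * h ∈ M (a + c))
    (hK : ∀ a c, a + c ≤ D0 → ∀ g ∈ K, g ∈ M a → ∀ h ∈ Pol n c, g * h ∈ K)
    (hK2 : ∀ j a, a + t < D0 → ∀ g ∈ M a, g * indic (C j)ᶜ ∈ K)
    (Gs : Set (Finset (Fin n))) (hG1 : ∀ T ∈ Gs, mono T ∈ M D1)
    (hG2 : Disjoint (Submodule.span (ZMod 2) (mono '' Gs)) K)
    {w ee : ℕ → ℕ} (hee : ee 0 = e) (hs : ∀ k < D, ee (k + 1) = ee k * w (k + 1)) (hw : ∀ k, 1 ≤ w k)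
    (hdeg : D1 + (f + 1) * ee D + t < D0) {q ε : ℝ} (hq0 : 0 < q) (hq1 : q < 1)
    (hε : ∀ k < D, (1 - q ^ (ee k) / 2) ^ (w (k + 1)) ≤ ε) (href : Refutes C e D f S) (D' : ℕ) :
    ((Finset.univ.filter (fun T : Finset (Fin n) => T.card = D' ∧ T ∈ Gs)).card : ℝ) * q ^ D' ≤
      S * (ε * (1 + q) ^ n) := by
  obtain ⟨c, N, F, hF, hline, hlast⟩ := href
  obtain ⟨ap, Er, hap, hEr⟩ := approx_gates c hee hs hw hq0.le hq1 hε
  have hch : ∀ i, ∃ a : Fn n, i < N →
      a ∈ Pol n (ee D) ∧ ∀ x, (∀ g < S, x ∉ Er g) → a x = 1 + F i x := by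
    intro i
    by_cases hi : i < N
    · obtain ⟨p, hp, s, hsI, hFi⟩ := par_rep (hF i hi)
      obtain ⟨c1, hc1, hc1x⟩ : ∃ c1 : Fn n, c1 ∈ Pol n (ee D) ∧ ∀ x, c1 x = 1 :=
        ⟨fun _ => 1, const_mem 1, fun _ => rfl⟩
      refine ⟨c1 + (p + ∑ g ∈ s, ap g), fun _ => ⟨?_, ?_⟩⟩
      · refine Submodule.add_mem _ hc1 (Submodule.add_mem _ ?_ (Submodule.sum_mem _ fun g hg => ?_))
        · refine Pol_mono ?_ hp
          rw [← hee]
          exact ee_mono hs hw (Nat.zero_le _) le_rfl
        · exact Pol_mono (ee_mono hs hw (c.le g (hsI g hg)) le_rfl) (hap g (hsI g hg)).1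
      · intro x hx
        rw [hFi]
        simp only [Pi.add_apply, Finset.sum_apply, hc1x]
        rw [Finset.sum_congr rfl fun g hg => (hEr x hx g (hsI g hg)).symm]
    · exact ⟨0, fun h => absurd h hi⟩
  choose a ha using hch
  obtain ⟨G', hG'⟩ : ∃ G' : Finset (Finset (Fin n)),
      G' = Finset.univ.filter (fun T : Finset (Fin n) => T.card = D' ∧ T ∈ Gs) := ⟨_, rfl⟩
  rw [← hG']
  have hG'm : ∀ T, T ∈ G' ↔ T.card = D' ∧ T ∈ Gs := by
    intro T
    rw [hG', Finset.mem_filter]
    exact ⟨fun h => h.2, fun h => ⟨Finset.mem_univ _, h⟩⟩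
  have claim : G'.card ≤ ∑ g ∈ Finset.range S, H96RX.rk (Fin n → ZMod 2) D' (Er g) := by
    by_contra hcon
    obtain ⟨φ, hφX, hφ0, hφE⟩ := TC_exists G' (fun T hT => ((hG'm T).1 hT).1.le) Er (not_le.1 hcon)
    apply hφ0
    have hφG : φ ∈ Submodule.span (ZMod 2) (mono '' Gs) := by
      refine (Submodule.span_mono (Set.image_mono ?_)) hφX
      intro T hT
      exact ((hG'm T).1 hT).2
    have hφM : φ ∈ M D1 := by
      refine (Submodule.span_le.2 ?_) hφG
      rintro _ ⟨T, hT, rfl⟩
      exact hG1 T hT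
    have hout : ∀ x, φ x ≠ 0 → ∀ g < S, x ∉ Er g := fun x hx g hg hxg => hx (hφE g hg x hxg)
    have hval : ∀ i < N, ∀ x, φ x ≠ 0 → a i x = 1 + F i x := fun i hi x hx =>
      (ha i hi).2 x (hout x hx)
    have hMa : ∀ i < N, φ * a i ∈ M (D1 + ee D) := fun i hi => hM _ _ φ hφM _ (ha i hi).1
    have hPC : ∀ i, i < N → φ * a i ∈ K := by
      intro i
      induction i using Nat.strong_induction_on with
      | _ i ih =>
        intro hi
        rcases hline i hi with ⟨j, hj⟩ | ⟨Kf, hKf, hKi, hcov⟩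
        · have h2 : φ * a i = (φ * a i) * indic (C j)ᶜ := by
            funext x
            by_cases hφx : φ x = 0
            · simp only [Pi.mul_apply, hφx, zero_mul]
            · simp only [Pi.mul_apply]
              rw [hval i hi x hφx]
              unfold indic
              by_cases hx : x ∈ C j
              · rw [if_neg (by simpa using hx), hj x hx]
                have h4 : (1 : ZMod 2) + 1 = 0 := by decide
                rw [h4, mul_zero, mul_zero]
              · rw [if_pos (by simpa using hx), mul_one]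
          rw [h2]
          have h5 : (f + 1) * ee D = f * ee D + ee D := by ring
          exact hK2 j (D1 + ee D) (by omega) _ (hMa i hi)
        · have hQ : ∀ K' : Finset ℕ, (∀ j ∈ K', j < i) →
              (∏ j ∈ K', (1 + a j)) ∈ Pol n (ee D * K'.card) := by
            intro K'
            induction K' using Finset.induction_on with
            | empty =>
              intro _
              rw [Finset.prod_empty]
              exact const_mem 1
            | insert j K' hjK ihK =>
              intro hlt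
              rw [Finset.prod_insert hjK, Finset.card_insert_of_notMem hjK, Nat.mul_succ,
                add_comm (ee D * K'.card) (ee D)]
              have hjN : j < N := (hlt j (Finset.mem_insert_self j K')).trans hi
              refine Pol_mul (Submodule.add_mem _ (const_mem 1) (ha j hjN).1) ?_
              exact ihK fun l hl => hlt l (Finset.mem_insert_of_mem hl)
          have hstep : ∀ K' : Finset ℕ, (∀ j ∈ K', j < i) → K'.card ≤ f →
              φ * a i * (1 + ∏ j ∈ K', (1 + a j)) ∈ K := by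
            intro K'
            induction K' using Finset.induction_on with
            | empty =>
              intro _ _
              have h3 : φ * a i * (1 + ∏ j ∈ (∅ : Finset ℕ), (1 + a j)) = 0 := by
                funext x
                have h4 : (1 : ZMod 2) + 1 = 0 := by decide
                rw [Finset.prod_empty]
                simp only [Pi.mul_apply, Pi.add_apply, Pi.one_apply, Pi.zero_apply, h4, mul_zero]
              rw [h3]
              exact Submodule.zero_mem _
            | insert j K' hjK ihK =>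
              intro hlt hcard
              rw [Finset.card_insert_of_notMem hjK] at hcard
              have hji : j < i := hlt j (Finset.mem_insert_self j K')
              have hjN : j < N := hji.trans hi
              have hlt' : ∀ l ∈ K', l < i := fun l hl => hlt l (Finset.mem_insert_of_mem hl)
              have h3 : φ * a i * (1 + ∏ l ∈ insert j K', (1 + a l)) =
                  φ * a i * (1 + ∏ l ∈ K', (1 + a l)) + φ * a j * (a i * ∏ l ∈ K', (1 + a l)) := by
                rw [Finset.prod_insert hjK]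
                ring
              rw [h3]
              refine Submodule.add_mem _ (ihK hlt' (by omega)) ?_
              refine hK (D1 + ee D) (ee D + ee D * K'.card) ?_ _ (ih j hji hjN) (hMa j hjN) _
                (Pol_mul (ha i hi).1 (hQ K' hlt'))
              have h4 : ee D * K'.card + ee D ≤ ee D * f := by
                rw [← Nat.mul_succ]
                exact Nat.mul_le_mul_left _ hcard
              have h5 : (f + 1) * ee D = ee D * f + ee D := by ring
              omega
          have h3 : φ * a i = φ * a i * (1 + ∏ j ∈ Kf, (1 + a j)) := by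
            funext x
            by_cases hφx : φ x = 0
            · simp only [Pi.mul_apply, hφx, zero_mul]
            · simp only [Pi.mul_apply, Pi.add_apply, Pi.one_apply, Finset.prod_apply]
              rw [hval i hi x hφx]
              have h6 : (1 : ZMod 2) + 1 = 0 := by decide
              by_cases hx : ∀ k ∈ Kf, F k x = 1
              · rw [hcov x hx, h6, mul_zero, zero_mul]
              · push Not at hx
                obtain ⟨j, hj, hxj⟩ := hx
                have hjN : j < N := (hKi j hj).trans hi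
                have h4 : (1 : ZMod 2) + a j x = 0 := by
                  rw [hval j hjN x hφx]
                  rcases TC_zmod (F j x) with h7 | h7
                  · rw [h7]
                    decide
                  · exact absurd h7 hxj
                rw [Finset.prod_eq_zero hj h4, add_zero, mul_one]
          rw [h3]
          exact hstep Kf hKi hKf
    obtain ⟨i, hi, hFi⟩ := hlast
    have h2 : φ * a i = φ := by
      funext x
      rw [Pi.mul_apply]
      by_cases hφx : φ x = 0
      · rw [hφx, zero_mul]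
      · rw [hval i hi x hφx, hFi x, add_zero, mul_one]
    have h3 : φ ∈ K := by
      rw [← h2]
      exact hPC i hi
    exact Submodule.disjoint_def.1 hG2 φ hφG h3
  have hsum : ((∑ g ∈ Finset.range S, H96RX.rk (Fin n → ZMod 2) D' (Er g) : ℕ) : ℝ) * q ^ D' ≤
      S * (ε * (1 + q) ^ n) := by
    rw [Nat.cast_sum, Finset.sum_mul]
    calc _ ≤ ∑ _g ∈ Finset.range S, (ε * (1 + q) ^ n) := by
          refine Finset.sum_le_sum fun g hg => ?_
          have hgS := Finset.mem_range.1 hg
          have h2 := H96RX.pow_mul_rk_le (V := Fin n → ZMod 2) hq0.le hq1 D' (Er g)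
          rw [mul_comm]
          exact h2.trans (hap g hgS).2
      _ = S * (ε * (1 + q) ^ n) := by
          rw [Finset.sum_const, Finset.card_range, nsmul_eq_mul]
  refine le_trans ?_ hsum
  exact mul_le_mul_of_nonneg_right (by exact_mod_cast claim) (pow_nonneg hq0.le _)

theorem weight_bound {n : ℕ} {q A : ℝ} (Gs : Set (Finset (Fin n)))
    (h : ∀ D' : ℕ, ((Finset.univ.filter (fun T : Finset (Fin n) => T.card = D' ∧ T ∈ Gs)).card : ℝ) * q ^ D' ≤ A) :
    ∑ T ∈ Finset.univ.filter (fun T : Finset (Fin n) => T ∈ Gs), q ^ T.card ≤ (n + 1) * A := by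
  have h1 : ∑ T ∈ Finset.univ.filter (fun T : Finset (Fin n) => T ∈ Gs), q ^ T.card =
      ∑ D' ∈ Finset.range (n + 1), ((Finset.univ.filter
        (fun T : Finset (Fin n) => T.card = D' ∧ T ∈ Gs)).card : ℝ) * q ^ D' := by
    rw [← Finset.sum_fiberwise_of_maps_to (s := Finset.univ.filter (fun T : Finset (Fin n) => T ∈ Gs))
      (t := Finset.range (n + 1)) (g := fun T => T.card) (by
        intro T _
        rw [Finset.mem_range]
        have h2 := Finset.card_le_univ T
        rw [Fintype.card_fin] at h2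
        omega)]
    refine Finset.sum_congr rfl fun D' _ => ?_
    have h3 : (Finset.univ.filter (fun T : Finset (Fin n) => T.card = D' ∧ T ∈ Gs)) =
        (Finset.univ.filter (fun T : Finset (Fin n) => T ∈ Gs)).filter (fun T => T.card = D') := by
      ext T
      simp only [Finset.mem_filter, Finset.mem_univ, true_and]
      exact and_comm
    rw [h3, ← nsmul_eq_mul, ← Finset.sum_const]
    refine Finset.sum_congr rfl fun T hT => ?_
    rw [(Finset.mem_filter.1 hT).2]
  rw [h1]
  calc _ ≤ ∑ _D' ∈ Finset.range (n + 1), A := Finset.sum_le_sum fun D' _ => h D'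
    _ = (n + 1) * A := by
      rw [Finset.sum_const, Finset.card_range, nsmul_eq_mul]
      push_cast
      ring

end H98DH
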