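import Pool.Agent.H98.DH.AR
import Pool.Agent.H98.DH.MU
import Pool.Agent.H98.DH.TC

/-!
ROW DET (deterministic bound; about 60 lines).  PROOF.  `K` from `ar_operator` (`hS : (S j).card ≤ D0` from `hSt` and `hdeg`), `M = Mh blk Lt`, `gate_bound` with
`hMle = Mh_le`, `hM = Mh_mul`, `hK = K_mul`, `hK2`: from `K_ind` (`a + (S j).card ≤ a + t < D0`), `Gs = {T | (heavy T).card ≤ D1 ∧ ∀ J nonempty, J.card ≤ s → J.card < (J.biUnion S \ heavy T).card}`:
`hG1` by definition of `Mh`; `hG2`: `Gs ⊆ {T | (heavy T).card ≤ D0 ∧ Sup S s (heavy T) = ∅}` (`sup_empty`), `Disjoint.mono_left (Submodule.span_mono ..)`.  Then `weight_bound`.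
-/

set_option autoImplicit false
open scoped Classical

namespace H98DH

open H96RE H91RE

theorem det_bound {n m e D f Sz t s D1 D0 : ℕ} {ι : Type} [Fintype ι] (blk : Fin n → Fin m) (Lt : Finset (Fin n) → Prop)
    (hLt0 : Lt ∅) (hLt : ∀ R R' : Finset (Fin n), R ⊆ R' → Lt R' → Lt R)
    (S : ι → Finset (Fin m)) (C : ι → Set (Fin n → ZMod 2))
    (hC : ∀ j x y, (∀ i, blk i ∈ S j → x i = y i) → x ∈ C j → y ∈ C j) (hpriv : Priv blk Lt S C)
    (hs : 1 ≤ s) (hSt : ∀ j, (S j).card ≤ t) (hE : Expd S s D0)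
    {w ee : ℕ → ℕ} (hee : ee 0 = e) (hs' : ∀ k < D, ee (k + 1) = ee k * w (k + 1)) (hw : ∀ k, 1 ≤ w k)
    (hdeg : D1 + (f + 1) * ee D + t < D0) {q ε : ℝ} (hq0 : 0 < q) (hq1 : q < 1)
    (hε : ∀ k < D, (1 - q ^ (ee k) / 2) ^ (w (k + 1)) ≤ ε) (href : Refutes C e D f Sz) :
    ∑ T ∈ Finset.univ.filter (fun T : Finset (Fin n) => (heavy blk Lt T).card ≤ D1 ∧
      ∀ J : Finset ι, J.Nonempty → J.card ≤ s → J.card < (J.biUnion S \ heavy blk Lt T).card), q ^ T.card ≤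
      (n + 1) * (Sz * (ε * (1 + q) ^ n)) := by
  have hSD : ∀ j, (S j).card ≤ D0 := fun j => (hSt j).trans (by omega)
  obtain ⟨K, hK1, hK2, hK3⟩ := ar_operator blk Lt hLt0 hLt S C hC hpriv hs hSD hE
  set Gs : Set (Finset (Fin n)) := {T | (heavy blk Lt T).card ≤ D1 ∧
    ∀ J : Finset ι, J.Nonempty → J.card ≤ s → J.card < (J.biUnion S \ heavy blk Lt T).card} with hGs
  have hG1 : ∀ T ∈ Gs, mono T ∈ Mh blk Lt D1 := fun T hT => Submodule.subset_span ⟨T, hT.1, rfl⟩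
  have hsub : Gs ⊆ {T | (heavy blk Lt T).card ≤ D0 ∧ Sup S s (heavy blk Lt T) = ∅} := fun T hT =>
    ⟨hT.1.trans (by omega), sup_empty hT.2⟩
  have hG2 : Disjoint (Submodule.span (ZMod 2) (mono '' Gs)) K :=
    hK3.mono_left (Submodule.span_mono (Set.image_mono hsub))
  refine le_trans (le_of_eq (Finset.sum_congr ?_ fun _ _ => rfl)) (weight_bound Gs fun D' =>
    gate_bound (t := t) (D1 := D1) (D0 := D0) (Mh blk Lt) K
    (fun a b hab => Mh_le hab) (fun a c g hg h hh => Mh_mul hLt hg hh)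
    (fun a c hac g hg hg' h hh => K_mul hLt hK2 hac hg hg' hh)
    (fun j a ha g hg => K_ind hLt hK2 hC (hK1 j) (lt_of_le_of_lt (Nat.add_le_add_left (hSt j) a) ha) hg)
    Gs hG1 hG2 hee hs' hw hdeg hq0 hq1 hε href D')
  ext T
  constructor
  · intro h
    exact (@Finset.mem_filter _ _ (_) _ _).2 ⟨Finset.mem_univ _, ((@Finset.mem_filter _ _ (_) _ _).1 h).2⟩
  · intro h
    exact (@Finset.mem_filter _ _ (_) _ _).2 ⟨Finset.mem_univ _, ((@Finset.mem_filter _ _ (_) _ _).1 h).2⟩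

end H98DH
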