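import Pool.Agent.H98.DH.RD

/-!
ROW RE (numbers for the expansion; about 120 lines, pure real analysis).  See the header of RD, `num_E`:
`D0 = ⌊(1-1.4η) m⌋₊`; for `s < 2l`, `l ≤ s`: `D0 + l ≤ (1 - 1.35η) m`, `η m < 40 l` (`η m < 20 (s+1) ≤ 40 l`); `y = m - (D0 + l)` satisfies `1.35 η m ≤ y ≤ 1.4 η m + 1 ≤ 57 l`;
`m.choose (D0 + l) = m.choose y ≤ m^y / y! ≤ (e m / y)^y ≤ (e/η)^y ≤ exp(57 l (1 + log (1/η))) ≤ exp(57 l Λ/640)` (`Nat.choose_le_pow_div`, `y^y / y! ≤ exp y`: `Real.pow_div_factorial_le_exp`);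
the `l`-th term is at most `exp(l (Λ + log 2 + 1.05 η t + 0.09 Λ - 1.35 η t)) ≤ exp(l(1.09 Λ + 1 - 1.5 Λ)) ≤ (1/16)^l` (`num_r`, `5Λ ≤ η t`), geometric sum.
`num_D`: `D0 + s ≤ (1 - 1.35η) m ≤ m`; `D0 > (1-1.4η)m - 1`, `D1 ≤ (1-1.8η) m`, so `D0 - D1 > 0.4 η m - 1`; `t ≤ 5Λ/η + 1`.
-/

set_option autoImplicit false

namespace H98DH

private theorem RE_choose {m a y l : ℕ} {η : ℝ} (h0 : 0 < η) (hη1 : η ≤ 1) (hm0 : 0 < (m : ℝ))
    (ha : a + y = m) (hy : η * m ≤ y) (hyl : (y : ℝ) ≤ 57 * l) :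
    (m.choose a : ℝ) ≤ Real.exp (57 * l * (1 + Real.log (1 / η))) := by
  have hlog : 0 ≤ Real.log (1 / η) := Real.log_nonneg (by rw [le_div_iff₀ h0]; linarith)
  have hy0 : (0 : ℝ) < y := lt_of_lt_of_le (mul_pos h0 hm0) hy
  have e1 : m.choose a = m.choose y := by
    rw [← ha]
    exact Nat.choose_symm_add
  rw [e1]
  have h1 : (m.choose y : ℝ) ≤ (m : ℝ) ^ y / (y.factorial : ℝ) := Nat.choose_le_pow_div y m
  have h2 : (y : ℝ) ^ y / (y.factorial : ℝ) ≤ Real.exp y :=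
    Real.pow_div_factorial_le_exp (y : ℝ) hy0.le y
  have h3 : (m : ℝ) ≤ (1 / η) * y := by
    rw [one_div, inv_mul_eq_div, le_div_iff₀ h0]
    linarith
  have h4 : (m : ℝ) ^ y ≤ (1 / η) ^ y * (y : ℝ) ^ y := by
    rw [← mul_pow]
    exact pow_le_pow_left₀ hm0.le h3 y
  have hf : (0 : ℝ) < (y.factorial : ℝ) := by exact_mod_cast Nat.factorial_pos y
  have hη0 : (0 : ℝ) < 1 / η := by positivity
  calc (m.choose y : ℝ) ≤ (m : ℝ) ^ y / (y.factorial : ℝ) := h1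
    _ ≤ (1 / η) ^ y * (y : ℝ) ^ y / (y.factorial : ℝ) := div_le_div_of_nonneg_right h4 hf.le
    _ = (1 / η) ^ y * ((y : ℝ) ^ y / (y.factorial : ℝ)) := by rw [mul_div_assoc]
    _ ≤ (1 / η) ^ y * Real.exp y := mul_le_mul_of_nonneg_left h2 (pow_nonneg hη0.le _)
    _ = Real.exp (y * (1 + Real.log (1 / η))) := by
      have h5 : (1 / η) ^ y = Real.exp (y * Real.log (1 / η)) := by
        rw [Real.exp_nat_mul, Real.exp_log hη0]
      rw [h5, ← Real.exp_add]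
      congr 1
      ring
    _ ≤ Real.exp (57 * l * (1 + Real.log (1 / η))) := by
      apply Real.exp_le_exp.mpr
      exact mul_le_mul_of_nonneg_right hyl (by linarith)

private theorem RE_geom (s : ℕ) (f : ℕ → ℝ) (hf : ∀ l, s < 2 * l → l ≤ s → f l ≤ (1 / 16) ^ l) :
    ∑ l ∈ (Finset.range (s + 1)).filter (fun l => s < 2 * l), f l ≤ 1 / 8 := by
  have h1 : ∑ l ∈ (Finset.range (s + 1)).filter (fun l => s < 2 * l), f l ≤
      ∑ l ∈ (Finset.range (s + 1)).filter (fun l => s < 2 * l), (1 / 16 : ℝ) ^ l := by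
    refine Finset.sum_le_sum fun l hl => ?_
    rw [Finset.mem_filter, Finset.mem_range] at hl
    exact hf l hl.2 (by omega)
  have h2 : ∑ l ∈ (Finset.range (s + 1)).filter (fun l => s < 2 * l), (1 / 16 : ℝ) ^ l ≤
      ∑ l ∈ (Finset.range (s + 1)).erase 0, (1 / 16 : ℝ) ^ l := by
    refine Finset.sum_le_sum_of_subset_of_nonneg ?_ fun l _ _ => by positivity
    intro l hl
    rw [Finset.mem_filter] at hl
    rw [Finset.mem_erase]
    exact ⟨by omega, hl.1⟩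
  have h3 := Finset.add_sum_erase (Finset.range (s + 1)) (fun l => (1 / 16 : ℝ) ^ l)
    (Finset.mem_range.mpr (Nat.succ_pos s))
  have h4 : ∑ l ∈ Finset.range (s + 1), (1 / 16 : ℝ) ^ l ≤ 16 / 15 := by
    rw [geom_sum_eq (by norm_num)]
    have h5 : (0 : ℝ) ≤ (1 / 16) ^ (s + 1) := by positivity
    rw [div_le_iff_of_neg (by norm_num)]
    linarith
  rw [pow_zero] at h3
  linarith

theorem num_E {η X : ℝ} {m t r s D0 : ℕ} (h0 : 0 < η) (h1 : η ≤ 1 / 20)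
    (hX : 640 * (1 + Real.log (1 / η)) ≤ Real.log X) (hm : (m : ℝ) ≤ X)
    (hηm : 1000 ≤ η * m) (ht : t = ⌈5 * Real.log X / η⌉₊) (hr : r = ⌈X / (1 - η) ^ t⌉₊)
    (hs : s = ⌊η * m / 20⌋₊) (hD0 : D0 = ⌊(1 - 7 / 5 * η) * m⌋₊) :
    ∑ l ∈ (Finset.range (s + 1)).filter (fun l => s < 2 * l),
        (r : ℝ) ^ l * (m.choose (D0 + l) : ℝ) * (((D0 + l : ℕ) : ℝ) / m) ^ (t * l) ≤ 1 / 8 := by
  have hηm0 : 0 < η * m := by linarith
  have hm0 : (0 : ℝ) < m := (mul_pos_iff_of_pos_left h0).mp hηm0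
  have hX0 : 0 < X := lt_of_lt_of_le hm0 hm
  have hlog : 0 ≤ Real.log (1 / η) := Real.log_nonneg (by rw [le_div_iff₀ h0]; linarith)
  have hL : 640 ≤ Real.log X := by linarith
  obtain ⟨hr1, -⟩ := num_r hX0 h0 h1 hL ht hr
  have ht5 : 5 * Real.log X ≤ t * η := by
    have h2 := Nat.le_ceil (5 * Real.log X / η)
    rw [← ht, div_le_iff₀ h0] at h2
    exact h2
  have hD : (D0 : ℝ) ≤ (1 - 7 / 5 * η) * m ∧ (1 - 7 / 5 * η) * m < D0 + 1 := by
    have h2 : 0 ≤ (1 - 7 / 5 * η) * m := mul_nonneg (by linarith) hm0.le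
    rw [hD0]
    exact ⟨Nat.floor_le h2, Nat.lt_floor_add_one _⟩
  have hS : (s : ℝ) ≤ η * m / 20 ∧ η * m / 20 < s + 1 := by
    rw [hs]
    exact ⟨Nat.floor_le (by positivity), Nat.lt_floor_add_one _⟩
  refine RE_geom s _ fun l hl1 hl2 => ?_
  have hl1' : (s : ℝ) + 1 ≤ 2 * l := by exact_mod_cast hl1
  have hl2' : (l : ℝ) ≤ s := by exact_mod_cast hl2
  have hl0 : (0 : ℝ) ≤ l := Nat.cast_nonneg l
  have hcast : ((D0 + l : ℕ) : ℝ) = D0 + l := by push_cast; ring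
  have hle : ((D0 + l : ℕ) : ℝ) ≤ (1 - 27 / 20 * η) * m := by
    rw [hcast]
    linarith [hD.1, hS.1]
  have hle2 : D0 + l ≤ m := by
    have : ((D0 + l : ℕ) : ℝ) ≤ m := by
      refine hle.trans ?_
      have : 0 ≤ 27 / 20 * η * m := by positivity
      linarith
    exact_mod_cast this
  obtain ⟨y, hy⟩ := Nat.exists_eq_add_of_le hle2
  have hy' : (m : ℝ) = D0 + l + y := by
    have : (m : ℝ) = ((D0 + l + y : ℕ) : ℝ) := by exact_mod_cast hy
    rw [this]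
    push_cast
    ring
  have hc := RE_choose (l := l) h0 (by linarith) hm0 hy.symm (by
      rw [hcast] at hle
      linarith) (by linarith [hD.2, hS.2])
  have hq0 : 0 ≤ ((D0 + l : ℕ) : ℝ) / m := by positivity
  have hq : ((D0 + l : ℕ) : ℝ) / m ≤ Real.exp (-(27 / 20 * η)) := by
    rw [div_le_iff₀ hm0]
    refine hle.trans (mul_le_mul_of_nonneg_right ?_ hm0.le)
    have := Real.add_one_le_exp (-(27 / 20 * η))
    linarith
  have hq2 : (((D0 + l : ℕ) : ℝ) / m) ^ (t * l) ≤ Real.exp (-(27 / 20 * η) * (t * l)) := by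
    refine (pow_le_pow_left₀ hq0 hq _).trans (le_of_eq ?_)
    rw [← Real.exp_nat_mul]
    congr 1
    push_cast
    ring
  have hr2 : (r : ℝ) ^ l ≤ Real.exp (l * (Real.log 2 + Real.log X + t * (η + η ^ 2))) := by
    have h3 : 2 * X * Real.exp (t * (η + η ^ 2)) =
        Real.exp (Real.log 2 + Real.log X + t * (η + η ^ 2)) := by
      rw [Real.exp_add, Real.exp_add, Real.exp_log (by norm_num : (0 : ℝ) < 2), Real.exp_log hX0]
    rw [h3] at hr1
    rw [Real.exp_nat_mul]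
    exact pow_le_pow_left₀ (Nat.cast_nonneg _) hr1 l
  have e16 : Real.exp (-(4 * Real.log 2)) = 1 / 16 := by
    have h3 : 4 * Real.log 2 = Real.log (2 ^ 4) := by
      rw [Real.log_pow]
      norm_num
    rw [Real.exp_neg, h3, Real.exp_log (by norm_num)]
    norm_num
  have hl2g : Real.log 2 < 0.7 := by
    have := Real.log_two_lt_d9
    linarith
  calc (r : ℝ) ^ l * (m.choose (D0 + l) : ℝ) * (((D0 + l : ℕ) : ℝ) / m) ^ (t * l)
      ≤ Real.exp (l * (Real.log 2 + Real.log X + t * (η + η ^ 2))) *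
          Real.exp (57 * l * (1 + Real.log (1 / η))) * Real.exp (-(27 / 20 * η) * (t * l)) := by
        refine mul_le_mul (mul_le_mul hr2 hc (Nat.cast_nonneg _) (Real.exp_pos _).le) hq2
          (pow_nonneg hq0 _) (by positivity)
    _ = Real.exp (l * (Real.log 2 + Real.log X + t * (η + η ^ 2) +
          57 * (1 + Real.log (1 / η)) - 27 / 20 * (t * η))) := by
        rw [← Real.exp_add, ← Real.exp_add]
        congr 1
        ring
    _ ≤ Real.exp (l * (-(4 * Real.log 2))) := by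
        apply Real.exp_le_exp.mpr
        refine mul_le_mul_of_nonneg_left ?_ hl0
        have h4 : (t : ℝ) * (η + η ^ 2) ≤ 21 / 20 * (t * η) := by
          have h5 : η ^ 2 ≤ 1 / 20 * η := by nlinarith
          have h6 : (t : ℝ) * η ^ 2 ≤ t * (1 / 20 * η) :=
            mul_le_mul_of_nonneg_left h5 (Nat.cast_nonneg _)
          linarith
        linarith
    _ = (1 / 16) ^ l := by rw [Real.exp_nat_mul, e16]

theorem num_D {η : ℝ} {m s D0 D1 : ℕ} (h0 : 0 < η) (h1 : η ≤ 1 / 20) (hs : s = ⌊η * m / 20⌋₊)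
    (hD0 : D0 = ⌊(1 - 7 / 5 * η) * m⌋₊) (hD1 : D1 = ⌊(1 - 9 / 5 * η) * m⌋₊) :
    D0 + s ≤ m ∧ (D1 : ℝ) + (2 / 5 * η * m - 1) < D0 := by
  have hm0 : (0 : ℝ) ≤ m := Nat.cast_nonneg m
  have h2 : (D0 : ℝ) ≤ (1 - 7 / 5 * η) * m := by
    rw [hD0]
    exact Nat.floor_le (mul_nonneg (by linarith) hm0)
  have h3 : (1 - 7 / 5 * η) * m < (D0 : ℝ) + 1 := by
    rw [hD0]
    exact Nat.lt_floor_add_one _
  have h4 : (s : ℝ) ≤ η * m / 20 := by
    rw [hs]
    exact Nat.floor_le (by positivity)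
  have h5 : (D1 : ℝ) ≤ (1 - 9 / 5 * η) * m := by
    rw [hD1]
    exact Nat.floor_le (mul_nonneg (by linarith) hm0)
  have h6 : 0 ≤ η * m := mul_nonneg h0.le hm0
  constructor
  · have h7 : ((D0 + s : ℕ) : ℝ) ≤ m := by
      push_cast
      linarith
    exact_mod_cast h7
  · linarith

end H98DH
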