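import Pool.Agent.H98.DH.RC
import Pool.Agent.H98.DH.RE
import Pool.Agent.H98.DH.DET

/-!
Bridge: good pair + numbers ⟹ a system of constraints, hard for all parameters of the refutations (helper98).
-/

set_option autoImplicit false
open scoped Classical

namespace H98DH

open H96RE H91RE

theorem card_SB {r t m B : ℕ} (ω : Sys r t m B) (j : Fin r) : (SB ω j).card ≤ t := by
  unfold SB
  exact Finset.card_image_le.trans (by simp)

/-- A good pair and numbers give a system which is hard for all parameters of the refutations at once. -/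
theorem block_bound {B m t r : ℕ} {A : Set (Fin B → ZMod 2)} {L : Set (Finset (Fin B))} (hG : Good A L) {q X : ℝ}
    (hq0 : 0 < q) (hq1 : q < 1) (hη0 : 0 < wt (1 / 2) L) (hη1 : wt (1 / 2) L ≤ 1 / 20)
    (h2 : 2 * wt (1 / 2) L ≤ wt (q / (1 + q)) L)
    (hX : 640 * (1 + Real.log (1 / wt (1 / 2) L)) ≤ Real.log X) (hn : ((m * B : ℕ) : ℝ) ≤ X) (hm : (m : ℝ) ≤ X)
    (hηm : 1000 ≤ wt (1 / 2) L * m) (ht : t = ⌈5 * Real.log X / wt (1 / 2) L⌉₊)
    (hr : r = ⌈X / (1 - wt (1 / 2) L) ^ t⌉₊) :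
    ∃ ω : Sys r t m B, (∀ x, ∃ j, x ∉ CB A ω j) ∧
      ∀ (e D f Sz : ℕ) (w ee : ℕ → ℕ) (ε : ℝ), ee 0 = e → (∀ k < D, ee (k + 1) = ee k * w (k + 1)) →
        (∀ k, 1 ≤ w k) → ((f : ℝ) + 1) * ee D + t + 1 ≤ 2 / 5 * wt (1 / 2) L * m →
        (∀ k < D, (1 - q ^ (ee k) / 2) ^ (w (k + 1)) ≤ ε) → Refutes (CB A ω) e D f Sz →
        1 / 2 ≤ (((m * B : ℕ) : ℝ) + 1) * Sz * ε := by
  set η := wt (1 / 2) L with hη
  have hmpos : 0 < m := by
    rcases Nat.eq_zero_or_pos m with h | h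
    · subst h
      norm_num at hηm
    · exact h
  have hlog : 0 ≤ Real.log (1 / η) := by
    apply Real.log_nonneg
    rw [le_div_iff₀ hη0]
    linarith
  have hX640 : 640 ≤ Real.log X := by nlinarith
  have hcard : (Nat.card A : ℝ) / 2 ^ B = η := by
    rw [hη, wt_half, hG.card]
  have hp0 : 0 ≤ q / (1 + q) := by positivity
  have hp1 : q / (1 + q) ≤ 1 := by
    rw [div_le_one (by linarith)]
    linarith
  have hwt1 : wt (q / (1 + q)) L ≤ 1 := by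
    exact (wt_mono hp0 hp1 (Set.subset_univ L)).trans_eq (wt_univ (q / (1 + q)))
  obtain ⟨hD0s, hD01⟩ := num_D (m := m) hη0 hη1 (s := ⌊η * m / 20⌋₊) (D0 := ⌊(1 - 7 / 5 * η) * m⌋₊)
    (D1 := ⌊(1 - 9 / 5 * η) * m⌋₊) rfl rfl rfl
  obtain ⟨ω, hun, hexp, hw⟩ := exists_system (r := r) (t := t) (m := m) (B := B) (s := ⌊η * m / 20⌋₊)
    (D0 := ⌊(1 - 7 / 5 * η) * m⌋₊) (D1 := ⌊(1 - 9 / 5 * η) * m⌋₊) (A := A) (L := L) hmpos hG.empty hq0 hD0s
    (by rw [hcard]; exact num_un hη0 hη1 hX640 hn hr)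
    (num_E hη0 hη1 hX hm hηm ht hr rfl rfl)
    (num_G hη0 hη1 hX640 hm hηm ht hr rfl rfl)
    (num_W hη0 hη1 hηm rfl h2 hwt1)
  refine ⟨ω, hun, ?_⟩
  intro e D f Sz w ee ε hee hs' hw1 hdeg hε href
  have hdeg' : ⌊(1 - 9 / 5 * η) * m⌋₊ + (f + 1) * ee D + t < ⌊(1 - 7 / 5 * η) * m⌋₊ := by
    have : ((⌊(1 - 9 / 5 * η) * m⌋₊ + (f + 1) * ee D + t : ℕ) : ℝ) < (⌊(1 - 7 / 5 * η) * m⌋₊ : ℝ) := by
      push_cast
      linarith
    exact_mod_cast this
  have hs1 : 1 ≤ ⌊η * m / 20⌋₊ := by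
    apply Nat.le_floor
    push_cast
    linarith
  have hdet := det_bound (n := m * B) (m := m) (e := e) (D := D) (f := f) (Sz := Sz) (t := t)
    (s := ⌊η * m / 20⌋₊) (D1 := ⌊(1 - 9 / 5 * η) * m⌋₊) (D0 := ⌊(1 - 7 / 5 * η) * m⌋₊)
    (blk m B) (LtB m L) (ltB_empty hG.empty) (ltB_down hG.down) (SB ω) (CB A ω)
    (fun j x y h hx => cB_dep A ω j x y h hx) (priv_of_good hG ω) hs1 (card_SB ω) hexp hee hs' hw1 hdeg' hq0 hq1
    hε href
  have hall : 1 / 2 * (1 + q) ^ (m * B) ≤ (((m * B : ℕ) : ℝ) + 1) * (Sz * (ε * (1 + q) ^ (m * B))) :=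
    hw.trans (by simpa only [Free] using hdet)
  have hpos : 0 < (1 + q) ^ (m * B) := by positivity
  by_contra hcon
  push Not at hcon
  nlinarith

/-- The constraints of a system are computed by formulas. -/
theorem formula_of_sys {K r t m B : ℕ} {A : Set (Fin B → ZMod 2)}
    (hF : ∀ (n : ℕ) (ρ : Fin B → Fin n) (σ : Fin B → ZMod 2), ∃ φ : Fm n K,
      (∀ x, Holds K φ x ↔ ¬ ((fun l => x (ρ l)) + σ ∈ A)) ∧ leaves K φ = B) (ω : Sys r t m B) :
    ∃ Φ : Fin r → Fm (m * B) (K + 1), (∀ j, {x | Holds (K + 1) (Φ j) x} = CB A ω j) ∧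
      ∀ j, leaves (K + 1) (Φ j) = t * B := by
  choose φ h1 h2 using fun (v : Fin m) (σ : Fin B → ZMod 2) =>
    hF (m * B) (fun l => finProdFinEquiv (v, l)) σ
  refine ⟨fun j => (List.ofFn (fun i => φ (ω j i).1 (ω j i).2) : List (Fm (m * B) K)), ?_, ?_⟩
  · intro j
    ext x
    simp only [Set.mem_ofPred_eq, Holds, CB, List.forall_mem_ofFn_iff, h1]
    push Not
    rfl
  · intro j
    simp only [leaves, List.map_ofFn, Function.comp_def, h2, List.sum_ofFn, Finset.sum_const, Finset.card_univ,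
      Fintype.card_fin, smul_eq_mul]

end H98DH
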