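import Pool.Agent.H98.DH.Defs

/-!
ROW CL (closure of a set of blocks; about 150 lines; no algebra, only finite sets).  PROOF.  Write `f J = dfc S U J = |S(J) \ U| - |J|`, `S(J) = J.biUnion S`.
`dfc_sub` (submodularity): `f (J ∪ J') + f (J ∩ J') ≤ f J + f J'`: `S(J ∪ J') = S(J) ∪ S(J')`, `S(J ∩ J') ⊆ S(J) ∩ S(J')`, cardinalities of `\ U`
(`Finset.card_union_add_card_inter`), and `card` is modular.
Call `J` a minimiser if `J.card ≤ s` and `f J ≤ f J'` for all `J'.card ≤ s`.  A minimiser has `f J ≤ f ∅ = 0`, so by `Expd` (`hE`) and `U.card ≤ D0` it has `2 * J.card ≤ s`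
(otherwise `f J ≥ |S(J)| - |U| - |J| > 0`).  The union of two minimisers has at most `s` elements and, by `dfc_sub` and minimality of `f (J ∩ J') ≥ f J`, is a minimiser.
The family of minimisers is nonempty (finite minimum); so its union `Sup S s U` is a minimiser (induction over a finset of minimisers, starting from one of them).
`sup_spec`: (1) `2 * (Sup S s U).card ≤ s`; (2) it is a minimiser; (3) every minimiser is contained in it (definition).
`sup_sub`: `A = Sup U`, `A' = Sup U'`.  Minimality of `A'` for `U'` against `A ∩ A'`: `|S(A') \ U'| - |A'| ≤ |S(A ∩ A') \ U'| - |A ∩ A'|`, so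
`|S(A') \ (U' ∪ S(A ∩ A'))| ≤ |A' \ A|`; as `U' ∪ S(A ∩ A') ⊆ U ∪ S(A)` also `|S(A') \ (U ∪ S(A))| ≤ |A' \ A|`; so `f (A ∪ A') = f A + |S(A') \ (U ∪ S(A))| - |A' \ A| ≤ f A`,
and `(A ∪ A').card ≤ s` (both have at most `s/2`): `A ∪ A'` is a minimiser, so `A' ⊆ A` by (3).
`sup_hall`: for nonempty `J' ⊆ J \ Sup U`: `f (Sup U ∪ J') > f (Sup U)` (otherwise `Sup U ∪ J'` is a minimiser, contained in `Sup U`), so `|S(J') \ (U ∪ S(Sup U))| > |J'|`.  Hall's theorem
(`Finset.all_card_le_biUnion_card_iff_exists_injective`) for the subtype of `J \ Sup U` and the sets `S j \ (U ∪ S(Sup U))`.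
`sup_mem`: `U = S j`.  If `j ∉ A = Sup (S j)` then `f (insert j A) = f A - 1` and `(insert j A).card ≤ s` (`2 * A.card ≤ s`, `1 ≤ s`): contradiction with minimality.
`sup_empty`: `f J > 0 = f ∅` for all nonempty `J`, `J.card ≤ s`: the only minimiser is `∅`.
-/

set_option autoImplicit false
open scoped Classical

namespace H98DH

variable {m : ℕ} {ι : Type} [Fintype ι]

/-- `J` is a minimiser -/
def IsMn {m : ℕ} {ι : Type} (S : ι → Finset (Fin m)) (s : ℕ) (U : Finset (Fin m)) (J : Finset ι) : Prop :=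
  J.card ≤ s ∧ ∀ J' : Finset ι, J'.card ≤ s → dfc S U J ≤ dfc S U J'

theorem dfc_empty {m : ℕ} {ι : Type} (S : ι → Finset (Fin m)) (U : Finset (Fin m)) : dfc S U ∅ = 0 := by
  unfold dfc
  simp

/-- submodularity -/
theorem dfc_sub {m : ℕ} {ι : Type} (S : ι → Finset (Fin m)) (U : Finset (Fin m)) (J J' : Finset ι) :
    dfc S U (J ∪ J') + dfc S U (J ∩ J') ≤ dfc S U J + dfc S U J' := by
  unfold dfc
  have h1 : (J ∪ J').biUnion S \ U = (J.biUnion S \ U) ∪ (J'.biUnion S \ U) := by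
    rw [Finset.union_biUnion, Finset.union_sdiff_distrib]
  have h2 : (J ∩ J').biUnion S \ U ⊆ (J.biUnion S \ U) ∩ (J'.biUnion S \ U) := by
    intro v hv
    rw [Finset.mem_sdiff, Finset.mem_biUnion] at hv
    obtain ⟨⟨j, hj, hvj⟩, hvT⟩ := hv
    rw [Finset.mem_inter] at hj
    rw [Finset.mem_inter, Finset.mem_sdiff, Finset.mem_sdiff, Finset.mem_biUnion, Finset.mem_biUnion]
    exact ⟨⟨⟨j, hj.1, hvj⟩, hvT⟩, ⟨⟨j, hj.2, hvj⟩, hvT⟩⟩
  have h3 := Finset.card_le_card h2
  have h4 := Finset.card_union_add_card_inter (J.biUnion S \ U) (J'.biUnion S \ U)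
  have h5 := Finset.card_union_add_card_inter J J'
  rw [h1]
  omega

/-- adding the constraints of `J'` -/
theorem dfc_union {m : ℕ} {ι : Type} (S : ι → Finset (Fin m)) (U : Finset (Fin m)) (J J' : Finset ι) :
    dfc S U (J ∪ J') = dfc S U J + ((J'.biUnion S \ (U ∪ J.biUnion S)).card : ℤ) - (J' \ J).card := by
  unfold dfc
  have h1 : (J ∪ J').biUnion S \ U = (J.biUnion S \ U) ∪ (J'.biUnion S \ (U ∪ J.biUnion S)) := by
    rw [Finset.union_biUnion]
    ext v
    simp only [Finset.mem_sdiff, Finset.mem_union]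
    tauto
  have h2 : Disjoint (J.biUnion S \ U) (J'.biUnion S \ (U ∪ J.biUnion S)) := by
    rw [Finset.disjoint_left]
    intro v h1 h2
    simp only [Finset.mem_sdiff, Finset.mem_union] at h1 h2
    exact h2.2 (Or.inr h1.1)
  have h3 : (J ∪ J').card = J.card + (J' \ J).card := by
    rw [← Finset.union_sdiff_self_eq_union, Finset.card_union_of_disjoint Finset.disjoint_sdiff]
  rw [h1, Finset.card_union_of_disjoint h2, h3]
  push_cast
  ring

theorem mn_small {S : ι → Finset (Fin m)} {s D0 : ℕ} (hC : Expd S s D0) {U : Finset (Fin m)} (hU : U.card ≤ D0)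
    {J : Finset ι} (hJ : IsMn S s U J) : 2 * J.card ≤ s := by
  by_contra hcon
  have h1 := hC J (by omega) hJ.1
  have h2 : (J.biUnion S).card ≤ (J.biUnion S \ U).card + U.card := by
    have := Finset.le_card_sdiff U (J.biUnion S)
    omega
  have h3 := hJ.2 ∅ (by simp)
  rw [dfc_empty] at h3
  unfold dfc at h3
  omega

theorem mn_union {S : ι → Finset (Fin m)} {s D0 : ℕ} (hC : Expd S s D0) {U : Finset (Fin m)} (hU : U.card ≤ D0)
    {J J' : Finset ι} (hJ : IsMn S s U J) (hJ' : IsMn S s U J') : IsMn S s U (J ∪ J') := by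
  have h1 := mn_small hC hU hJ
  have h2 := mn_small hC hU hJ'
  have h3 := Finset.card_union_le J J'
  refine ⟨by omega, fun K hK => ?_⟩
  have h4 := dfc_sub S U J J'
  have h5 := hJ.2 (J ∩ J') ((Finset.card_le_card Finset.inter_subset_left).trans hJ.1)
  have h6 := hJ'.2 K hK
  linarith

theorem exists_mn (S : ι → Finset (Fin m)) (s : ℕ) (U : Finset (Fin m)) : ∃ J, IsMn S s U J := by
  obtain ⟨J, hJ, hmin⟩ := Finset.exists_min_image (Finset.univ.filter (fun J : Finset ι => J.card ≤ s)) (dfc S U)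
    ⟨∅, Finset.mem_filter.mpr ⟨Finset.mem_univ _, by simp⟩⟩
  refine ⟨J, (Finset.mem_filter.mp hJ).2, fun J' hJ' => hmin J' (Finset.mem_filter.mpr ⟨Finset.mem_univ _, hJ'⟩)⟩

theorem sub_sup {S : ι → Finset (Fin m)} {s : ℕ} {U : Finset (Fin m)} {J : Finset ι} (hJ : IsMn S s U J) :
    J ⊆ Sup S s U := by
  intro j hj
  exact Finset.mem_biUnion.mpr ⟨J, Finset.mem_filter.mpr ⟨Finset.mem_univ _, hJ⟩, hj⟩

/-- the closure is itself a minimiser -/
theorem sup_mn {S : ι → Finset (Fin m)} {s D0 : ℕ} (hC : Expd S s D0) {U : Finset (Fin m)} (hU : U.card ≤ D0) :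
    IsMn S s U (Sup S s U) := by
  obtain ⟨J0, hJ0⟩ := exists_mn S s U
  have h : ∀ F : Finset (Finset ι), (∀ J ∈ F, IsMn S s U J) → IsMn S s U (J0 ∪ F.biUnion id) := by
    intro F
    induction F using Finset.induction_on with
    | empty =>
      intro _
      rw [Finset.biUnion_empty, Finset.union_empty]
      exact hJ0
    | insert J F hJ ih =>
      intro hF
      have h1 := ih (fun J' hJ' => hF J' (Finset.mem_insert_of_mem hJ'))
      have h2 := hF J (Finset.mem_insert_self J F)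
      rw [Finset.biUnion_insert]
      have h3 : J0 ∪ (id J ∪ F.biUnion id) = J ∪ (J0 ∪ F.biUnion id) := by
        rw [Finset.union_left_comm]
        rfl
      rw [h3]
      exact mn_union hC hU h2 h1
  have h1 := h (Finset.univ.filter (fun J => IsMn S s U J)) (fun J hJ => (Finset.mem_filter.mp hJ).2)
  have h2 : J0 ∪ (Finset.univ.filter (fun J => IsMn S s U J)).biUnion id = Sup S s U := by
    have h3 : (Finset.univ.filter (fun J => IsMn S s U J)).biUnion id = Sup S s U := by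
      unfold Sup IsMn
      congr
    rw [h3, Finset.union_eq_right]
    exact sub_sup hJ0
  rwa [h2] at h1

/-- (C2) -/
theorem sup_card {S : ι → Finset (Fin m)} {s D0 : ℕ} (hC : Expd S s D0) {U : Finset (Fin m)} (hU : U.card ≤ D0) :
    2 * (Sup S s U).card ≤ s := mn_small hC hU (sup_mn hC hU)

theorem sup_new {S : ι → Finset (Fin m)} {s D0 : ℕ} (hC : Expd S s D0) {U : Finset (Fin m)} (hU : U.card ≤ D0) :
    ((Sup S s U).biUnion S \ U).card ≤ (Sup S s U).card := by
  have h := (sup_mn hC hU).2 ∅ (by simp)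
  rw [dfc_empty] at h
  unfold dfc at h
  omega

/-- (C1) -/
theorem sup_sub {S : ι → Finset (Fin m)} {s D0 : ℕ} (hC : Expd S s D0) {U U' : Finset (Fin m)} (hU : U.card ≤ D0)
    (hU' : U'.card ≤ D0) (h : U' ⊆ U ∪ (Sup S s U).biUnion S) : Sup S s U' ⊆ Sup S s U := by
  have m1 := sup_mn hC hU
  have m2 := sup_mn hC hU'
  have c1 := sup_card hC hU
  have c2 := sup_card hC hU'
  set A := Sup S s U with hA
  set A' := Sup S s U' with hA'
  have h3 := Finset.card_union_le A A'
  refine Finset.subset_union_right.trans (sub_sup (J := A ∪ A') ⟨by omega, fun K hK => ?_⟩)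
  have h4 := dfc_union S U A A'
  have h5 := dfc_union S U' (A ∩ A') A'
  rw [Finset.union_eq_right.mpr (Finset.inter_subset_right : A ∩ A' ⊆ A')] at h5
  have h6 := m2.2 (A ∩ A') ((Finset.card_le_card Finset.inter_subset_left).trans m1.1)
  have h7 : (A' \ (A ∩ A')).card = (A' \ A).card := by
    congr 1
    ext v
    simp only [Finset.mem_sdiff, Finset.mem_inter]
    tauto
  have h8 : (A'.biUnion S \ (U ∪ A.biUnion S)).card ≤ (A'.biUnion S \ (U' ∪ (A ∩ A').biUnion S)).card := by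
    refine Finset.card_le_card (Finset.sdiff_subset_sdiff (Finset.Subset.refl _) (Finset.union_subset h ?_))
    exact (Finset.biUnion_subset_biUnion_of_subset_left S Finset.inter_subset_left).trans Finset.subset_union_right
  have h9 := m1.2 K hK
  rw [h7] at h5
  have h10 : ((A'.biUnion S \ (U ∪ A.biUnion S)).card : ℤ) ≤ ((A'.biUnion S \ (U' ∪ (A ∩ A').biUnion S)).card : ℤ) := by
    exact_mod_cast h8
  linarith

theorem sup_mono {S : ι → Finset (Fin m)} {s D0 : ℕ} (hC : Expd S s D0) {U U' : Finset (Fin m)} (hU : U.card ≤ D0)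
    (h : U' ⊆ U) : Sup S s U' ⊆ Sup S s U :=
  sup_sub hC hU ((Finset.card_le_card h).trans hU) (h.trans Finset.subset_union_left)

theorem sup_hall0 {S : ι → Finset (Fin m)} {s D0 : ℕ} (hC : Expd S s D0) {U : Finset (Fin m)} (hU : U.card ≤ D0)
    {I J : Finset ι} (hI : I.card ≤ s) (hTI : Sup S s U ⊆ I) (hJI : J ⊆ I) (hJ : Disjoint J (Sup S s U)) :
    J.card ≤ (J.biUnion S \ (U ∪ (Sup S s U).biUnion S)).card := by
  by_cases hne : J = ∅
  · rw [hne]
    simp
  · have m1 := sup_mn hC hU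
    set c := Sup S s U with hc
    have hcs : (c ∪ J).card ≤ s := (Finset.card_le_card (Finset.union_subset hTI hJI)).trans hI
    have h1 : dfc S U c < dfc S U (c ∪ J) := by
      rcases lt_or_ge (dfc S U c) (dfc S U (c ∪ J)) with h | h
      · exact h
      · exfalso
        have hmin : IsMn S s U (c ∪ J) := ⟨hcs, fun K hK => h.trans (m1.2 K hK)⟩
        have h2 := sub_sup hmin
        obtain ⟨j, hj⟩ := Finset.nonempty_of_ne_empty hne
        exact (Finset.disjoint_left.mp hJ hj) (h2 (Finset.mem_union_right _ hj))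
    have h2 := dfc_union S U c J
    have h3 : (J \ c).card = J.card := by rw [Finset.sdiff_eq_self_of_disjoint hJ]
    rw [h3] at h2
    omega

/-- (C3): distinct private blocks outside the closure -/
theorem sup_sdr {S : ι → Finset (Fin m)} {s D0 : ℕ} (hC : Expd S s D0) {U : Finset (Fin m)} (hU : U.card ≤ D0)
    {I : Finset ι} (hI : I.card ≤ s) (hTI : Sup S s U ⊆ I) :
    ∃ r : {j // j ∈ I \ Sup S s U} → Fin m, Function.Injective r ∧
      ∀ j, r j ∈ S j.1 ∧ r j ∉ U ∧ r j ∉ (Sup S s U).biUnion S := by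
  set c := Sup S s U with hc
  have hall := (Finset.all_card_le_biUnion_card_iff_exists_injective
    (fun j : {j // j ∈ I \ c} => S j.1 \ (U ∪ c.biUnion S))).mp (by
      intro A
      have h1 := sup_hall0 hC hU hI hTI (J := A.map (Function.Embedding.subtype _)) (by
        intro j hj
        obtain ⟨a, -, rfl⟩ := Finset.mem_map.mp hj
        exact (Finset.mem_sdiff.mp a.2).1) (by
        rw [Finset.disjoint_left]
        intro j hj
        obtain ⟨a, -, rfl⟩ := Finset.mem_map.mp hj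
        exact (Finset.mem_sdiff.mp a.2).2)
      rw [Finset.card_map] at h1
      refine h1.trans (Finset.card_le_card ?_)
      intro v hv
      rw [Finset.mem_sdiff, Finset.mem_biUnion] at hv
      obtain ⟨⟨j, hj, hvj⟩, hv2⟩ := hv
      obtain ⟨a, ha, rfl⟩ := Finset.mem_map.mp hj
      exact Finset.mem_biUnion.mpr ⟨a, ha, Finset.mem_sdiff.mpr ⟨hvj, hv2⟩⟩)
  obtain ⟨r, hr, hrm⟩ := hall
  refine ⟨r, hr, fun j => ?_⟩
  have h1 := hrm j
  rw [Finset.mem_sdiff, Finset.mem_union] at h1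
  exact ⟨h1.1, fun h => h1.2 (Or.inl h), fun h => h1.2 (Or.inr h)⟩

/-- the closure of a free set is empty -/
theorem sup_free {S : ι → Finset (Fin m)} {s : ℕ} {U : Finset (Fin m)}
    (hF : ∀ J : Finset ι, J.Nonempty → J.card ≤ s → J.card < (J.biUnion S \ U).card) : Sup S s U = ∅ := by
  rw [Finset.eq_empty_iff_forall_notMem]
  intro j hj
  obtain ⟨J, hJ, hjJ⟩ := Finset.mem_biUnion.mp hj
  have hm := (Finset.mem_filter.mp hJ).2
  have h1 := hF J ⟨j, hjJ⟩ hm.1
  have h2 := hm.2 ∅ (by simp)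
  rw [dfc_empty] at h2
  unfold dfc at h2
  omega

/-- (C4) -/
theorem sup_self {S : ι → Finset (Fin m)} {s D0 : ℕ} (hs : 1 ≤ s) (hC : Expd S s D0) (j : ι) (hj : (S j).card ≤ D0) :
    j ∈ Sup S s (S j) := by
  by_contra hn
  have m1 := sup_mn hC hj
  have c1 := sup_card hC hj
  have h1 : (insert j (Sup S s (S j))).card = (Sup S s (S j)).card + 1 := Finset.card_insert_of_notMem hn
  have h2 := m1.2 (insert j (Sup S s (S j))) (by omega)
  unfold dfc at h2
  have h3 : (insert j (Sup S s (S j))).biUnion S \ S j ⊆ (Sup S s (S j)).biUnion S \ S j := by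
    intro v hv
    rw [Finset.biUnion_insert] at hv
    simp only [Finset.mem_sdiff, Finset.mem_union] at hv ⊢
    exact ⟨hv.1.resolve_left hv.2, hv.2⟩
  have h4 := Finset.card_le_card h3
  omega

/-- a larger form of (C4) -/
theorem mem_sup {S : ι → Finset (Fin m)} {s D0 : ℕ} (hs : 1 ≤ s) (hC : Expd S s D0) (j : ι) {U : Finset (Fin m)}
    (hU : U.card ≤ D0) (hj : S j ⊆ U ∪ (Sup S s U).biUnion S) : j ∈ Sup S s U := by
  by_contra hn
  have m1 := sup_mn hC hU
  have c1 := sup_card hC hU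
  have h1 : (insert j (Sup S s U)).card = (Sup S s U).card + 1 := Finset.card_insert_of_notMem hn
  have h2 := m1.2 (insert j (Sup S s U)) (by omega)
  unfold dfc at h2
  have h3 : (insert j (Sup S s U)).biUnion S \ U ⊆ (Sup S s U).biUnion S \ U := by
    intro v hv
    rw [Finset.biUnion_insert] at hv
    simp only [Finset.mem_sdiff, Finset.mem_union] at hv ⊢
    rcases hv.1 with h | h
    · rcases Finset.mem_union.mp (hj h) with h5 | h5
      · exact absurd h5 hv.2
      · exact ⟨h5, hv.2⟩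
    · exact ⟨h, hv.2⟩
  have h4 := Finset.card_le_card h3
  omega


theorem sup_spec {S : ι → Finset (Fin m)} {s D0 : ℕ} (hE : Expd S s D0) {U : Finset (Fin m)} (hU : U.card ≤ D0) :
    2 * (Sup S s U).card ≤ s ∧ (∀ J : Finset ι, J.card ≤ s → dfc S U (Sup S s U) ≤ dfc S U J) ∧
      ∀ J : Finset ι, J.card ≤ s → dfc S U J ≤ dfc S U (Sup S s U) → J ⊆ Sup S s U := by
  have h := sup_mn hE hU
  exact ⟨sup_card hE hU, h.2, fun J hJ hle => sub_sup ⟨hJ, fun J' hJ' => hle.trans (h.2 J' hJ')⟩⟩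

/-- (C3).  (`hne` is needed: for `m = 0` there are no functions `ι → Fin 0`.) -/
theorem sup_hall {S : ι → Finset (Fin m)} {s D0 : ℕ} (hE : Expd S s D0) {U : Finset (Fin m)} (hU : U.card ≤ D0)
    {J : Finset ι} (h1 : Sup S s U ⊆ J) (h2 : J.card ≤ s) (hne : (J \ Sup S s U).Nonempty) :
    ∃ p : ι → Fin m, (∀ j ∈ J \ Sup S s U, ∀ j' ∈ J \ Sup S s U, p j = p j' → j = j') ∧
      ∀ j ∈ J \ Sup S s U, p j ∈ S j ∧ p j ∉ U ∧ p j ∉ (Sup S s U).biUnion S := by
  obtain ⟨r, hr, hrp⟩ := sup_sdr hE hU h2 h1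
  obtain ⟨j0, hj0⟩ := hne
  refine ⟨fun j => if h : j ∈ J \ Sup S s U then r ⟨j, h⟩ else r ⟨j0, hj0⟩, ?_, ?_⟩
  · intro j hj j' hj' he
    simp only [dif_pos hj, dif_pos hj'] at he
    exact congrArg Subtype.val (hr he)
  · intro j hj
    simp only [dif_pos hj]
    exact hrp ⟨j, hj⟩

theorem sup_mem {S : ι → Finset (Fin m)} {s D0 : ℕ} (hE : Expd S s D0) (hs : 1 ≤ s) (j : ι) (hj : (S j).card ≤ D0) :
    j ∈ Sup S s (S j) := sup_self hs hE j hj

theorem sup_empty {S : ι → Finset (Fin m)} {s : ℕ} {U : Finset (Fin m)}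
    (h : ∀ J : Finset ι, J.Nonempty → J.card ≤ s → J.card < (J.biUnion S \ U).card) : Sup S s U = ∅ := sup_free h

end H98DH
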