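import Pool.Agent.H96.RE.Defs

/-!
The definitions used in the statement of the theorem of project DH (helper98): superpolynomial lower bounds for semantic refutations by bounded depth
circuits with parity gates, for every depth.

Points are `x : Fin n → ZMod 2`, functions are `(Fin n → ZMod 2) → ZMod 2`; `H96RE.Pol n e` = functions of degree at most `e` = the span of the
monomials `H96RE.mono T x = ∏ i ∈ T, x i` with `T.card ≤ e`.
-/

set_option autoImplicit false
open scoped Classical

namespace H98DH

open H96RE

/-! ### Formulas -/

/-- Formulas of depth `k` in the variables `x 0, …, x (n-1)`: a formula of depth `0` is a literal `(i, b)` (true iff `x i = b`),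
a formula of depth `k + 1` is a NAND gate (of any fan-in) applied to formulas of depth `k`. -/
def Fm (n : ℕ) : ℕ → Type
  | 0 => Fin n × ZMod 2
  | k + 1 => List (Fm n k)

/-- Truth of a formula at a point. -/
def Holds {n : ℕ} : (k : ℕ) → Fm n k → (Fin n → ZMod 2) → Prop
  | 0, a, x => x a.1 = a.2
  | k + 1, l, x => ¬ ∀ φ ∈ (show List (Fm n k) from l), Holds k φ x

/-- The number of occurrences of literals in a formula. -/
def leaves {n : ℕ} : (k : ℕ) → Fm n k → ℕ
  | 0, _ => 1
  | k + 1, l => ((show List (Fm n k) from l).map (leaves k)).sum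

/-! ### Circuits and refutations -/

/-- The functions obtained by parities from the functions `G g`, `g ∈ I`: sums (mod 2) of some of them and of a function of degree
at most `e`. -/
def Par {n : ℕ} (e : ℕ) (G : ℕ → (Fin n → ZMod 2) → ZMod 2) (I : Set ℕ) : Submodule (ZMod 2) ((Fin n → ZMod 2) → ZMod 2) :=
  Pol n e ⊔ Submodule.span (ZMod 2) (G '' I)

/-- Circuits with `S` gates in `D` levels: gate `g < S` computes the function `G g`, the disjunction of some set `H` of functions, each of
which is a sum (mod 2) of gates of smaller level and of a function of degree at most `e`.  Negations (the sum with the constant `1`) and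
parities are free, the conjunction is the negation of a disjunction of negations. -/
structure Circ (n e D S : ℕ) where
  lev : ℕ → ℕ
  G : ℕ → (Fin n → ZMod 2) → ZMod 2
  pos : ∀ g < S, 1 ≤ lev g
  le : ∀ g < S, lev g ≤ D
  or : ∀ g < S, ∃ H : Set ((Fin n → ZMod 2) → ZMod 2), (∀ h ∈ H, h ∈ Par e G {g' | g' < S ∧ lev g' < lev g}) ∧
    ∀ x, G g x = 1 ↔ ∃ h ∈ H, h x = 1

/-- A refutation of the constraints `C j` (the set of points which satisfy the constraint) with `S` gates in `D` levels: lines
`F 0, …, F (N-1)`, each of them a sum (mod 2) of gates of one circuit and of a function of degree at most `e`; every line is implied by one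
constraint or, in any sound way, by at most `f` earlier lines; some line is false everywhere.  The number `N` of lines is not counted. -/
def Refutes {n : ℕ} {ι : Type} (C : ι → Set (Fin n → ZMod 2)) (e D f S : ℕ) : Prop :=
  ∃ (c : Circ n e D S) (N : ℕ) (F : ℕ → (Fin n → ZMod 2) → ZMod 2),
    (∀ i < N, F i ∈ Par e c.G {g | g < S}) ∧
    (∀ i < N, (∃ j, ∀ x ∈ C j, F i x = 1) ∨
      ∃ K : Finset ℕ, K.card ≤ f ∧ (∀ k ∈ K, k < i) ∧ ∀ x, (∀ k ∈ K, F k x = 1) → F i x = 1) ∧
    ∃ i < N, ∀ x, F i x = 0

end H98DH
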