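import Pool.Agent.H98.DH.Core
import Pool.Agent.H96.RE.Approx
import Pool.Agent.H91.RE.Nf

/-!
Definitions for project DH (helper98): superpolynomial lower bounds for semantic refutations by bounded depth circuits with parity gates, for every depth.
Paper proof: /team-store/H98_DEPTH.md.

Points are `x : Fin n → ZMod 2`, functions are `Fn n = (Fin n → ZMod 2) → ZMod 2`; `Pol n e` = functions of degree at most `e`
(H96RE), `mono T x = ∏ i ∈ T, x i`, `indic A` = indicator function of a set of points.
-/

set_option autoImplicit false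
open scoped Classical

namespace H98DH

open H96RE H91RE

/-! ### Blocks, light and heavy blocks, closure -/

section
variable {n m : ℕ} {ι : Type}

/-- the part of `T` in the block `v` -/
noncomputable def prt (blk : Fin n → Fin m) (T : Finset (Fin n)) (v : Fin m) : Finset (Fin n) :=
  T.filter (fun i => blk i = v)

/-- the heavy blocks of `T` (`Lt R`: the set `R` is light) -/
noncomputable def heavy (blk : Fin n → Fin m) (Lt : Finset (Fin n) → Prop) (T : Finset (Fin n)) : Finset (Fin m) :=
  Finset.univ.filter (fun v => ¬ Lt (prt blk T v))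

/-- the functions spanned by the monomials with at most `a` heavy blocks -/
noncomputable def Mh (blk : Fin n → Fin m) (Lt : Finset (Fin n) → Prop) (a : ℕ) : Submodule (ZMod 2) (Fn n) :=
  Submodule.span (ZMod 2) (mono '' {T | (heavy blk Lt T).card ≤ a})

/-- replace the block `v` of `x` by that of `z` -/
noncomputable def merge (blk : Fin n → Fin m) (v : Fin m) (z x : Fin n → ZMod 2) : Fin n → ZMod 2 :=
  fun i => if blk i = v then z i else x i

/-- `|S(J) \ U| - |J|` -/
noncomputable def dfc (S : ι → Finset (Fin m)) (U : Finset (Fin m)) (J : Finset ι) : ℤ :=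
  ((J.biUnion S \ U).card : ℤ) - J.card

/-- the closure: the union of all minimisers of `dfc` among the sets of at most `s` constraints -/
noncomputable def Sup [Fintype ι] (S : ι → Finset (Fin m)) (s : ℕ) (U : Finset (Fin m)) : Finset ι :=
  (Finset.univ.filter (fun J : Finset ι => J.card ≤ s ∧ ∀ J' : Finset ι, J'.card ≤ s → dfc S U J ≤ dfc S U J')).biUnion id

/-- the points which satisfy the constraints of `J` -/
def Sat (C : ι → Set (Fin n → ZMod 2)) (J : Finset ι) : Set (Fin n → ZMod 2) := {x | ∀ j ∈ J, x ∈ C j}

/-- the expansion hypothesis -/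
def Expd (S : ι → Finset (Fin m)) (s D0 : ℕ) : Prop :=
  ∀ J : Finset ι, s < 2 * J.card → J.card ≤ s → D0 + J.card < (J.biUnion S).card

/-- private blocks can be used: for every light set `L` in a block `v` of the constraint `j` there is a set `P` of assignments to the block `v`, all
of which satisfy the constraint `j`, such that summing over `P` picks the monomial of `L` among the light monomials of the block `v` -/
def Priv (blk : Fin n → Fin m) (Lt : Finset (Fin n) → Prop) (S : ι → Finset (Fin m)) (C : ι → Set (Fin n → ZMod 2)) : Prop :=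
  ∀ j, ∀ v ∈ S j, ∀ L : Finset (Fin n), (∀ i ∈ L, blk i = v) → Lt L →
    ∃ P : Finset (Fin n → ZMod 2), (∀ z ∈ P, ∀ x, merge blk v z x ∈ C j) ∧
      ∀ R : Finset (Fin n), (∀ i ∈ R, blk i = v) → Lt R → ∑ z ∈ P, mono R z = if R = L then 1 else 0

end

/-! ### Good pairs -/

/-- `(A, L)` is good: `L` is a down-set of subsets of `Fin B`, `A` a set of points with as many elements, and no nonzero combination of the
monomials of `L` vanishes on `A`. -/
structure Good {B : ℕ} (A : Set (Fin B → ZMod 2)) (L : Set (Finset (Fin B))) : Prop where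
  empty : ∅ ∈ L
  down : ∀ R R' : Finset (Fin B), R ⊆ R' → R' ∈ L → R ∈ L
  card : Nat.card A = Nat.card L
  ind : ∀ g ∈ Submodule.span (ZMod 2) (mono '' L), (∀ x ∈ A, g x = 0) → g = 0

/-- the `i`-th block of `y` -/
def sub {a B : ℕ} (y : Fin (a * B) → ZMod 2) (i : Fin a) : Fin B → ZMod 2 := fun l => y (finProdFinEquiv (i, l))

/-- the `i`-th block of `T` -/
noncomputable def subT {a B : ℕ} (T : Finset (Fin (a * B))) (i : Fin a) : Finset (Fin B) :=
  Finset.univ.filter (fun l => finProdFinEquiv (i, l) ∈ T)

/-- `a`-fold product of the complement -/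
def stepA {B : ℕ} (a : ℕ) (A : Set (Fin B → ZMod 2)) : Set (Fin (a * B) → ZMod 2) := {y | ∀ i, sub y i ∉ A}

/-- the light sets of the `a`-fold product of the complement -/
def stepL {B : ℕ} (a : ℕ) (L : Set (Finset (Fin B))) : Set (Finset (Fin (a * B))) := {T | ∀ i, (subT T i)ᶜ ∉ L}

/-- the probability that a random set, which contains every element with probability `p`, belongs to `L` -/
noncomputable def wt {B : ℕ} (p : ℝ) (L : Set (Finset (Fin B))) : ℝ :=
  ∑ T ∈ Finset.univ.filter (fun T : Finset (Fin B) => T ∈ L), p ^ T.card * (1 - p) ^ (B - T.card)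

/-! ### The constraints -/

/-- a system of `r` constraints with `t` pairs (block, pattern) each -/
abbrev Sys (r t m B : ℕ) := Fin r → Fin t → Fin m × (Fin B → ZMod 2)

/-- the blocks of a constraint -/
noncomputable def SB {r t m B : ℕ} (ω : Sys r t m B) (j : Fin r) : Finset (Fin m) := Finset.univ.image (fun i => (ω j i).1)

/-- the points which satisfy the constraint `j`: for some of the pairs `(v, σ)` of the constraint, `x_v + σ ∈ A` -/
def CB {r t m B : ℕ} (A : Set (Fin B → ZMod 2)) (ω : Sys r t m B) (j : Fin r) : Set (Fin (m * B) → ZMod 2) :=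
  {x | ∃ i, sub x (ω j i).1 + (ω j i).2 ∈ A}

/-- the block of a variable -/
def blk (m B : ℕ) (i : Fin (m * B)) : Fin m := (finProdFinEquiv.symm i).1

/-- light sets of variables -/
def LtB {B : ℕ} (m : ℕ) (L : Set (Finset (Fin B))) (R : Finset (Fin (m * B))) : Prop := ∀ v : Fin m, subT R v ∈ L

/-- the set `T` is free for the system -/
def Free {r t m B : ℕ} (L : Set (Finset (Fin B))) (ω : Sys r t m B) (s : ℕ) (T : Finset (Fin (m * B))) : Prop :=
  ∀ J : Finset (Fin r), J.Nonempty → J.card ≤ s →
    J.card < (J.biUnion (SB ω) \ heavy (blk m B) (LtB m L) T).card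

end H98DH
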