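import Pool.Agent.H98.DH.Defs

/-!
Sanity of the definition of refutations (project DH; helper91): soundness, monotonicity in the number of gates, completeness.
-/

set_option autoImplicit false
open scoped Classical

namespace H98DH

open H96RE H91RE

/-- soundness: only unsatisfiable families have refutations -/
theorem unsat_of_refutes {n : ℕ} {ι : Type} {C : ι → Set (Fin n → ZMod 2)} {e D f S : ℕ} (h : Refutes C e D f S) :
    ∀ x, ∃ j, x ∉ C j := by
  intro x
  by_contra hcon
  push Not at hcon
  obtain ⟨c, N, F, -, hF, i0, hi0, h0⟩ := h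
  have h1 : ∀ i < N, F i x = 1 := by
    intro i
    induction i using Nat.strong_induction_on with
    | _ i ih =>
      intro hi
      rcases hF i hi with ⟨j, hj⟩ | ⟨K, -, hK, hKx⟩
      · exact hj x (hcon j)
      · exact hKx x (fun k hk => ih k (hK k hk) ((hK k hk).trans hi))
  have h2 := h1 i0 hi0
  rw [h0 x] at h2
  exact zero_ne_one h2

theorem par_le {n e : ℕ} {G G' : ℕ → Fn n} {I I' : Set ℕ} (h : G '' I ⊆ G' '' I') : Par e G I ≤ Par e G' I' := by
  unfold Par
  exact sup_le_sup le_rfl (Submodule.span_mono h)

/-- more gates do not hurt -/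
theorem Refutes.mono {n : ℕ} {ι : Type} {C : ι → Set (Fin n → ZMod 2)} {e D f S S' : ℕ} (hD : 1 ≤ D) (hS : S ≤ S')
    (h : Refutes C e D f S) : Refutes C e D f S' := by
  obtain ⟨c, N, F, hF1, hF2, hF3⟩ := h
  have himg : ∀ I : Set ℕ, (∀ g ∈ I, g < S) →
      (fun g => if g < S then c.G g else (0 : Fn n)) '' I = c.G '' I := by
    intro I hI
    refine Set.image_congr fun g hg => ?_
    simp only [if_pos (hI g hg)]
  let c' : Circ n e D S' :=
    { lev := fun g => if g < S then c.lev g else 1
      G := fun g => if g < S then c.G g else 0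
      pos := by
        intro g _
        by_cases h1 : g < S
        · simp only [if_pos h1]
          exact c.pos g h1
        · simp only [if_neg h1]
          exact le_rfl
      le := by
        intro g _
        by_cases h1 : g < S
        · simp only [if_pos h1]
          exact c.le g h1
        · simp only [if_neg h1]
          exact hD
      or := by
        intro g _
        by_cases h1 : g < S
        · obtain ⟨H, hH1, hH2⟩ := c.or g h1
          refine ⟨H, fun k hk => ?_, fun x => ?_⟩
          · have h2 := hH1 k hk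
            refine par_le ?_ h2
            rw [← himg _ (fun g' hg' => hg'.1)]
            refine Set.image_mono ?_
            rintro g' ⟨h3, h4⟩
            refine ⟨h3.trans_le hS, ?_⟩
            simp only [if_pos h1, if_pos h3]
            exact h4
          · simp only [if_pos h1]
            exact hH2 x
        · refine ⟨∅, fun k hk => absurd hk (Set.notMem_empty k), fun x => ?_⟩
          simp only [if_neg h1]
          constructor
          · intro h2
            exact absurd h2 zero_ne_one
          · rintro ⟨k, hk, -⟩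
            exact absurd hk (Set.notMem_empty k) }
  refine ⟨c', N, F, fun i hi => ?_, hF2, hF3⟩
  refine par_le ?_ (hF1 i hi)
  rw [← himg {g | g < S} (fun g' hg' => hg')]
  refine Set.image_mono ?_
  intro g' hg'
  exact lt_of_lt_of_le hg' hS

/-- completeness: every unsatisfiable family has a refutation with `2^n` gates of level one -/
theorem refutes_of_unsat {n : ℕ} {ι : Type} {C : ι → Set (Fin n → ZMod 2)} {e D f : ℕ} (he : 1 ≤ e) (hD : 1 ≤ D)
    (hf : 2 ≤ f) (h : ∀ x, ∃ j, x ∉ C j) : Refutes C e D f (2 ^ n) := by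
  have hcard : Fintype.card (Fin n → ZMod 2) = 2 ^ n := by
    rw [Fintype.card_fun, ZMod.card, Fintype.card_fin]
  obtain ⟨a, ha⟩ : ∃ a : ℕ → Fin n → ZMod 2, ∀ x, ∃ g < 2 ^ n, a g = x := by
    let E := Fintype.equivFinOfCardEq hcard
    refine ⟨fun g => if hg : g < 2 ^ n then E.symm ⟨g, hg⟩ else 0, fun x => ⟨(E x : ℕ), (E x).2, ?_⟩⟩
    simp only [dif_pos (E x).2]
    exact E.symm_apply_apply x
  obtain ⟨G, hG⟩ : ∃ G : ℕ → Fn n, ∀ g x, G g x = if x = a g then 0 else 1 := ⟨fun g x => if x = a g then 0 else 1, fun _ _ => rfl⟩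
  let c : Circ n e D (2 ^ n) :=
    { lev := fun _ => 1
      G := G
      pos := fun _ _ => le_rfl
      le := fun _ _ => hD
      or := by
        intro g _
        refine ⟨{k | ∃ i : Fin n, k = fun x => x i + a g i}, ?_, ?_⟩
        · rintro k ⟨i, rfl⟩
          refine Submodule.mem_sup_left ?_
          have h1 : (fun x : Fin n → ZMod 2 => x i + a g i) = mono {i} + fun _ => a g i := by
            funext x
            rw [Pi.add_apply]
            unfold mono
            rw [Finset.prod_singleton]
          rw [h1]
          exact Submodule.add_mem _ (Submodule.subset_span ⟨{i}, by simpa using he, rfl⟩) (const_mem _)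
        · intro x
          rw [hG]
          constructor
          · intro h1
            by_cases h2 : x = a g
            · rw [if_pos h2] at h1
              exact absurd h1 zero_ne_one
            · obtain ⟨i, hi⟩ : ∃ i, x i ≠ a g i := by
                by_contra h3
                push Not at h3
                exact h2 (funext h3)
              refine ⟨_, ⟨i, rfl⟩, ?_⟩
              revert hi
              show x i ≠ a g i → x i + a g i = 1
              generalize x i = u
              generalize a g i = v
              revert u v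
              decide
          · rintro ⟨_, ⟨i, rfl⟩, hi⟩
            rw [if_neg]
            rintro rfl
            have h5 : a g i + a g i = 1 := hi
            rw [CharTwo.add_self_eq_zero] at h5
            exact zero_ne_one h5 }
  have hall : ∀ F : Fn n, F ∈ Par e G {g | g < 2 ^ n} := by
    intro F
    have h1 : F = ∑ x : Fin n → ZMod 2, F x • (Pi.single x 1 : Fn n) := by
      funext y
      rw [Finset.sum_apply, Finset.sum_eq_single y]
      · rw [Pi.smul_apply, Pi.single_eq_same, smul_eq_mul, mul_one]
      · intro x _ hx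
        rw [Pi.smul_apply, Pi.single_apply, if_neg (Ne.symm hx), smul_zero]
      · intro h2
        exact absurd (Finset.mem_univ y) h2
    rw [h1]
    refine Submodule.sum_mem _ fun x _ => Submodule.smul_mem _ _ ?_
    obtain ⟨g, hg, rfl⟩ := ha x
    have h2 : (Pi.single (a g) 1 : Fn n) = (fun _ => 1) + G g := by
      funext y
      rw [Pi.add_apply, hG, Pi.single_apply]
      by_cases h3 : y = a g
      · rw [if_pos h3, if_pos h3, add_zero]
      · rw [if_neg h3, if_neg h3, CharTwo.add_self_eq_zero]
    rw [h2]
    exact Submodule.add_mem _ (Submodule.mem_sup_left (const_mem _)) (Submodule.mem_sup_right (Submodule.subset_span ⟨g, hg, rfl⟩))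
  -- the lines
  obtain ⟨F, hF⟩ : ∃ F : ℕ → Fn n, ∀ k x, F k x = 1 ↔ (k % 2 = 0 → x ≠ a (k / 2)) ∧ (k % 2 = 1 → ∀ i ≤ k / 2, x ≠ a i) := by
    refine ⟨fun k x => if (k % 2 = 0 → x ≠ a (k / 2)) ∧ (k % 2 = 1 → ∀ i ≤ k / 2, x ≠ a i) then 1 else 0, fun k x => ?_⟩
    show (if (k % 2 = 0 → x ≠ a (k / 2)) ∧ (k % 2 = 1 → ∀ i ≤ k / 2, x ≠ a i) then (1 : ZMod 2) else 0) = 1 ↔ _
    by_cases h1 : (k % 2 = 0 → x ≠ a (k / 2)) ∧ (k % 2 = 1 → ∀ i ≤ k / 2, x ≠ a i)
    · rw [if_pos h1]
      exact ⟨fun _ => h1, fun _ => rfl⟩
    · rw [if_neg h1]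
      exact ⟨fun h2 => absurd h2 zero_ne_one, fun h2 => absurd h2 h1⟩
  refine ⟨c, 2 * 2 ^ n, F, fun i _ => hall (F i), fun i hi => ?_, 2 * 2 ^ n - 1, ?_, ?_⟩
  · rcases Nat.mod_two_eq_zero_or_one i with h0 | h1
    · obtain ⟨j, hj⟩ := h (a (i / 2))
      refine Or.inl ⟨j, fun x hx => (hF i x).mpr ⟨fun _ h2 => hj (h2 ▸ hx), fun h2 => ?_⟩⟩
      omega
    · rcases Nat.eq_zero_or_pos (i / 2) with h2 | h2
      · refine Or.inr ⟨{i - 1}, by rw [Finset.card_singleton]; omega, ?_, fun x hx => (hF i x).mpr ⟨fun h3 => ?_, fun _ l hl => ?_⟩⟩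
        · intro k hk
          rw [Finset.mem_singleton] at hk
          omega
        · omega
        · have h4 := ((hF (i - 1) x).mp (hx _ (Finset.mem_singleton_self _))).1 (by omega)
          have h5 : (i - 1) / 2 = l := by omega
          rwa [h5] at h4
      · refine Or.inr ⟨{i - 1, i - 2}, (Finset.card_le_two).trans hf, ?_, fun x hx => (hF i x).mpr ⟨fun h3 => ?_, fun _ l hl => ?_⟩⟩
        · intro k hk
          rw [Finset.mem_insert, Finset.mem_singleton] at hk
          omega
        · omega
        · have h4 := ((hF (i - 1) x).mp (hx _ (by simp))).1 (by omega)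
          have h5 := ((hF (i - 2) x).mp (hx _ (by simp))).2 (by omega)
          rcases Nat.lt_or_ge l (i / 2) with h6 | h6
          · exact h5 l (by omega)
          · have h7 : (i - 1) / 2 = l := by omega
            rwa [h7] at h4
  · have := Nat.pos_of_ne_zero (pow_ne_zero n (two_ne_zero : (2 : ℕ) ≠ 0))
    omega
  · intro x
    have hpos := Nat.pos_of_ne_zero (pow_ne_zero n (two_ne_zero : (2 : ℕ) ≠ 0))
    obtain ⟨g, hg, rfl⟩ := ha x
    have h1 : F (2 * 2 ^ n - 1) (a g) ≠ 1 := by
      intro h2
      exact ((hF _ _).mp h2).2 (by omega) g (by omega) rfl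
    have h01 : ∀ t : ZMod 2, t ≠ 1 → t = 0 := by decide
    exact h01 _ h1

end H98DH
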