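import Pool.Agent.H98.DH.FinS
import Pool.Agent.H98.DH.Upp
import Pool.Agent.H98.DH.San

/-!
Final form of the theorem from the master statement (helper98): uniform in the degree `e` and the fan-in `f`.
-/

set_option autoImplicit false
open scoped Classical

namespace H98DH

open Filter

/-- eventual conditions -/
theorem f2_ev (D : ℕ) (K : ℝ) : ∀ᶠ N : ℕ in atTop, 10 ^ 6 * K ≤ Real.log N ∧ 10 ≤ Real.log N ∧
    2 * Real.log N ^ D ≤ (N : ℝ) ^ (1 / 8 : ℝ) ∧ 2 * Real.log N ^ D ≤ (N : ℝ) ^ (1 / 4 : ℝ) ∧ 10 ≤ N ∧ D + 1 ≤ N := by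
  have hlog : Tendsto (fun N : ℕ => Real.log N) atTop atTop :=
    Real.tendsto_log_atTop.comp tendsto_natCast_atTop_atTop
  have h1 : ∀ᶠ N : ℕ in atTop, 10 ^ 6 * K ≤ Real.log N := hlog.eventually_ge_atTop _
  have h2 : ∀ᶠ N : ℕ in atTop, (10 : ℝ) ≤ Real.log N := hlog.eventually_ge_atTop _
  have key : ∀ s : ℝ, 0 < s → ∀ᶠ N : ℕ in atTop, 2 * Real.log N ^ D ≤ (N : ℝ) ^ s := by
    intro s hs
    have h := (isLittleO_log_rpow_rpow_atTop (D : ℝ) hs).bound (show (0 : ℝ) < 1 / 2 by norm_num)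
    have h' := tendsto_natCast_atTop_atTop.eventually h
    filter_upwards [h', h2] with N hN hL
    rw [Real.rpow_natCast, Real.norm_of_nonneg (by positivity), Real.norm_of_nonneg (by positivity)] at hN
    linarith
  filter_upwards [h1, h2, key (1 / 8) (by norm_num), key (1 / 4) (by norm_num), eventually_ge_atTop 10,
    eventually_ge_atTop (D + 1)] with N a b c d e f
  exact ⟨a, b, c, d, e, f⟩

theorem form2 (h : MasterSt) (D : ℕ) (hD : 2 ≤ D) : ∃ c : ℝ, 0 < c ∧ ∃ N0 : ℕ, ∀ N : ℕ, N0 ≤ N →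
    ∃ (n r : ℕ) (Φ : Fin r → Fm n D), n ≤ N ∧ r ≤ N ^ 7 ∧ (∀ j, leaves D (Φ j) ≤ N) ∧
      (∀ x, ∃ j, ¬ Holds D (Φ j) x) ∧
      Refutes (fun j => {x | Holds D (Φ j) x}) 1 (D + 1) 2 (N ^ 9) ∧
      ∀ e f S : ℕ, 1 ≤ e → (e : ℝ) ≤ c * Real.log N → (f : ℝ) ≤ (N : ℝ) ^ (1 / 8 : ℝ) →
        Refutes (fun j => {x | Holds D (Φ j) x}) e D f S →
        Real.exp (c * (Real.log N ^ D / e) ^ (1 / ((D : ℝ) - 1))) ≤ S := by
  obtain ⟨K, rfl⟩ : ∃ K, D = K + 1 := ⟨D - 1, by omega⟩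
  have hK : 1 ≤ K := by omega
  have hK' : (1 : ℝ) ≤ K := by exact_mod_cast hK
  set M0 : ℝ := 8 * (8000 * (K : ℝ)) ^ K with hM0
  have hM1 : 1 ≤ M0 := by
    have : (1 : ℝ) ≤ (8000 * (K : ℝ)) ^ K := one_le_pow₀ (by linarith)
    rw [hM0]
    linarith
  have h20 : (1 : ℝ) ≤ 20 ^ K := one_le_pow₀ (by norm_num)
  have h20' : (20 : ℝ) ≤ 20 ^ K := by
    calc (20 : ℝ) = 20 ^ 1 := by norm_num
      _ ≤ 20 ^ K := pow_le_pow_right₀ (by norm_num) hK
  set c : ℝ := 1 / (M0 * 20 ^ K) with hc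
  have hcp : 0 < c := by positivity
  refine ⟨c, hcp, ?_⟩
  obtain ⟨N0, hN0⟩ := eventually_atTop.mp (f2_ev (K + 1) (K : ℝ))
  refine ⟨N0, fun N hN => ?_⟩
  obtain ⟨e1, e2, e3, e4, e5, e6⟩ := hN0 N hN
  obtain ⟨n, r, Φ, hn, hr, hl, hun, hmain⟩ := h K N hK e1
  refine ⟨n, r, Φ, hn, hr, hl, hun, ?_, ?_⟩
  · -- upper bound
    refine Refutes.mono (by omega) ?_ (upper Φ hl hun)
    have h1 : (K + 1) * N + 1 ≤ N ^ 2 := by nlinarith
    calc r * ((K + 1) * N + 1) ≤ N ^ 7 * N ^ 2 := Nat.mul_le_mul hr h1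
      _ = N ^ 9 := by ring
  · intro e f S he hec hf href
    set L := Real.log N with hL
    have he' : (1 : ℝ) ≤ e := by exact_mod_cast he
    have hLp : 0 < L := by linarith
    have hKp : (0 : ℝ) < K := by linarith
    have hDK : ((K + 1 : ℕ) : ℝ) - 1 = K := by push_cast; ring
    rw [hDK]
    set z : ℝ := (L ^ (K + 1) / e) ^ (1 / (K : ℝ)) with hz
    have hzp : 0 < z := by positivity
    have hzK : z ^ K = L ^ (K + 1) / e := by
      rw [hz, ← Real.rpow_natCast, ← Real.rpow_mul (by positivity), one_div, inv_mul_cancel₀ hKp.ne', Real.rpow_one]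
    set y : ℝ := (1 / M0) ^ (1 / (K : ℝ)) * z with hy
    have hyp : 0 < y := by positivity
    have hyK : y ^ K = L ^ (K + 1) / (e * M0) := by
      rw [hy, mul_pow, hzK, ← Real.rpow_natCast ((1 / M0) ^ (1 / (K : ℝ))), ← Real.rpow_mul (by positivity), one_div (K : ℝ),
        inv_mul_cancel₀ hKp.ne', Real.rpow_one]
      field_simp
    -- `20 L ≤ y`
    have hy20 : 20 * L ≤ y := by
      have h1 : (20 * L) ^ K ≤ y ^ K := by
        rw [hyK, mul_pow, le_div_iff₀ (by positivity)]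
        have h2 : (e : ℝ) * M0 * 20 ^ K ≤ L := by
          have h3 : (e : ℝ) * (M0 * 20 ^ K) ≤ c * L * (M0 * 20 ^ K) :=
            mul_le_mul_of_nonneg_right hec (by positivity)
          have h4 : c * L * (M0 * 20 ^ K) = L := by
            rw [hc]
            field_simp
          nlinarith
        calc 20 ^ K * L ^ K * (e * M0) = (e * M0 * 20 ^ K) * L ^ K := by ring
          _ ≤ L * L ^ K := mul_le_mul_of_nonneg_right h2 (by positivity)
          _ = L ^ (K + 1) := by ring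
      exact le_of_pow_le_pow_left₀ (by omega) hyp.le h1
    have hzy : z ≤ M0 * y := by
      have h1 : (1 : ℝ) / M0 ≤ (1 / M0) ^ (1 / (K : ℝ)) := by
        have h2 : (1 / M0 : ℝ) ^ (1 : ℝ) ≤ (1 / M0) ^ (1 / (K : ℝ)) := by
          apply Real.rpow_le_rpow_of_exponent_ge (by positivity)
          · rw [div_le_one (by positivity)]
            exact hM1
          · rw [div_le_one hKp]
            exact hK'
        rwa [Real.rpow_one] at h2
      rw [hy]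
      calc z = M0 * (1 / M0 * z) := by field_simp
        _ ≤ M0 * ((1 / M0) ^ (1 / (K : ℝ)) * z) := by
          apply mul_le_mul_of_nonneg_left _ (by positivity)
          exact mul_le_mul_of_nonneg_right h1 hzp.le
    have hw1 : ((⌊y⌋₊ : ℕ) : ℝ) ≤ y := Nat.floor_le hyp.le
    have hw2 : y - 1 < ((⌊y⌋₊ : ℕ) : ℝ) := by
      have := Nat.lt_floor_add_one y
      linarith
    have hwK : (e : ℝ) * ((⌊y⌋₊ : ℕ) : ℝ) ^ K * M0 ≤ L ^ (K + 1) := by
      have h1 : ((⌊y⌋₊ : ℕ) : ℝ) ^ K ≤ y ^ K := pow_le_pow_left₀ (Nat.cast_nonneg _) hw1 _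
      calc (e : ℝ) * ((⌊y⌋₊ : ℕ) : ℝ) ^ K * M0 ≤ e * y ^ K * M0 := by gcongr
        _ = L ^ (K + 1) := by
          rw [hyK]
          field_simp
    have hwK' : (e : ℝ) * ((⌊y⌋₊ : ℕ) : ℝ) ^ K ≤ L ^ (K + 1) := by
      have : (0 : ℝ) ≤ (e : ℝ) * ((⌊y⌋₊ : ℕ) : ℝ) ^ K := by positivity
      nlinarith
    have hN1 : (1 : ℝ) ≤ (N : ℝ) ^ (1 / 8 : ℝ) := by
      have : (1 : ℝ) ≤ L ^ (K + 1) := one_le_pow₀ (by linarith)
      linarith
    have hmm := hmain (K + 1) e f S ⌊y⌋₊ (by omega) he (by linarith) (by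
        rw [Nat.add_sub_cancel]
        calc 8 * (e : ℝ) * ((⌊y⌋₊ : ℕ) : ℝ) ^ K * (8000 * (K : ℝ)) ^ K = e * ((⌊y⌋₊ : ℕ) : ℝ) ^ K * M0 := by
              rw [hM0]; ring
          _ ≤ _ := hwK) (by
        rw [Nat.add_sub_cancel]
        have h1 : ((f : ℝ) + 1) ≤ 2 * (N : ℝ) ^ (1 / 8 : ℝ) := by linarith
        have h2 : (N : ℝ) ^ (1 / 8 : ℝ) * (N : ℝ) ^ (1 / 8 : ℝ) = (N : ℝ) ^ (1 / 4 : ℝ) := by
          rw [← Real.rpow_add (by positivity)]
          norm_num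
        calc ((f : ℝ) + 1) * e * ((⌊y⌋₊ : ℕ) : ℝ) ^ K = ((f : ℝ) + 1) * (e * ((⌊y⌋₊ : ℕ) : ℝ) ^ K) := by ring
          _ ≤ (2 * (N : ℝ) ^ (1 / 8 : ℝ)) * (L ^ (K + 1)) := by gcongr
          _ = (N : ℝ) ^ (1 / 8 : ℝ) * (2 * L ^ (K + 1)) := by ring
          _ ≤ (N : ℝ) ^ (1 / 8 : ℝ) * (N : ℝ) ^ (1 / 8 : ℝ) := by gcongr
          _ = _ := h2) href
    -- the minimum
    have hlog1 : (0.45 : ℝ) ≤ Real.log (8 / 5) := by
      rw [Real.le_log_iff_exp_le (by norm_num)]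
      have h := Real.exp_one_lt_d9
      have h7 : Real.exp (0.45 : ℝ) ^ 20 = Real.exp 1 ^ 9 := by
        rw [← Real.exp_nat_mul, ← Real.exp_nat_mul]
        norm_num
      have h8 : Real.exp 1 ^ 9 ≤ (2.7182818286 : ℝ) ^ 9 := pow_le_pow_left₀ (Real.exp_pos _).le h.le _
      have h9 : (2.7182818286 : ℝ) ^ 9 ≤ (8 / 5 : ℝ) ^ 20 := by norm_num
      exact le_of_pow_le_pow_left₀ (n := 20) (by norm_num) (by norm_num) (by rw [h7]; exact h8.trans h9)
    have hlog2 : Real.log (8 / 5) ≤ 1 := by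
      have := Real.log_le_sub_one_of_pos (show (0 : ℝ) < 8 / 5 by norm_num)
      linarith
    have hw8 : ((8 : ℝ) / 5) ^ ⌊y⌋₊ = Real.exp (⌊y⌋₊ * Real.log (8 / 5)) := by
      rw [mul_comm, Real.exp_mul, Real.exp_log (by norm_num), Real.rpow_natCast]
    have hyL : y ≤ L ^ (K + 1) := by
      have h1 : y ^ K ≤ (L ^ (K + 1)) ^ K := by
        rw [hyK]
        have h3 : L ^ (K + 1) / (e * M0) ≤ L ^ (K + 1) := div_le_self (by positivity) (by nlinarith)
        have h4 : (1 : ℝ) ≤ L ^ (K + 1) := one_le_pow₀ (by linarith)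
        calc L ^ (K + 1) / (e * M0) ≤ (L ^ (K + 1)) ^ 1 := by rw [pow_one]; exact h3
          _ ≤ (L ^ (K + 1)) ^ K := pow_le_pow_right₀ h4 hK
      exact le_of_pow_le_pow_left₀ (by omega) (by positivity) h1
    have hmin : ((8 : ℝ) / 5) ^ ⌊y⌋₊ ≤ Real.exp ((N : ℝ) ^ (1 / 4 : ℝ) / 2) := by
      rw [hw8]
      apply Real.exp_le_exp.mpr
      have h1 : (⌊y⌋₊ : ℝ) * Real.log (8 / 5) ≤ y * 1 := by gcongr
      linarith
    rw [min_eq_left hmin, hw8] at hmm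
    have hN0' : (0 : ℝ) < N := by
      have : 0 < N := by omega
      exact_mod_cast this
    have hNe : (N : ℝ) = Real.exp L := (Real.exp_log hN0').symm
    have h5 : 2 * ((N : ℝ) + 1) ≤ Real.exp (L + 2) := by
      rw [Real.exp_add, ← hNe]
      have h6 : (2 : ℝ) ^ 2 ≤ Real.exp 2 := by
        have h7 : Real.exp (2 : ℝ) = Real.exp 1 ^ 2 := by rw [← Real.exp_nat_mul]; norm_num
        rw [h7]
        have := Real.add_one_le_exp (1 : ℝ)
        exact pow_le_pow_left₀ (by norm_num) (by linarith) _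
      have h8 : (10 : ℝ) ≤ N := by exact_mod_cast e5
      nlinarith
    have hS : (0 : ℝ) ≤ S := Nat.cast_nonneg _
    have h9 : Real.exp (⌊y⌋₊ * Real.log (8 / 5)) ≤ Real.exp (L + 2) * S :=
      hmm.trans (mul_le_mul_of_nonneg_right h5 hS)
    have h10 : Real.exp (c * z) * Real.exp (L + 2) ≤ Real.exp (⌊y⌋₊ * Real.log (8 / 5)) := by
      rw [← Real.exp_add]
      apply Real.exp_le_exp.mpr
      have h11 : c * z ≤ y / 20 := by
        have h12 : c * z ≤ c * (M0 * y) := mul_le_mul_of_nonneg_left hzy hcp.le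
        have h13 : c * (M0 * y) = y / 20 ^ K := by
          rw [hc]
          field_simp
        have h14 : y / 20 ^ K ≤ y / 20 := div_le_div_of_nonneg_left hyp.le (by norm_num) h20'
        linarith
      have h15 : (y - 1) * 0.45 ≤ (⌊y⌋₊ : ℝ) * Real.log (8 / 5) := by
        apply mul_le_mul hw2.le hlog1 (by norm_num) (Nat.cast_nonneg _)
      linarith
    have h16 : Real.exp (c * z) * Real.exp (L + 2) ≤ S * Real.exp (L + 2) := by
      rw [mul_comm (S : ℝ)]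
      exact h10.trans h9
    exact le_of_mul_le_mul_right h16 (Real.exp_pos _)

end H98DH
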