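import Mathlib

/-!
ROW FinB (numbers; about 130 lines; pure real inequalities).  PROOF.  Put `ℓ = Real.log N`, so `ℓ ≥ 10^6 * K ≥ 10^6`, `N ≥ 1`, `exp ℓ = N`.
`finB_b`: `ℓ / (2000 K) ≥ 500`, `x - 1 < ⌊x⌋₊` (`Nat.sub_one_lt_floor`), and `x - 1 ≥ x / 2`.
`finB`: put `Y = exp (ℓ / 1000)`, so `Y ^ 1000 = N`, `Y ≥ exp 1000 ≥ 10^6` (`Real.add_one_le_exp` at suitable places) and `ℓ ≤ Y`: indeed `ℓ = 1000 u`, `Y = exp u`, `u ≥ 1000`,
`exp u ≥ u ^ 3 / 27` since `exp (u / 3) ≥ u / 3`, and `u ^ 2 / 27 ≥ 1000`.  `2 * b * K ≤ ℓ / 1000` (`Nat.floor_le`), so `B ≤ Y`;  `b + 2 ≤ ℓ / 2000 + 2 ≤ ℓ / 1000`, so `1 / Y ≤ η`,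
`log (1 / η) ≤ b + 2`.  `n' = N / B * B` satisfies `N - B < n' ≤ N` (`Nat.div_add_mod`, `Nat.mod_lt`), so `N / 2 ≤ n'` and `log n' ≤ ℓ`, `log n' ≥ ℓ - 1`; `m = N / B` satisfies `m ≥ N / B - 1 ≥ N / Y - 1` (real), so
`η * m ≥ (N / Y - 1) / Y = Y ^ 998 - 1 / Y ≥ Y ^ 997`.  (1) `η ≤ (1/2)^b ≤ (1/2)^5`.  (2) `n' ≥ N / 2 ≥ 10^6`.  (3) `640 * (1 + (b + 2)) ≤ 640 * (ℓ / 2000 + 3) ≤ ℓ - 1`.
(4) `sqrt n' ≤ sqrt N = Y ^ 500 ≤ Y ^ 997`.  (5) `(5 ℓ Y + 1) * Y ≤ 5 Y ^ 3 + Y ≤ Y ^ 1000`.  (6) `(N : ℝ) ^ (1/4) = Y ^ 250`, `⌈sqrt N⌉₊ ≤ Y ^ 500 + 1`; if `W ≤ Y ^ 250` then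
`W * ⌈..⌉₊ ≤ 2 * Y ^ 750` (if `W < 0` the product is `≤ 0`), and `2 * Y ^ 750 + 5 * Y ^ 2 + 3 ≤ 4 * Y ^ 750 < 0.4 * Y ^ 997`.
-/

set_option autoImplicit false

namespace H98DH

theorem finB_b {K N : ℕ} (hK : 1 ≤ K) (hN : 10 ^ 6 * (K : ℝ) ≤ Real.log N) :
    499 ≤ ⌊Real.log N / (2000 * K)⌋₊ ∧ Real.log N / (4000 * K) ≤ ⌊Real.log N / (2000 * K)⌋₊ := by
  have hK' : (1 : ℝ) ≤ K := by exact_mod_cast hK
  have h1 : (500 : ℝ) ≤ Real.log N / (2000 * K) := by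
    rw [le_div_iff₀ (by positivity)]
    nlinarith
  constructor
  · rw [Nat.le_floor_iff (by linarith)]
    have : ((499 : ℕ) : ℝ) = 499 := by norm_num
    rw [this]
    linarith
  · have h2 := Nat.sub_one_lt_floor (Real.log N / (2000 * K))
    have h3 : Real.log N / (4000 * K) = Real.log N / (2000 * K) / 2 := by
      rw [div_div]
      congr 1
      ring
    rw [h3]
    linarith

private theorem finB_Y {N : ℕ} (hN : 10 ^ 6 ≤ Real.log N) :
    ∃ Y : ℝ, 10 ^ 6 ≤ Y ∧ Y ^ 1000 = N ∧ Real.log N ≤ Y ∧ Y = Real.exp (Real.log N / 1000) := by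
  have hN0 : (0 : ℝ) < N := by
    rcases Nat.eq_zero_or_pos N with h | h
    · rw [h] at hN
      simp at hN
      linarith
    · exact_mod_cast h
  refine ⟨_, ?_, ?_, ?_, rfl⟩
  · have := Real.add_one_le_exp (Real.log N / 1000 / 3)
    have h2 : Real.exp (Real.log N / 1000) = Real.exp (Real.log N / 1000 / 3) ^ 3 := by
      rw [← Real.exp_nat_mul]
      congr 1
      push_cast
      ring
    rw [h2]
    have h3 : (333 : ℝ) ≤ Real.exp (Real.log N / 1000 / 3) := by linarith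
    calc (10 : ℝ) ^ 6 ≤ 333 ^ 3 := by norm_num
      _ ≤ _ := pow_le_pow_left₀ (by norm_num) h3 3
  · rw [← Real.exp_nat_mul]
    have : ((1000 : ℕ) : ℝ) * (Real.log N / 1000) = Real.log N := by
      push_cast
      ring
    rw [this, Real.exp_log hN0]
  · have := Real.add_one_le_exp (Real.log N / 1000 / 3)
    have h2 : Real.exp (Real.log N / 1000) = Real.exp (Real.log N / 1000 / 3) ^ 3 := by
      rw [← Real.exp_nat_mul]
      congr 1
      push_cast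
      ring
    rw [h2]
    set z := Real.log N / 1000 / 3 with hz
    have hlog : Real.log N = 3000 * z := by rw [hz]; ring
    have hz3 : 333 ≤ z := by rw [hz]; linarith
    rw [hlog]
    have h4 : z ≤ Real.exp z := by linarith
    have h5 : z ^ 3 ≤ Real.exp z ^ 3 := pow_le_pow_left₀ (by linarith) h4 3
    have h7 : 3000 ≤ z * z := by nlinarith
    have h6 : 3000 * z ≤ z ^ 3 := by
      calc 3000 * z ≤ z * z * z := mul_le_mul_of_nonneg_right h7 (by linarith)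
        _ = z ^ 3 := by ring
    linarith

theorem finB {K N B b : ℕ} {η : ℝ} (hK : 1 ≤ K) (hN : 10 ^ 6 * (K : ℝ) ≤ Real.log N)
    (hb : b = ⌊Real.log N / (2000 * K)⌋₊) (hB : 1 ≤ B) (hB2 : (B : ℝ) ≤ Real.exp (2 * b * K))
    (hη1 : Real.exp (-((b : ℝ) + 2)) ≤ η) (hη2 : η ≤ (1 / 2 : ℝ) ^ b) :
    0 < η ∧ η ≤ 1 / 20 ∧ 10 ^ 6 ≤ N / B * B ∧
    640 * (1 + Real.log (1 / η)) ≤ Real.log ((N / B * B : ℕ) : ℝ) ∧
    Real.sqrt ((N / B * B : ℕ) : ℝ) ≤ η * ((N / B : ℕ) : ℝ) ∧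
    (5 * Real.log N / η + 1) * B ≤ N ∧
    ∀ W : ℝ, W ≤ (N : ℝ) ^ (1 / 4 : ℝ) →
      W * (⌈Real.sqrt N⌉₊ : ℝ) + (5 * Real.log N / η + 1) + 2 < 0.4 * η * ((N / B : ℕ) : ℝ) := by
  have hK' : (1 : ℝ) ≤ K := by exact_mod_cast hK
  have hN6 : (10 : ℝ) ^ 6 ≤ Real.log N := by
    refine le_trans ?_ hN
    nlinarith
  obtain ⟨Y, hY6, hYN, hlY, hYe⟩ := finB_Y hN6
  have hb499 := (finB_b hK hN).1
  rw [← hb] at hb499
  have hbf : (b : ℝ) ≤ Real.log N / (2000 * K) := by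
    rw [hb]
    exact Nat.floor_le (by positivity)
  have hbK : 2 * (b : ℝ) * K ≤ Real.log N / 1000 := by
    rw [le_div_iff₀ (by positivity)] at hbf
    rw [le_div_iff₀ (by norm_num)]
    linarith
  have hb2 : (b : ℝ) ≤ Real.log N / 2000 := by
    rw [le_div_iff₀ (by norm_num)]
    rw [le_div_iff₀ (by norm_num)] at hbK
    have hb0 : (0 : ℝ) ≤ b := by positivity
    nlinarith
  have hBY : (B : ℝ) ≤ Y := by
    rw [hYe]
    exact le_trans hB2 (Real.exp_le_exp.2 hbK)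
  have hY0 : (0 : ℝ) < Y := by linarith [show (0 : ℝ) < 10 ^ 6 by norm_num]
  have hY1 : (1 : ℝ) ≤ Y := by linarith [show (1 : ℝ) ≤ 10 ^ 6 by norm_num]
  have hη0 : 0 < η := lt_of_lt_of_le (Real.exp_pos _) hη1
  have hηY : 1 / Y ≤ η := by
    refine le_trans ?_ hη1
    rw [hYe, one_div, ← Real.exp_neg]
    refine Real.exp_le_exp.2 ?_
    linarith
  have h1η : 1 / η ≤ Y := by
    rw [div_le_iff₀ hη0]
    rw [div_le_iff₀ hY0] at hηY
    linarith
  have hlogη : Real.log (1 / η) ≤ b + 2 := by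
    rw [one_div, Real.log_inv]
    have := (Real.le_log_iff_exp_le hη0).2 hη1
    linarith
  have hη20 : η ≤ 1 / 32 := by
    refine le_trans hη2 ?_
    calc (1 / 2 : ℝ) ^ b ≤ (1 / 2) ^ 5 := pow_le_pow_of_le_one (by norm_num) (by norm_num) (by omega)
      _ = 1 / 32 := by norm_num
  have hBp : (1 : ℝ) ≤ B := by exact_mod_cast hB
  -- the number n'
  have hdiv : N / B * B + N % B = N := by
    rw [mul_comm]
    exact Nat.div_add_mod N B
  have hmod : N % B < B := Nat.mod_lt _ hB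
  have hn1 : (N : ℝ) - Y ≤ ((N / B * B : ℕ) : ℝ) := by
    have h1 : ((N / B * B : ℕ) : ℝ) + ((N % B : ℕ) : ℝ) = N := by exact_mod_cast hdiv
    have h2 : ((N % B : ℕ) : ℝ) ≤ B := by exact_mod_cast hmod.le
    linarith
  have hn2 : ((N / B * B : ℕ) : ℝ) ≤ N := by exact_mod_cast Nat.div_mul_le_self N B
  have hm : (N : ℝ) / Y - 1 ≤ ((N / B : ℕ) : ℝ) := by
    have h1 : (N : ℝ) / B - 1 ≤ ((N / B : ℕ) : ℝ) := by
      have h2 : N < B * (N / B + 1) := Nat.lt_mul_div_succ N hB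
      have h3 : (N : ℝ) < B * (((N / B : ℕ) : ℝ) + 1) := by exact_mod_cast h2
      have h4 : (N : ℝ) / B ≤ ((N / B : ℕ) : ℝ) + 1 := by
        rw [div_le_iff₀ (by linarith)]
        linarith
      linarith
    have h5 : (N : ℝ) / Y ≤ N / B := div_le_div_of_nonneg_left (by positivity) (by linarith) hBY
    linarith
  have hpow : ∀ i j : ℕ, i ≤ j → Y ^ i ≤ Y ^ j := fun i j hij => pow_le_pow_right₀ hY1 hij
  have hYsq : Y * 10 ^ 6 ≤ Y ^ 2 := by nlinarith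
  have hmul : ∀ i : ℕ, 10 ^ 6 * Y ^ i ≤ Y ^ (i + 1) := by
    intro i
    calc 10 ^ 6 * Y ^ i ≤ Y * Y ^ i := mul_le_mul_of_nonneg_right hY6 (by positivity)
      _ = Y ^ (i + 1) := by ring
  have h999 : (N : ℝ) / Y = Y ^ 999 := by
    rw [← hYN, div_eq_iff hY0.ne', ← pow_succ]
  rw [h999] at hm
  generalize hmm : ((N / B : ℕ) : ℝ) = m at *
  generalize hnn : ((N / B * B : ℕ) : ℝ) = n' at *
  have hY2 : 2 * Y ≤ N := by
    rw [← hYN]
    have h1 := hmul 1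
    have h2 := hpow 2 1000 (by norm_num)
    rw [pow_one] at h1
    linarith
  have hn3 : (N : ℝ) / 2 ≤ n' := by linarith
  have hN0 : (0 : ℝ) < N := by linarith
  have hlog1 : Real.log N - 1 ≤ Real.log n' := by
    have h1 : Real.log ((N : ℝ) / 2) ≤ Real.log n' := Real.log_le_log (by linarith) hn3
    rw [Real.log_div hN0.ne' (by norm_num)] at h1
    have h2 : Real.log 2 ≤ 1 := by linarith [Real.log_two_lt_d9]
    linarith
  have hlog2 : Real.log n' ≤ Y := le_trans (Real.log_le_log (by linarith) hn2) hlY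
  have hlog0 : 0 ≤ Real.log n' := by linarith [show (1 : ℝ) ≤ 10 ^ 6 by norm_num]
  have hηm : Y ^ 997 ≤ η * m := by
    have h1 : Y ^ 998 ≤ m := by
      have h2 := hmul 998
      have h3 : (1 : ℝ) ≤ Y ^ 998 := one_le_pow₀ hY1
      have h4 : Y ^ (998 + 1) = Y ^ 999 := rfl
      rw [h4] at h2
      linarith
    calc Y ^ 997 = 1 / Y * Y ^ 998 := by
          rw [pow_succ Y 997]
          field_simp
      _ ≤ η * m := mul_le_mul hηY h1 (by positivity) hη0.le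
  have hlogN0 : 0 ≤ Real.log N := by linarith [show (0 : ℝ) ≤ 10 ^ 6 by norm_num]
  have h5 : 5 * Real.log N / η ≤ 5 * Y ^ 2 := by
    rw [div_eq_mul_one_div]
    have : 5 * Real.log N * (1 / η) ≤ 5 * Y * Y :=
      mul_le_mul (by linarith) h1η (by positivity) (by positivity)
    linarith
  refine ⟨hη0, by linarith, ?_, ?_, ?_, ?_, ?_⟩
  · have h1 : (10 : ℝ) ^ 6 ≤ n' := by
      have h2 := hmul 1
      have h3 := hpow 2 1000 (by norm_num)
      rw [hYN] at h3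
      rw [pow_one] at h2
      have : (10 : ℝ) ^ 6 * Y ≤ N := le_trans h2 h3
      linarith
    rw [← hnn] at h1
    exact_mod_cast h1
  · linarith
  · refine le_trans ?_ hηm
    calc Real.sqrt n' ≤ Real.sqrt N := Real.sqrt_le_sqrt hn2
      _ = Y ^ 500 := by
        rw [← hYN]
        have : Y ^ 1000 = (Y ^ 500) ^ 2 := by rw [← pow_mul]
        rw [this, Real.sqrt_sq (by positivity)]
      _ ≤ Y ^ 997 := hpow _ _ (by norm_num)
  · calc (5 * Real.log N / η + 1) * B ≤ (5 * Y ^ 2 + 1) * Y :=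
        mul_le_mul (by linarith) hBY (by linarith) (by positivity)
      _ ≤ Y ^ 4 := by
        have h1 := hmul 3
        have h2 := hpow 1 3 (by norm_num)
        rw [pow_one] at h2
        have h3 : (5 * Y ^ 2 + 1) * Y = 5 * Y ^ 3 + Y := by ring
        rw [h3]
        have h4 : Y ^ (3 + 1) = Y ^ 4 := rfl
        rw [h4] at h1
        have h6 : (0 : ℝ) ≤ Y ^ 3 := by positivity
        linarith
      _ ≤ N := by
        rw [← hYN]
        exact hpow _ _ (by norm_num)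
  · intro W hW
    have hq : (N : ℝ) ^ (1 / 4 : ℝ) = Y ^ 250 := by
      rw [← hYN, ← Real.rpow_natCast Y 1000, ← Real.rpow_mul hY0.le, ← Real.rpow_natCast Y 250]
      congr 1
      norm_num
    rw [hq] at hW
    have hs : Real.sqrt N = Y ^ 500 := by
      rw [← hYN]
      have : Y ^ 1000 = (Y ^ 500) ^ 2 := by rw [← pow_mul]
      rw [this, Real.sqrt_sq (by positivity)]
    have hceil : (⌈Real.sqrt N⌉₊ : ℝ) ≤ 2 * Y ^ 500 := by
      rw [hs]
      have h1 := Nat.ceil_lt_add_one (a := Y ^ 500) (by positivity)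
      have h2 : (1 : ℝ) ≤ Y ^ 500 := one_le_pow₀ hY1
      linarith
    have hceil0 : (0 : ℝ) ≤ (⌈Real.sqrt N⌉₊ : ℝ) := by positivity
    have hprod : W * (⌈Real.sqrt N⌉₊ : ℝ) ≤ 2 * Y ^ 750 := by
      have h1 : W * (⌈Real.sqrt N⌉₊ : ℝ) ≤ Y ^ 250 * (⌈Real.sqrt N⌉₊ : ℝ) :=
        mul_le_mul_of_nonneg_right hW hceil0
      have h2 : Y ^ 250 * (⌈Real.sqrt N⌉₊ : ℝ) ≤ Y ^ 250 * (2 * Y ^ 500) :=
        mul_le_mul_of_nonneg_left hceil (by positivity)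
      have h3 : Y ^ 250 * (2 * Y ^ 500) = 2 * Y ^ 750 := by
        rw [mul_left_comm, ← pow_add]
      linarith
    have h750 : (1 : ℝ) ≤ Y ^ 750 := one_le_pow₀ hY1
    have h2 : Y ^ 2 ≤ Y ^ 750 := hpow _ _ (by norm_num)
    have h997 : 10 ^ 6 * Y ^ 750 ≤ Y ^ 997 := le_trans (hmul 750) (hpow _ _ (by norm_num))
    have hfin : 0.4 * η * m = 0.4 * (η * m) := by ring
    rw [hfin]
    have : (0.4 : ℝ) * Y ^ 997 ≤ 0.4 * (η * m) := mul_le_mul_of_nonneg_left hηm (by norm_num)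
    nlinarith

end H98DH
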