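import Pool.Agent.H98.DH.Defs

/-!
ROW FinC (the constraints are formulas of depth `K + 1`; about 60 lines).  PROOF.  For `i : Fin t` let `φ i` be the formula of `hφ` for `n = m * B`, `ρ l = finProdFinEquiv ((ω j i).1, l)`,
`σ = (ω j i).2` (so `fun l => x (ρ l)` is `sub x (ω j i).1` by definition).  Take `ψ = List.ofFn φ`.  `Holds (K + 1) ψ x` unfolds to `¬ ∀ χ ∈ List.ofFn φ, Holds K χ x`
(`List.mem_ofFn`, `List.forall_mem_ofFn_iff`), i.e. for some `i` not `Holds K (φ i) x`.  `leaves (K + 1) ψ` is the sum of the list `List.map (leaves K) (List.ofFn φ)`, which is constant `B`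
(`List.map_ofFn`, `List.sum_ofFn`).
`card_SB`: `Finset.card_image_le`.
-/

set_option autoImplicit false
open scoped Classical

namespace H98DH

theorem card_SB {r t m B : ℕ} (ω : Sys r t m B) (j : Fin r) : (SB ω j).card ≤ t := by
  unfold SB
  refine Finset.card_image_le.trans ?_
  rw [Finset.card_univ, Fintype.card_fin]

theorem cons_formula {r t m B K : ℕ} {A : Set (Fin B → ZMod 2)}
    (hφ : ∀ (n : ℕ) (ρ : Fin B → Fin n) (σ : Fin B → ZMod 2), ∃ φ : Fm n K,
      (∀ x, Holds K φ x ↔ ¬ ((fun l => x (ρ l)) + σ ∈ A)) ∧ leaves K φ = B)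
    (ω : Sys r t m B) (j : Fin r) :
    ∃ ψ : Fm (m * B) (K + 1), (∀ x, Holds (K + 1) ψ x ↔ x ∈ CB A ω j) ∧ leaves (K + 1) ψ = t * B := by
  choose φ h1 h2 using fun i : Fin t => hφ (m * B) (fun l => finProdFinEquiv ((ω j i).1, l)) (ω j i).2
  refine ⟨(show List (Fm (m * B) K) from List.ofFn φ), ?_, ?_⟩
  · intro x
    have h3 : Holds (K + 1) (show List (Fm (m * B) K) from List.ofFn φ) x ↔
        ¬ ∀ χ ∈ List.ofFn φ, Holds K χ x := Iff.rfl
    have h5 : x ∈ CB A ω j ↔ ∃ i, sub x (ω j i).1 + (ω j i).2 ∈ A := Iff.rfl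
    rw [h3, h5]
    constructor
    · intro h4
      by_contra hcon
      apply h4
      intro χ hχ
      obtain ⟨i, rfl⟩ := (List.mem_ofFn' φ χ).1 hχ
      exact (h1 i x).2 fun h6 => hcon ⟨i, h6⟩
    · rintro ⟨i, hi⟩ h4
      have h6 := h4 (φ i) ((List.mem_ofFn' φ (φ i)).2 ⟨i, rfl⟩)
      exact (h1 i x).1 h6 hi
  · have h3 : leaves (K + 1) (show List (Fm (m * B) K) from List.ofFn φ) =
        ((List.ofFn φ).map (leaves K)).sum := rfl
    rw [h3, List.map_ofFn, List.sum_ofFn]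
    have h4 : ∀ i ∈ (Finset.univ : Finset (Fin t)), (leaves K ∘ φ) i = B := fun i _ => h2 i
    rw [Finset.sum_congr rfl h4, Finset.sum_const, Finset.card_univ, Fintype.card_fin,
      smul_eq_mul]

end H98DH
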