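import Mathlib

/-!
ROW FinE (numbers; about 110 lines; pure real inequalities).  PROOF.  Put `ℓ = Real.log N ≥ 10^6`, `exp ℓ = N`, `γ = 2 ^ K / (4 * b ^ K) = (2 / b) ^ K / 4`, so `0 < γ ≤ 1 / 40` (`b ≥ 20`, `K ≥ 1`: `(2 / b) ^ K ≤ 2 / b`).
`0 < q < 1` and `q / (1 + q) = 1 / 2 - γ`: `field_simp`.  `q ≥ 1 - 4 γ ≥ exp (-8 γ)`: the first by clearing denominators; the second from `exp (-x) ≤ 1 / (1 + x)` (`Real.add_one_le_exp`) with `x = 8 γ ≤ 1`:
`(1 - 4 γ) * (1 + 8 γ) = 1 + 4 γ - 32 γ ^ 2 ≥ 1`.  So `q ^ j ≥ exp (-8 γ j)` for every `j : ℕ` (`Real.exp_nat_mul`).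
(X) `8 * γ * (e * w ^ (D - 1)) ≤ ℓ / 4`: from `b ≥ ℓ / (4000 K)`: `2 / b ≤ 8000 K / ℓ`, so `γ ≤ (8000 K / ℓ) ^ K / 4`, and `8 * e * w ^ (D - 1) * (8000 K) ^ K ≤ ℓ ^ (K + 1)` gives
`8 * γ * e * w ^ (D - 1) ≤ 2 * e * w ^ (D - 1) * (8000 K) ^ K / ℓ ^ K ≤ ℓ / 4`.
(Y) for `k + 1 < D`: `w ^ k * w ≤ w ^ (D - 1)` (`w ≥ 1`), so `8 * γ * (e * w ^ k) ≤ (ℓ / 4) / w ≤ 1 / 4`, `q ^ (e * w ^ k) ≥ exp (-1/4) ≥ 3 / 4` (`1 - 1/4 ≤ exp (-1/4)`); so `1 - q ^ _ / 2 ≤ 5 / 8`, and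
`0 ≤ 1 - q ^ _ / 2` since `q ^ _ ≤ 1`; `pow_le_pow_left₀`.
(Z) `q ^ (e * w ^ (D - 1)) ≥ exp (-ℓ / 4)`; `1 - x ≤ exp (-x)` (`Real.one_sub_le_exp_neg`), so the power is at most `exp (-⌈sqrt N⌉₊ * exp (-ℓ / 4) / 2) ≤ exp (- exp (ℓ / 4) / 2)` since `⌈sqrt N⌉₊ ≥ sqrt N = exp (ℓ / 2)`;
and `(N : ℝ) ^ (1/4) = exp (ℓ / 4)` (`Real.rpow_def_of_pos`).
-/

set_option autoImplicit false

namespace H98DH

theorem finE {K N b : ℕ} (hK : 1 ≤ K) (hN : 10 ^ 6 * (K : ℝ) ≤ Real.log N) (hb : 20 ≤ b)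
    (hb2 : Real.log N / (4000 * K) ≤ b) {q : ℝ}
    (hq : q = (1 - 2 * (2 ^ K / (4 * (b : ℝ) ^ K))) / (1 + 2 * (2 ^ K / (4 * (b : ℝ) ^ K)))) :
    0 < q ∧ q < 1 ∧ q / (1 + q) = 1 / 2 - 2 ^ K / (4 * (b : ℝ) ^ K) ∧
    ∀ D e w : ℕ, 2 ≤ D → 1 ≤ e → Real.log N ≤ w →
      8 * e * (w : ℝ) ^ (D - 1) * (8000 * K) ^ K ≤ Real.log N ^ (K + 1) →
      (∀ k, k + 1 < D → (1 - q ^ (e * w ^ k) / 2) ^ w ≤ (5 / 8 : ℝ) ^ w) ∧
      (1 - q ^ (e * w ^ (D - 1)) / 2) ^ ⌈Real.sqrt N⌉₊ ≤ Real.exp (-((N : ℝ) ^ (1 / 4 : ℝ) / 2)) := by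
  obtain ⟨l, hl⟩ : ∃ l, l = Real.log N := ⟨_, rfl⟩
  obtain ⟨g, hg⟩ : ∃ g : ℝ, g = 2 ^ K / (4 * (b : ℝ) ^ K) := ⟨_, rfl⟩
  rw [← hl] at hN hb2
  rw [← hg] at hq
  rw [← hl, ← hg]
  have hKR : (1 : ℝ) ≤ K := by exact_mod_cast hK
  have hl0 : (1000000 : ℝ) ≤ l := by
    have h1 : (10 : ℝ) ^ 6 * 1 ≤ 10 ^ 6 * K := mul_le_mul_of_nonneg_left hKR (by norm_num)
    norm_num at h1 hN ⊢
    linarith
  have hlpos : 0 < l := by linarith
  have hNpos : (0 : ℝ) < N := by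
    rcases Nat.eq_zero_or_pos N with h | h
    · exfalso
      rw [h, Nat.cast_zero, Real.log_zero] at hl
      linarith
    · exact_mod_cast h
  have hNexp : Real.exp l = N := by rw [hl, Real.exp_log hNpos]
  have hbR : (20 : ℝ) ≤ b := by exact_mod_cast hb
  have hbpos : (0 : ℝ) < b := by linarith
  have hgeq : g = (2 / b) ^ K / 4 := by
    rw [hg, div_pow]
    field_simp
  have h2b : (0 : ℝ) < 2 / b := by positivity
  have hgpos : 0 < g := by
    rw [hgeq]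
    positivity
  have hg40 : g ≤ 1 / 40 := by
    have h1 : (2 / b : ℝ) ≤ 1 / 10 := by
      rw [div_le_div_iff₀ hbpos (by norm_num)]
      linarith
    have h2 : (2 / b : ℝ) ^ K ≤ (2 / b : ℝ) ^ 1 :=
      pow_le_pow_of_le_one h2b.le (by linarith) hK
    rw [pow_one] at h2
    rw [hgeq]
    linarith
  have h12 : (0 : ℝ) < 1 + 2 * g := by linarith
  have hq0 : 0 < q := by
    rw [hq]
    exact div_pos (by linarith) h12
  have hq1 : q < 1 := by
    rw [hq, div_lt_one h12]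
    linarith
  have hq4 : 1 - 4 * g ≤ q := by
    rw [hq, le_div_iff₀ h12]
    nlinarith
  have hexp8 : Real.exp (-(8 * g)) ≤ q := by
    refine le_trans ?_ hq4
    have h1 : 1 + 8 * g ≤ Real.exp (8 * g) := by
      have := Real.add_one_le_exp (8 * g)
      linarith
    have h2 : (0 : ℝ) < 1 + 8 * g := by linarith
    rw [Real.exp_neg]
    have h3 : (Real.exp (8 * g))⁻¹ ≤ (1 + 8 * g)⁻¹ := inv_anti₀ h2 h1
    refine h3.trans ?_
    rw [inv_le_iff_one_le_mul₀ h2]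
    nlinarith
  have hqj : ∀ j : ℕ, Real.exp (-(8 * g * j)) ≤ q ^ j := by
    intro j
    have h1 : Real.exp (-(8 * g * j)) = Real.exp (-(8 * g)) ^ j := by
      rw [← Real.exp_nat_mul]
      congr 1
      ring
    rw [h1]
    exact pow_le_pow_left₀ (Real.exp_pos _).le hexp8 j
  refine ⟨hq0, hq1, ?_, ?_⟩
  · have h1 : 1 + q = 2 / (1 + 2 * g) := by
      rw [hq]
      field_simp
      ring
    rw [h1, hq]
    field_simp
  · intro D e w hD he hw hmain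
    have hw0 : (0 : ℝ) < w := by linarith
    have heR : (1 : ℝ) ≤ e := by exact_mod_cast he
    have hw1 : 1 ≤ w := by
      have : (1 : ℝ) ≤ w := by linarith
      exact_mod_cast this
    have hw1R : (1 : ℝ) ≤ w := by exact_mod_cast hw1
    -- (X)
    have hX : 8 * g * (e * (w : ℝ) ^ (D - 1)) ≤ l / 4 := by
      have h1 : (2 / b : ℝ) ≤ 8000 * K / l := by
        rw [div_le_div_iff₀ hbpos hlpos]
        rw [div_le_iff₀ (by positivity)] at hb2
        linarith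
      have h2 : (2 / b : ℝ) ^ K ≤ (8000 * K / l) ^ K := pow_le_pow_left₀ h2b.le h1 K
      have h3 : g ≤ (8000 * K) ^ K / l ^ K / 4 := by
        rw [hgeq, ← div_pow]
        linarith
      have h4 : (0 : ℝ) ≤ 8 * (e * (w : ℝ) ^ (D - 1)) := by positivity
      have h5 : 8 * g * (e * (w : ℝ) ^ (D - 1)) ≤ 8 * (e * (w : ℝ) ^ (D - 1)) * ((8000 * K) ^ K / l ^ K / 4) := by
        have := mul_le_mul_of_nonneg_left h3 h4
        linarith
      refine h5.trans ?_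
      have hlK : (0 : ℝ) < l ^ K := by positivity
      have h6 : 8 * (e * (w : ℝ) ^ (D - 1)) * ((8000 * K) ^ K / l ^ K / 4) =
          (8 * e * (w : ℝ) ^ (D - 1) * (8000 * K) ^ K) / (4 * l ^ K) := by
        field_simp
      rw [h6, div_le_iff₀ (by positivity)]
      have h7 : l / 4 * (4 * l ^ K) = l ^ (K + 1) := by
        rw [pow_succ]
        ring
      rw [h7]
      have h8 : Real.log N ^ (K + 1) = l ^ (K + 1) := by rw [hl]
      exact hmain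
    have hle1 : ∀ j : ℕ, q ^ j ≤ 1 := fun j => pow_le_one₀ hq0.le hq1.le
    constructor
    · intro k hk
      have h1 : (w : ℝ) ^ k * w ≤ (w : ℝ) ^ (D - 1) := by
        rw [← pow_succ]
        exact pow_le_pow_right₀ hw1R (by omega)
      have h2 : 8 * g * (e * (w : ℝ) ^ k) * w ≤ l / 4 := by
        refine le_trans ?_ hX
        have h3 : (0 : ℝ) ≤ 8 * g * e := by positivity
        have := mul_le_mul_of_nonneg_left h1 h3
        linarith
      have h3 : 8 * g * (e * (w : ℝ) ^ k) ≤ 1 / 4 := by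
        by_contra hcon
        push Not at hcon
        have h4 : 1 / 4 * (w : ℝ) < 8 * g * (e * (w : ℝ) ^ k) * w := mul_lt_mul_of_pos_right hcon hw0
        linarith
      have h5 := hqj (e * w ^ k)
      have h6 : (3 / 4 : ℝ) ≤ q ^ (e * w ^ k) := by
        refine le_trans ?_ h5
        push_cast
        have h7 := Real.add_one_le_exp (-(8 * g * (e * (w : ℝ) ^ k)))
        linarith
      have h8 : 0 ≤ 1 - q ^ (e * w ^ k) / 2 := by
        have := hle1 (e * w ^ k)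
        linarith
      exact pow_le_pow_left₀ h8 (by linarith) w
    · have h1 := hqj (e * w ^ (D - 1))
      have h2 : Real.exp (-(l / 4)) ≤ q ^ (e * w ^ (D - 1)) := by
        refine le_trans ?_ h1
        rw [Real.exp_le_exp]
        push_cast
        linarith
      have h3 : 0 ≤ 1 - q ^ (e * w ^ (D - 1)) / 2 := by
        have := hle1 (e * w ^ (D - 1))
        linarith
      have h4 : 1 - q ^ (e * w ^ (D - 1)) / 2 ≤ Real.exp (-(Real.exp (-(l / 4)) / 2)) := by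
        have h5 := Real.one_sub_le_exp_neg (Real.exp (-(l / 4)) / 2)
        linarith
      refine (pow_le_pow_left₀ h3 h4 _).trans ?_
      rw [← Real.exp_nat_mul, Real.exp_le_exp]
      have h6 : Real.exp (l / 2) ≤ (⌈Real.sqrt N⌉₊ : ℝ) := by
        refine le_trans ?_ (Nat.le_ceil _)
        refine Real.le_sqrt_of_sq_le ?_
        rw [← Real.exp_nat_mul, ← hNexp, Real.exp_le_exp]
        push_cast
        linarith
      have h7 : (N : ℝ) ^ (1 / 4 : ℝ) = Real.exp (l / 4) := by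
        rw [Real.rpow_def_of_pos hNpos, ← hl]
        congr 1
        ring
      rw [h7]
      have h8 : Real.exp (l / 4) = Real.exp (l / 2) * Real.exp (-(l / 4)) := by
        rw [← Real.exp_add]
        congr 1
        ring
      have h9 : Real.exp (l / 2) * Real.exp (-(l / 4)) ≤ (⌈Real.sqrt N⌉₊ : ℝ) * Real.exp (-(l / 4)) :=
        mul_le_mul_of_nonneg_right h6 (Real.exp_pos _).le
      rw [h8]
      linarith

end H98DH
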