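import Pool.Agent.H98.DH.FinS
import Pool.Agent.H98.DH.FinB
import Pool.Agent.H98.DH.FinE
import Pool.Agent.H98.DH.BR

/-!
Assembly (helper43): `TribesSt → MasterSt`.
-/

set_option autoImplicit false
open scoped Classical

namespace H98DH

open H96RE H91RE

theorem master (hT : TribesSt) : MasterSt := by
  intro K N hK hN
  obtain ⟨b, hb⟩ : ∃ b, b = ⌊Real.log N / (2000 * K)⌋₊ := ⟨_, rfl⟩
  obtain ⟨hb1, hb2⟩ := finB_b hK hN
  rw [← hb] at hb1 hb2
  obtain ⟨B, A, L, hB1, hB2, hG, hAu, hη1, hη2, hη3, hφ⟩ := hT K b hK (by omega)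
  obtain ⟨q, hq⟩ : ∃ q : ℝ, q = (1 - 2 * (2 ^ K / (4 * (b : ℝ) ^ K))) / (1 + 2 * (2 ^ K / (4 * (b : ℝ) ^ K))) := ⟨_, rfl⟩
  obtain ⟨hq0, hq1, hqp, hE⟩ := finE hK hN (by omega : 20 ≤ b) hb2 hq
  obtain ⟨hη0, h20, h6, h640, hsqrt, hleaf, hdeg⟩ := finB hK hN hb hB1 hB2 hη1 hη2
  rw [← hqp] at hη3
  have hlogN : (10 : ℝ) ^ 6 ≤ Real.log N := by
    have h1 : (1 : ℝ) ≤ K := by exact_mod_cast hK
    nlinarith
  have hN1 : (1 : ℝ) < N := by
    by_contra h
    push Not at h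
    have h1 : Real.log N ≤ 0 := Real.log_nonpos (Nat.cast_nonneg N) h
    linarith
  have hle : N / B * B ≤ N := Nat.div_mul_le_self N B
  have hleR : ((N / B * B : ℕ) : ℝ) ≤ (N : ℝ) := by exact_mod_cast hle
  have hmle : ((N / B : ℕ) : ℝ) ≤ (N : ℝ) := by exact_mod_cast Nat.div_le_self N B
  have h640' : 640 * (1 + Real.log (1 / wt (1 / 2) L)) ≤ Real.log N := by
    refine le_trans h640 (Real.log_le_log ?_ hleR)
    have h1 : (0 : ℕ) < N / B * B := by omega
    exact_mod_cast h1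
  have h1000 : 1000 ≤ wt (1 / 2) L * ((N / B : ℕ) : ℝ) := by
    refine le_trans (Real.le_sqrt_of_sq_le ?_) hsqrt
    have h1 : (10 ^ 6 : ℝ) ≤ ((N / B * B : ℕ) : ℝ) := by exact_mod_cast h6
    linarith
  obtain ⟨t, ht⟩ : ∃ t, t = ⌈5 * Real.log N / wt (1 / 2) L⌉₊ := ⟨_, rfl⟩
  obtain ⟨r, hr⟩ : ∃ r, r = ⌈(N : ℝ) / (1 - wt (1 / 2) L) ^ t⌉₊ := ⟨_, rfl⟩
  have ht' : (t : ℝ) ≤ 5 * Real.log N / wt (1 / 2) L + 1 := by
    rw [ht]
    exact (Nat.ceil_lt_add_one (by positivity)).le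
  have hr7 : (r : ℝ) ≤ (N : ℝ) ^ 7 := (num_r (by linarith) hη0 h20 (by linarith) ht hr).2
  obtain ⟨ω, hun, hbound⟩ := block_bound hG hq0 hq1 hη0 h20 hη3 h640' hleR hmle h1000 ht hr
  obtain ⟨ψ, hψ, hψl⟩ := formula_of_sys hφ ω
  have htB : t * B ≤ N := by
    have h1 : (t : ℝ) * B ≤ (N : ℝ) := le_trans (mul_le_mul_of_nonneg_right ht' (Nat.cast_nonneg B)) hleaf
    exact_mod_cast h1
  refine ⟨N / B * B, r, ψ, hle, by exact_mod_cast hr7, fun j => by rw [hψl]; exact htB, fun x => ?_, ?_⟩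
  · obtain ⟨j, hj⟩ := hun x
    refine ⟨j, fun h => hj ?_⟩
    rw [← hψ j]
    exact h
  · intro D e f S w hD2 he hw hwD hdegw href
    have hCeq : (fun j => {x | Holds (K + 1) (ψ j) x}) = CB A ω := funext hψ
    rw [hCeq] at href
    obtain ⟨hk1, hk2⟩ := hE D e w hD2 he hw hwD
    obtain ⟨w1, hw1⟩ : ∃ w1, w1 = ⌈Real.sqrt N⌉₊ := ⟨_, rfl⟩
    rw [← hw1] at hk2
    have hwpos : 1 ≤ w := by
      have h1 : (1 : ℝ) ≤ w := le_trans (by norm_num) (le_trans hlogN hw)
      exact_mod_cast h1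
    have hw1pos : 1 ≤ w1 := by
      rw [hw1]
      exact Nat.one_le_iff_ne_zero.2 (Nat.ceil_pos.2 (Real.sqrt_pos.2 (by linarith))).ne'
    obtain ⟨ε, hε⟩ : ∃ ε : ℝ, ε = max ((5 / 8 : ℝ) ^ w) (Real.exp (-((N : ℝ) ^ (1 / 4 : ℝ) / 2))) := ⟨_, rfl⟩
    have hεpos : 0 < ε := by
      rw [hε]
      exact lt_of_lt_of_le (Real.exp_pos _) (le_max_right _ _)
    have hdet := hbound e D f S (fun k => if k < D then w else w1)
      (fun k => if k < D then e * w ^ k else e * w ^ (D - 1) * w1) ε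
      (by
        have h1 : 0 < D := by omega
        simp [h1])
      (by
        intro k hk
        have h0 : k < D := hk
        by_cases h1 : k + 1 < D
        · simp only [h0, h1, if_true]
          rw [pow_succ, mul_assoc]
        · simp only [h0, h1, if_true, if_false]
          have h2 : k = D - 1 := by omega
          rw [h2])
      (by
        intro k
        by_cases h1 : k < D
        · simp only [h1, if_true]
          exact hwpos
        · simp only [h1, if_false]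
          exact hw1pos)
      (by
        simp only [lt_irrefl, if_false]
        have h1 := hdeg (((f : ℝ) + 1) * e * (w : ℝ) ^ (D - 1)) hdegw
        rw [← hw1] at h1
        have h3 : ((f : ℝ) + 1) * (e * w ^ (D - 1) * w1 : ℕ) = ((f : ℝ) + 1) * e * (w : ℝ) ^ (D - 1) * w1 := by
          push_cast
          ring
        rw [h3]
        linarith)
      (by
        intro k hk
        have h0 : k < D := hk
        by_cases h1 : k + 1 < D
        · simp only [h0, h1, if_true]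
          rw [hε]
          exact le_trans (hk1 k h1) (le_max_left _ _)
        · simp only [h0, h1, if_true, if_false]
          have h2 : k = D - 1 := by omega
          rw [h2, hε]
          exact le_trans hk2 (le_max_right _ _))
      href
    have h1 : (1 : ℝ) ≤ 2 * ((N : ℝ) + 1) * S * ε := by
      have h5 : (((N / B * B : ℕ) : ℝ) + 1) * S * ε ≤ ((N : ℝ) + 1) * S * ε :=
        mul_le_mul_of_nonneg_right (mul_le_mul_of_nonneg_right (by linarith) (Nat.cast_nonneg S)) hεpos.le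
      linarith
    have hmin : min ((8 / 5 : ℝ) ^ w) (Real.exp ((N : ℝ) ^ (1 / 4 : ℝ) / 2)) * ε ≤ 1 := by
      rw [hε]
      rcases le_total ((5 / 8 : ℝ) ^ w) (Real.exp (-((N : ℝ) ^ (1 / 4 : ℝ) / 2))) with h | h
      · rw [max_eq_right h]
        calc min ((8 / 5 : ℝ) ^ w) (Real.exp ((N : ℝ) ^ (1 / 4 : ℝ) / 2)) * Real.exp (-((N : ℝ) ^ (1 / 4 : ℝ) / 2))
            ≤ Real.exp ((N : ℝ) ^ (1 / 4 : ℝ) / 2) * Real.exp (-((N : ℝ) ^ (1 / 4 : ℝ) / 2)) :=
              mul_le_mul_of_nonneg_right (min_le_right _ _) (Real.exp_pos _).le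
          _ = 1 := by rw [← Real.exp_add, add_neg_cancel, Real.exp_zero]
      · rw [max_eq_left h]
        calc min ((8 / 5 : ℝ) ^ w) (Real.exp ((N : ℝ) ^ (1 / 4 : ℝ) / 2)) * (5 / 8 : ℝ) ^ w
            ≤ (8 / 5 : ℝ) ^ w * (5 / 8 : ℝ) ^ w :=
              mul_le_mul_of_nonneg_right (min_le_left _ _) (by positivity)
          _ = 1 := by rw [← mul_pow]; norm_num
    by_contra hcon
    push Not at hcon
    have h6 : 2 * ((N : ℝ) + 1) * S * ε < min ((8 / 5 : ℝ) ^ w) (Real.exp ((N : ℝ) ^ (1 / 4 : ℝ) / 2)) * ε :=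
      mul_lt_mul_of_pos_right hcon hεpos
    linarith

end H98DH
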