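import Pool.Agent.H98.DH.Defs

/-!
Statements used in the final assembly (project DH): `TribesSt` (good pairs with a jump of the weight, = helper61's theorem `tribes`), `MasterSt` (the main theorem in explicit form).
-/

set_option autoImplicit false
open scoped Classical

namespace H98DH

/-- the tribes pairs: for every depth `K ≥ 1` and `b ≥ 20` there is a good pair `(A, L)` of weight about `exp (-b)` at `1/2`, whose weight doubles at `1 / 2 - 2 ^ K / (4 b ^ K)`, and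
(translates of) the complement of `A` are given by formulas of depth `K` with `B` leaves -/
def TribesSt : Prop :=
  ∀ K b : ℕ, 1 ≤ K → 20 ≤ b → ∃ (B : ℕ) (A : Set (Fin B → ZMod 2)) (L : Set (Finset (Fin B))),
    1 ≤ B ∧ (B : ℝ) ≤ Real.exp (2 * b * K) ∧ Good A L ∧ A ≠ Set.univ ∧
    Real.exp (-((b : ℝ) + 2)) ≤ wt (1 / 2) L ∧ wt (1 / 2) L ≤ (1 / 2 : ℝ) ^ b ∧
    2 * wt (1 / 2) L ≤ wt (1 / 2 - 2 ^ K / (4 * (b : ℝ) ^ K)) L ∧
    ∀ (n : ℕ) (ρ : Fin B → Fin n) (σ : Fin B → ZMod 2), ∃ φ : Fm n K,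
      (∀ x, Holds K φ x ↔ ¬ ((fun l => x (ρ l)) + σ ∈ A)) ∧ leaves K φ = B

/-- the main theorem in explicit form (the system depends only on `K` and `N`) -/
def MasterSt : Prop :=
  ∀ K N : ℕ, 1 ≤ K → 10 ^ 6 * (K : ℝ) ≤ Real.log N →
    ∃ (n r : ℕ) (C : Fin r → Fm n (K + 1)), n ≤ N ∧ r ≤ N ^ 7 ∧ (∀ j, leaves (K + 1) (C j) ≤ N) ∧
      (∀ x, ∃ j, ¬ Holds (K + 1) (C j) x) ∧
      ∀ D e f S w : ℕ, 2 ≤ D → 1 ≤ e → Real.log N ≤ w →
        8 * e * (w : ℝ) ^ (D - 1) * (8000 * K) ^ K ≤ Real.log N ^ (K + 1) →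
        ((f : ℝ) + 1) * e * (w : ℝ) ^ (D - 1) ≤ (N : ℝ) ^ (1 / 4 : ℝ) →
        Refutes (fun j => {x | Holds (K + 1) (C j) x}) e D f S →
        min ((8 / 5 : ℝ) ^ w) (Real.exp ((N : ℝ) ^ (1 / 4 : ℝ) / 2)) ≤ 2 * ((N : ℝ) + 1) * S

end H98DH
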