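import Pool.Agent.H98.DH.Defs

/-!
ROW GA (good pairs: point, translation, dual basis, spanning; about 160 lines).  PROOF.
`good_point`: `A = {0}`, `L = {∅}`: `mono ∅ = 1`; `card = 1` for both; a multiple of `1` vanishing at `0` is `0`.
`good_span`: if `Good A L` then every function on the cube agrees on `A` with an element of `span (mono '' L)`: the restriction map from `span (mono '' L)` (dimension `Nat.card L`: `H96RE.mono_indep`, `finrank_span_eq_card`)
to the functions on `A` (dimension `Nat.card A`) is injective (`ind`), so it is surjective (`LinearMap.injective_iff_surjective_of_finrank_eq_finrank`).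
`good_translate`: `mono R (x + σ) = ∏ (x i + σ i)` is a combination of `mono R'`, `R' ⊆ R` (`Finset.prod_add`), so by `down` `g ∈ span (mono '' L)` implies `(fun x => g (x + σ)) ∈ span (mono '' L)`.
If `g` vanishes on `{x | x + σ ∈ A}` then `x ↦ g (x + σ)` vanishes on `A` (over `ZMod 2` `(x + σ) + σ = x`), so it is `0`, and `g = 0`.  `card`: the map `x ↦ x + σ` is a bijection.
`good_dual`: by `good_span` choose, for every `z ∈ A`, an element `d_z ∈ span (mono '' L)` which on `A` is the indicator of `z`.  For `L0 ∈ L` let `P = {z ∈ A | the coefficient of mono L0 in d_z is 1}`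
(coefficients: `mono_indep.repr`, or a linear functional `λ` on functions with `λ (mono R) = if R = L0 then 1 else 0`, from the basis of all monomials `Module.Basis.mk (mono_indep n) (mono_top n).ge`).  For `R ∈ L`:
`mono R - ∑_(z ∈ A) (mono R z) • d_z` is in the span and vanishes on `A`, so it is `0`; apply `λ`: `[R = L0] = ∑_(z ∈ A) mono R z * λ (d_z) = ∑_(z ∈ P) mono R z`.
-/

set_option autoImplicit false
open scoped Classical

namespace H98DH

open H96RE H91RE

theorem good_point (b : ℕ) : Good ({0} : Set (Fin b → ZMod 2)) {∅} := by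
  refine ⟨rfl, ?_, ?_, ?_⟩
  · intro R R' h1 h2
    have h3 : R' = ∅ := h2
    rw [h3] at h1
    exact Finset.subset_empty.mp h1
  · rw [Nat.card_unique, Nat.card_unique]
  · intro g hg h0
    rw [Set.image_singleton, Submodule.mem_span_singleton] at hg
    obtain ⟨c, rfl⟩ := hg
    have h1 := h0 0 rfl
    have h2 : mono (∅ : Finset (Fin b)) 0 = 1 := by
      unfold mono
      exact Finset.prod_empty
    rw [Pi.smul_apply, h2, smul_eq_mul, mul_one] at h1
    rw [h1, zero_smul]

theorem good_span {B : ℕ} {A : Set (Fin B → ZMod 2)} {L : Set (Finset (Fin B))} (h : Good A L) (F : Fn B) :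
    ∃ g ∈ Submodule.span (ZMod 2) (mono '' L), ∀ x ∈ A, g x = F x := by
  have hli : LinearIndependent (ZMod 2) (fun T : L => mono (T : Finset (Fin B))) :=
    (mono_indep B).comp _ Subtype.val_injective
  have hrange : Set.range (fun T : L => mono (T : Finset (Fin B))) = mono '' L :=
    (Set.image_eq_range _ _).symm
  have hfr : Module.finrank (ZMod 2) (Submodule.span (ZMod 2) (mono '' L)) = Nat.card L := by
    rw [← hrange, finrank_span_eq_card hli, Nat.card_eq_fintype_card]
  have hfr2 : Module.finrank (ZMod 2) (A → ZMod 2) = Nat.card A := by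
    rw [Module.finrank_fintype_fun_eq_card, Nat.card_eq_fintype_card]
  let ρ : Submodule.span (ZMod 2) (mono '' L) →ₗ[ZMod 2] (A → ZMod 2) :=
    { toFun := fun g x => (g : Fn B) x
      map_add' := fun _ _ => rfl
      map_smul' := fun _ _ => rfl }
  have hinj : Function.Injective ρ := by
    rw [← LinearMap.ker_eq_bot, LinearMap.ker_eq_bot']
    intro g hg
    apply Subtype.ext
    refine h.ind g g.2 ?_
    intro x hx
    exact congrFun hg ⟨x, hx⟩
  have hsur : Function.Surjective ρ :=
    (LinearMap.injective_iff_surjective_of_finrank_eq_finrank (by rw [hfr, hfr2, h.card])).mp hinj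
  obtain ⟨g, hg⟩ := hsur (fun x => F x)
  exact ⟨g, g.2, fun x hx => congrFun hg ⟨x, hx⟩⟩

theorem good_translate {B : ℕ} {A : Set (Fin B → ZMod 2)} {L : Set (Finset (Fin B))} (h : Good A L)
    (σ : Fin B → ZMod 2) : Good {x | x + σ ∈ A} L := by
  have hss : ∀ x : Fin B → ZMod 2, x + σ + σ = x := by
    intro x
    funext i
    rw [Pi.add_apply, Pi.add_apply, add_assoc, CharTwo.add_self_eq_zero, add_zero]
  refine ⟨h.empty, h.down, ?_, ?_⟩
  · rw [← h.card]
    exact Nat.card_congr ((Equiv.addRight σ).subtypeEquiv (fun x => Iff.rfl))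
  · intro g hg h0
    let τ : Fn B →ₗ[ZMod 2] Fn B :=
      { toFun := fun g x => g (x + σ)
        map_add' := fun _ _ => rfl
        map_smul' := fun _ _ => rfl }
    have hτ : Submodule.span (ZMod 2) (mono '' L) ≤ (Submodule.span (ZMod 2) (mono '' L)).comap τ := by
      rw [Submodule.span_le]
      rintro _ ⟨R, hR, rfl⟩
      show τ (mono R) ∈ Submodule.span (ZMod 2) (mono '' L)
      have h1 : τ (mono R) = ∑ t ∈ R.powerset, (∏ i ∈ R \ t, σ i) • mono t := by
        funext x
        rw [Finset.sum_apply]
        have h2 : τ (mono R) x = ∏ i ∈ R, (x i + σ i) := rfl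
        rw [h2, Finset.prod_add]
        refine Finset.sum_congr rfl ?_
        intro t _
        rw [Pi.smul_apply, smul_eq_mul, mul_comm]
        rfl
      rw [h1]
      refine Submodule.sum_mem _ ?_
      intro t ht
      rw [Finset.mem_powerset] at ht
      exact Submodule.smul_mem _ _ (Submodule.subset_span ⟨t, h.down t R ht hR, rfl⟩)
    have h1 : τ g = 0 := by
      refine h.ind _ (hτ hg) ?_
      intro x hx
      show g (x + σ) = 0
      refine h0 _ ?_
      show x + σ + σ ∈ A
      rw [hss]
      exact hx
    funext x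
    have h2 : τ g (x + σ) = g x := by
      show g (x + σ + σ) = g x
      rw [hss]
    rw [← h2, h1]
    rfl

theorem good_dual {B : ℕ} {A : Set (Fin B → ZMod 2)} {L : Set (Finset (Fin B))} (h : Good A L) {L0 : Finset (Fin B)}
    (hL0 : L0 ∈ L) : ∃ P : Finset (Fin B → ZMod 2), (∀ z ∈ P, z ∈ A) ∧
      ∀ R ∈ L, ∑ z ∈ P, mono R z = if R = L0 then 1 else 0 := by
  choose d hd1 hd2 using fun z : Fin B → ZMod 2 => good_span h (fun x => if x = z then 1 else 0)
  let b := Module.Basis.mk (mono_indep B) (mono_top B).ge
  have hb : ∀ R, b.coord L0 (mono R) = if R = L0 then 1 else 0 := by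
    intro R
    have h1 : mono R = b R := (Module.Basis.mk_apply (mono_indep B) (mono_top B).ge R).symm
    rw [h1, Module.Basis.coord_apply, Module.Basis.repr_self, Finsupp.single_apply]
  have h01 : ∀ t : ZMod 2, t = 0 ∨ t = 1 := by decide
  refine ⟨Finset.univ.filter (fun z => z ∈ A ∧ b.coord L0 (d z) = 1), ?_, ?_⟩
  · intro z hz
    exact (Finset.mem_filter.mp hz).2.1
  · intro R hR
    have hf : mono R - ∑ z ∈ Finset.univ.filter (fun z => z ∈ A), (mono R z) • d z = 0 := by
      refine h.ind _ ?_ ?_
      · refine Submodule.sub_mem _ (Submodule.subset_span ⟨R, hR, rfl⟩) ?_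
        exact Submodule.sum_mem _ fun z _ => Submodule.smul_mem _ _ (hd1 z)
      · intro x hx
        rw [Pi.sub_apply, Finset.sum_apply, Finset.sum_eq_single x]
        · rw [Pi.smul_apply, hd2 x x hx, if_pos rfl, smul_eq_mul, mul_one, sub_self]
        · intro z _ hzx
          rw [Pi.smul_apply, hd2 z x hx, if_neg (Ne.symm hzx), smul_zero]
        · intro hx2
          exact absurd (Finset.mem_filter.mpr ⟨Finset.mem_univ _, hx⟩) hx2
    have h2 : mono R = ∑ z ∈ Finset.univ.filter (fun z => z ∈ A), (mono R z) • d z := sub_eq_zero.mp hf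
    rw [← hb R]
    have h3 : b.coord L0 (mono R) =
        ∑ z ∈ Finset.univ.filter (fun z => z ∈ A), (mono R z) * b.coord L0 (d z) := by
      conv_lhs => rw [h2]
      rw [map_sum]
      refine Finset.sum_congr rfl ?_
      intro z _
      rw [map_smul, smul_eq_mul]
    rw [h3, ← Finset.filter_filter, Finset.sum_filter]
    refine Finset.sum_congr rfl ?_
    intro z _
    rcases h01 (b.coord L0 (d z)) with h4 | h4
    · rw [h4, mul_zero, if_neg (by decide)]
    · rw [h4, mul_one, if_pos rfl]

end H98DH
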