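import Pool.Agent.H98.DH.GA

/-!
ROW GB (good pairs: complement; about 100 lines).  PROOF.  `L* = {T | Tᶜ ∉ L}`.
`sum_mono`: `∑_(x : Fin B → ZMod 2) mono T x = if T = univ then 1 else 0` in `ZMod 2`: `Finset.prod_univ_sum` / `Fintype.piFinset`: `∑_x ∏_i (if i ∈ T then x i else 1) = ∏_i (∑_(c : ZMod 2) (if i ∈ T then c else 1))`, and
`∑_c c = 1`, `∑_c 1 = 0`.
`good_compl`: `empty`: `∅ᶜ = univ ∉ L` because otherwise `L` = all sets (`down`), so `card A = 2^B` and `A = univ`, excluded by `hA : A ≠ univ` (`Nat.card` of a proper subset of a finite type is smaller).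
`down`: complement reverses inclusion.  `card`: `T ↦ Tᶜ` is a bijection from `{T | T ∉ L}`; `Nat.card Aᶜ = 2^B - Nat.card A` (both types have `2^B` elements).
`ind`: let `h ∈ span (mono '' L*)` vanish on `Aᶜ`.  For `U ∈ L` and `T ∈ L*`: `T ∪ U ≠ univ` (otherwise `Tᶜ ⊆ U`, so `Tᶜ ∈ L`), so `∑_x (mono T * mono U) x = ∑_x mono (T ∪ U) x = 0` (`sum_mono`); by linearity `∑_x h x * g x = 0` for all
`g ∈ span (mono '' L)`.  For `z ∈ A` take `g` from `good_span` which is on `A` the indicator of `z`: `0 = ∑_x h x * g x = h z` (as `h` vanishes outside `A`).  So `h = 0`.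
-/

set_option autoImplicit false
open scoped Classical

namespace H98DH

open H96RE H91RE

theorem sum_mono {B : ℕ} (T : Finset (Fin B)) :
    ∑ x : Fin B → ZMod 2, mono T x = if T = Finset.univ then 1 else 0 := by
  have h1 : ∀ x : Fin B → ZMod 2, mono T x = ∏ i, (if i ∈ T then x i else 1) := by
    intro x
    rw [Finset.prod_ite_mem, Finset.univ_inter]
    rfl
  rw [Finset.sum_congr rfl fun x _ => h1 x]
  have h2 := Finset.prod_univ_sum (fun _ : Fin B => (Finset.univ : Finset (ZMod 2)))
    (fun i (c : ZMod 2) => if i ∈ T then c else 1)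
  rw [Fintype.piFinset_univ] at h2
  rw [← h2]
  by_cases hT : T = Finset.univ
  · rw [if_pos hT]
    refine Finset.prod_eq_one fun i _ => ?_
    have hi : i ∈ T := by rw [hT]; exact Finset.mem_univ i
    simp only [hi, if_true]
    decide
  · rw [if_neg hT]
    obtain ⟨i, hi⟩ : ∃ i, i ∉ T := by
      by_contra hcon
      push Not at hcon
      exact hT (Finset.eq_univ_iff_forall.mpr hcon)
    refine Finset.prod_eq_zero (Finset.mem_univ i) ?_
    simp only [hi, if_false]
    decide

private theorem GB_orth {B : ℕ} {L M : Set (Finset (Fin B))} (hLM : ∀ T ∈ M, ∀ U ∈ L, T ∪ U ≠ Finset.univ)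
    {f g : Fn B} (hf : f ∈ Submodule.span (ZMod 2) (mono '' M)) (hg : g ∈ Submodule.span (ZMod 2) (mono '' L)) :
    ∑ x : Fin B → ZMod 2, f x * g x = 0 := by
  induction hf using Submodule.span_induction with
  | mem f hf =>
    obtain ⟨T, hT, rfl⟩ := hf
    induction hg using Submodule.span_induction with
    | mem g hg =>
      obtain ⟨U, hU, rfl⟩ := hg
      have h1 : ∀ x : Fin B → ZMod 2, mono T x * mono U x = mono (T ∪ U) x := by
        intro x
        rw [← mono_mul]
        rfl
      rw [Finset.sum_congr rfl fun x _ => h1 x, sum_mono, if_neg (hLM T hT U hU)]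
    | zero => simp
    | add g g' _ _ h1 h2 =>
      have h3 : ∀ x : Fin B → ZMod 2, mono T x * (g + g') x = mono T x * g x + mono T x * g' x := by
        intro x
        rw [Pi.add_apply, mul_add]
      rw [Finset.sum_congr rfl fun x _ => h3 x, Finset.sum_add_distrib, h1, h2, add_zero]
    | smul c g _ h1 =>
      have h3 : ∀ x : Fin B → ZMod 2, mono T x * (c • g) x = c * (mono T x * g x) := by
        intro x
        rw [Pi.smul_apply, smul_eq_mul]
        ring
      rw [Finset.sum_congr rfl fun x _ => h3 x, ← Finset.mul_sum, h1, mul_zero]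
  | zero => simp
  | add f f' _ _ h1 h2 =>
    have h3 : ∀ x : Fin B → ZMod 2, (f + f') x * g x = f x * g x + f' x * g x := by
      intro x
      rw [Pi.add_apply, add_mul]
    rw [Finset.sum_congr rfl fun x _ => h3 x, Finset.sum_add_distrib, h1, h2, add_zero]
  | smul c f _ h1 =>
    have h3 : ∀ x : Fin B → ZMod 2, (c • f) x * g x = c * (f x * g x) := by
      intro x
      rw [Pi.smul_apply, smul_eq_mul]
      ring
    rw [Finset.sum_congr rfl fun x _ => h3 x, ← Finset.mul_sum, h1, mul_zero]

theorem good_compl {B : ℕ} {A : Set (Fin B → ZMod 2)} {L : Set (Finset (Fin B))} (h : Good A L) (hA : A ≠ Set.univ) :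
    Good Aᶜ {T | Tᶜ ∉ L} := by
  have hcA : Nat.card (Fin B → ZMod 2) = 2 ^ B := by
    rw [Nat.card_eq_fintype_card, Fintype.card_fun, ZMod.card, Fintype.card_fin]
  have hcL : Nat.card (Finset (Fin B)) = 2 ^ B := by
    rw [Nat.card_eq_fintype_card, Fintype.card_finset, Fintype.card_fin]
  have hcard : A.ncard = L.ncard := h.card
  have hset : {T : Finset (Fin B) | Tᶜ ∉ L} = (fun T : Finset (Fin B) => Tᶜ) '' Lᶜ := by
    ext T
    constructor
    · intro hT
      exact ⟨Tᶜ, hT, compl_compl T⟩
    · rintro ⟨U, hU, rfl⟩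
      show Uᶜᶜ ∉ L
      rw [compl_compl]
      exact hU
  refine ⟨?_, ?_, ?_, ?_⟩
  · show (∅ : Finset (Fin B))ᶜ ∉ L
    intro hL
    apply hA
    have hLu : L = Set.univ := by
      rw [Set.eq_univ_iff_forall]
      intro T
      refine h.down T _ ?_ hL
      rw [Finset.compl_empty]
      exact Finset.subset_univ T
    refine Set.eq_of_subset_of_ncard_le (Set.subset_univ A) ?_ (Set.toFinite _)
    rw [hcard, hLu, Set.ncard_univ, Set.ncard_univ, hcA, hcL]
  · intro R R' hR hR' hcon
    exact hR' (h.down _ _ (Finset.compl_subset_compl.mpr hR) hcon)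
  · show Aᶜ.ncard = {T : Finset (Fin B) | Tᶜ ∉ L}.ncard
    rw [hset, Set.ncard_image_of_injective _ compl_injective, Set.ncard_compl, Set.ncard_compl, hcA, hcL, hcard]
  · intro f hf hvan
    have horth : ∀ g ∈ Submodule.span (ZMod 2) (mono '' L), ∑ x : Fin B → ZMod 2, f x * g x = 0 := by
      intro g hg
      refine GB_orth (fun T hT U hU hTU => ?_) hf hg
      apply hT
      refine h.down _ U ?_ hU
      intro i hi
      have h2 : i ∈ T ∪ U := by rw [hTU]; exact Finset.mem_univ i
      rcases Finset.mem_union.mp h2 with h3 | h3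
      · exact absurd h3 (Finset.mem_compl.mp hi)
      · exact h3
    funext z
    by_cases hz : z ∈ A
    · obtain ⟨g, hg, hgA⟩ := good_span h (fun x => if x = z then 1 else 0)
      have h1 := horth g hg
      rw [Finset.sum_eq_single z] at h1
      · rw [hgA z hz, if_pos rfl, mul_one] at h1
        exact h1
      · intro x _ hx
        by_cases hxA : x ∈ A
        · rw [hgA x hxA, if_neg hx, mul_zero]
        · rw [hvan x hxA, zero_mul]
      · intro hcon
        exact absurd (Finset.mem_univ z) hcon
    · exact hvan z hz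

end H98DH
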