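import Pool.Agent.H98.DH.GB

/-!
ROW GC (good pairs: product; about 170 lines).  `sub y i` = `i`-th block of `y : Fin (a * B) → ZMod 2`, `subT T i` = `i`-th part of `T`.  PROOF.
`mono_blocks`: `mono T y = ∏ i, mono (subT T i) (sub y i)` (`Finset.prod_product`-like via `finProdFinEquiv`; `T = ⋃ i, image of subT T i`; easiest: write `mono T y = ∏_(j : Fin (a*B)) (if j ∈ T then y j else 1)`,
reindex by `finProdFinEquiv`, `Fintype.prod_prod_type`).
`subT_inj`: `T ↦ subT T` is a bijection onto `Fin a → Finset (Fin B)`; `sub` is a bijection onto `Fin a → (Fin B → ZMod 2)` (`piCurry`, `Equiv.arrowCongr`).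
`good_prod`: `empty`, `down`: immediate (`subT` is monotone).  `card`: both sides are the `a`-th power (`Nat.card_pi`, `Finset.prod_const`).
`ind`: enough: for every `L0` with all `subT L0 i ∈ L` there are points with dual property: for `R` in the product family, `∑_(y ∈ P) mono R y = if R = L0 then 1 else 0`, where `P = {y | ∀ i, sub y i ∈ P_i}`, `P_i` from `good_dual h`
for `subT L0 i` : `∑_(y ∈ P) ∏_i mono (subT R i) (sub y i) = ∏_i ∑_(z ∈ P_i) mono (subT R i) z = ∏_i [subT R i = subT L0 i] = [R = L0]` (`Finset.prod_univ_sum`, `Fintype.piFinset`).  Now if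
`g = ∑ c_R mono R` vanishes on the product set then `c_(L0) = ∑_(y ∈ P) g y = 0` for all `L0`.  (Use `Finsupp.mem_span_image_iff_linearCombination`.)
`good_step`: `good_compl` and `good_prod`.
-/

set_option autoImplicit false
open scoped Classical

namespace H98DH

open H96RE H91RE

theorem mem_subT' {a B : ℕ} {T : Finset (Fin (a * B))} {i : Fin a} {l : Fin B} :
    l ∈ subT T i ↔ finProdFinEquiv (i, l) ∈ T := by
  simp [subT]

theorem mono_blocks {a B : ℕ} (T : Finset (Fin (a * B))) (y : Fin (a * B) → ZMod 2) :
    mono T y = ∏ i, mono (subT T i) (sub y i) := by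
  have h1 : ∀ (n : ℕ) (R : Finset (Fin n)) (z : Fin n → ZMod 2), mono R z = ∏ j, if j ∈ R then z j else 1 := by
    intro n R z
    simp only [mono, Finset.prod_ite_mem, Finset.univ_inter]
  rw [h1, ← Equiv.prod_comp (finProdFinEquiv (m := a) (n := B)), Fintype.prod_prod_type]
  apply Finset.prod_congr rfl
  intro i _
  rw [h1]
  apply Finset.prod_congr rfl
  intro l _
  simp only [mem_subT', sub]

theorem subT_ext {a B : ℕ} {T T' : Finset (Fin (a * B))} (h : ∀ i, subT T i = subT T' i) : T = T' := by
  ext j
  obtain ⟨⟨i, l⟩, rfl⟩ := (finProdFinEquiv (m := a) (n := B)).surjective j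
  rw [← mem_subT', ← mem_subT', h]

theorem exists_subT {a B : ℕ} (F : Fin a → Finset (Fin B)) : ∃ T : Finset (Fin (a * B)), ∀ i, subT T i = F i := by
  refine ⟨Finset.univ.filter (fun j => (finProdFinEquiv.symm j).2 ∈ F (finProdFinEquiv.symm j).1), fun i => ?_⟩
  ext l
  rw [mem_subT']
  simp only [Finset.mem_filter, Finset.mem_univ, true_and, Equiv.symm_apply_apply]

/-- points with given blocks -/
def glue {a B : ℕ} (z : Fin a → Fin B → ZMod 2) : Fin (a * B) → ZMod 2 :=
  fun j => z (finProdFinEquiv.symm j).1 (finProdFinEquiv.symm j).2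

theorem sub_glue {a B : ℕ} (z : Fin a → Fin B → ZMod 2) : (fun i => sub (glue z) i) = z := by
  funext i l
  simp only [sub, glue, Equiv.symm_apply_apply]

theorem glue_sub {a B : ℕ} (y : Fin (a * B) → ZMod 2) : glue (fun i => sub y i) = y := by
  funext j
  change y (finProdFinEquiv ((finProdFinEquiv.symm j).1, (finProdFinEquiv.symm j).2)) = y j
  rw [Prod.mk.eta, Equiv.apply_symm_apply]

def subEquiv (a B : ℕ) : (Fin (a * B) → ZMod 2) ≃ (Fin a → Fin B → ZMod 2) :=
  ⟨fun y i => sub y i, glue, glue_sub, sub_glue⟩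

noncomputable def subTEquiv (a B : ℕ) : Finset (Fin (a * B)) ≃ (Fin a → Finset (Fin B)) :=
  Equiv.ofBijective (fun T i => subT T i) ⟨fun T T' h => subT_ext (fun i => congrFun h i),
    fun F => by
      obtain ⟨T, hT⟩ := exists_subT F
      exact ⟨T, funext hT⟩⟩

/-- dual sets of points for the product -/
theorem prod_dual {a B : ℕ} {A : Set (Fin B → ZMod 2)} {L : Set (Finset (Fin B))} (h : Good A L)
    {L0 : Finset (Fin (a * B))} (hL0 : ∀ i, subT L0 i ∈ L) :
    ∃ P : Finset (Fin (a * B) → ZMod 2), (∀ z ∈ P, ∀ i, sub z i ∈ A) ∧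
      ∀ R : Finset (Fin (a * B)), (∀ i, subT R i ∈ L) → ∑ z ∈ P, mono R z = if R = L0 then 1 else 0 := by
  choose P hP1 hP2 using fun i => good_dual h (hL0 i)
  refine ⟨(Fintype.piFinset P).map (subEquiv a B).symm.toEmbedding, ?_, ?_⟩
  · intro z hz i
    rw [Finset.mem_map_equiv, Equiv.symm_symm, Fintype.mem_piFinset] at hz
    exact hP1 i _ (hz i)
  · intro R hR
    rw [Finset.sum_map]
    have h1 : ∀ z : Fin a → Fin B → ZMod 2, mono R ((subEquiv a B).symm.toEmbedding z) =
        ∏ i, mono (subT R i) (z i) := by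
      intro z
      rw [mono_blocks]
      apply Finset.prod_congr rfl
      intro i _
      congr 1
      exact congrFun (sub_glue z) i
    rw [Finset.sum_congr rfl (fun z _ => h1 z), ← Finset.prod_univ_sum,
      Finset.prod_congr rfl (fun i _ => hP2 i _ (hR i))]
    by_cases hRL : R = L0
    · subst hRL
      simp
    · rw [if_neg hRL]
      have : ∃ i, subT R i ≠ subT L0 i := by
        by_contra hcon
        push Not at hcon
        exact hRL (subT_ext hcon)
      obtain ⟨i, hi⟩ := this
      exact Finset.prod_eq_zero (Finset.mem_univ i) (if_neg hi)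

theorem good_prod {a B : ℕ} {A : Set (Fin B → ZMod 2)} {L : Set (Finset (Fin B))} (h : Good A L) :
    Good ({y | ∀ i, sub y i ∈ A} : Set (Fin (a * B) → ZMod 2)) {T | ∀ i, subT T i ∈ L} := by
  refine ⟨?_, ?_, ?_, ?_⟩
  · intro i
    have : subT (∅ : Finset (Fin (a * B))) i = ∅ := by
      ext l
      rw [mem_subT']
      simp
    rw [this]
    exact h.empty
  · intro R R' hRR hR i
    refine h.down _ _ ?_ (hR i)
    intro l hl
    rw [mem_subT'] at hl ⊢
    exact hRR hl
  · have e1 : {y : Fin (a * B) → ZMod 2 | ∀ i, sub y i ∈ A} ≃ (Fin a → A) :=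
      { toFun := fun y i => ⟨sub y.1 i, y.2 i⟩
        invFun := fun z => ⟨glue (fun i => (z i).1), fun i => by
          have := congrFun (sub_glue (fun i => (z i : Fin B → ZMod 2))) i
          change sub (glue (fun i => (z i : Fin B → ZMod 2))) i = (z i : Fin B → ZMod 2) at this
          change sub (glue (fun i => (z i : Fin B → ZMod 2))) i ∈ A
          rw [this]
          exact (z i).2⟩
        left_inv := fun y => Subtype.ext (glue_sub y.1)
        right_inv := fun z => by
          funext i
          exact Subtype.ext (congrFun (sub_glue (fun i => (z i : Fin B → ZMod 2))) i) }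
    have e2 : {T : Finset (Fin (a * B)) | ∀ i, subT T i ∈ L} ≃ (Fin a → L) :=
      { toFun := fun T i => ⟨subT T.1 i, T.2 i⟩
        invFun := fun F => ⟨(subTEquiv a B).symm (fun i => (F i).1), fun i => by
          have := congrFun ((subTEquiv a B).apply_symm_apply (fun i => (F i : Finset (Fin B)))) i
          change subT _ i = _ at this
          rw [this]
          exact (F i).2⟩
        left_inv := fun T => Subtype.ext ((subTEquiv a B).symm_apply_apply T.1)
        right_inv := fun F => by
          funext i
          apply Subtype.ext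
          exact congrFun ((subTEquiv a B).apply_symm_apply (fun i => (F i : Finset (Fin B)))) i }
    rw [Nat.card_congr e1, Nat.card_congr e2, Nat.card_pi, Nat.card_pi]
    simp only [h.card]
  · intro g hg hz
    rw [Finsupp.mem_span_image_iff_linearCombination] at hg
    obtain ⟨c, hc, rfl⟩ := hg
    have hc0 : ∀ L0 ∈ c.support, False := by
      intro L0 hL0
      have hL0' : ∀ i, subT L0 i ∈ L := (Finsupp.mem_supported _ _).mp hc hL0
      obtain ⟨P, hP1, hP2⟩ := prod_dual h hL0'
      have h1 : ∑ z ∈ P, (Finsupp.linearCombination (ZMod 2) mono c) z = 0 :=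
        Finset.sum_eq_zero (fun z hz' => hz z (hP1 z hz'))
      have h2 : ∑ z ∈ P, (Finsupp.linearCombination (ZMod 2) mono c) z = c L0 := by
        simp only [Finsupp.linearCombination_apply, Finsupp.sum, Finset.sum_apply, Pi.smul_apply, smul_eq_mul]
        rw [Finset.sum_comm]
        have h3 : ∀ R ∈ c.support, ∑ z ∈ P, c R * mono R z = if R = L0 then c R else 0 := by
          intro R hR
          rw [← Finset.mul_sum, hP2 R ((Finsupp.mem_supported _ _).mp hc hR)]
          split_ifs <;> simp
        rw [Finset.sum_congr rfl h3, Finset.sum_ite_eq' c.support L0, if_pos hL0]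
      rw [h1] at h2
      exact (Finsupp.mem_support_iff.mp hL0) h2.symm
    have : c = 0 := by
      rw [← Finsupp.support_eq_empty]
      exact Finset.eq_empty_of_forall_notMem (fun x hx => hc0 x hx)
    rw [this]
    simp

theorem good_step {a B : ℕ} {A : Set (Fin B → ZMod 2)} {L : Set (Finset (Fin B))} (h : Good A L) (hA : A ≠ Set.univ) :
    Good (stepA a A) (stepL a L) :=
  good_prod (good_compl h hA)

end H98DH
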