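import Pool.Agent.H98.DH.GA

/-!
ROW PV (private blocks of the constraints; about 120 lines).  PROOF.
`ltB_empty`, `ltB_down`: `subT ∅ v = ∅`, `subT` is monotone.
`cB_dep`: `x, y` agree on the variables of the blocks of `SB ω j`, so `sub x (ω j i).1 = sub y (ω j i).1`.  (`blk m B (finProdFinEquiv (v, l)) = v`.)
`priv_of_good`: `v ∈ SB ω j`: `v = (ω j i).1`, `σ = (ω j i).2`.  For a light `R` in the block `v` let `R0 = subT R v ∈ L`; `R` is the image of `R0` under `l ↦ finProdFinEquiv (v, l)`, and for a point `z : Fin (m*B) → ZMod 2`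
`mono R z = mono R0 (sub z v)`.  Let `P0` be from `good_dual (good_translate hG σ)` for `subT L v`; for `z0 ∈ P0` let `z = fun i => if blk i = v then z0 (l-part of i) else 0` (so `sub z v = z0`); `P` = image of `P0` (injective).
`merge (blk m B) v z x ∈ CB A ω j`: its block `v` is `z0` and `z0 + σ ∈ A`.  The sums agree with those of `good_dual`; `R = L ↔ subT R v = subT L v` for sets in the block `v`.
-/

set_option autoImplicit false
open scoped Classical

namespace H98DH

open H96RE H91RE

private theorem PV_blk {m B : ℕ} (v : Fin m) (l : Fin B) : blk m B (finProdFinEquiv (v, l)) = v := by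
  unfold blk
  rw [Equiv.symm_apply_apply]

private theorem PV_empty {m B : ℕ} (v : Fin m) : subT (∅ : Finset (Fin (m * B))) v = ∅ := by
  unfold subT
  simp

private theorem PV_img {m B : ℕ} {v : Fin m} {R : Finset (Fin (m * B))}
    (hR : ∀ i ∈ R, blk m B i = v) :
    R = (subT R v).image (fun l => finProdFinEquiv (v, l)) := by
  ext i
  rw [Finset.mem_image]
  constructor
  · intro hi
    have h1 : finProdFinEquiv (v, (finProdFinEquiv.symm i).2) = i := by
      have h2 : (finProdFinEquiv.symm i).1 = v := hR i hi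
      rw [← h2, Prod.mk.eta, Equiv.apply_symm_apply]
    refine ⟨(finProdFinEquiv.symm i).2, ?_, h1⟩
    unfold subT
    refine Finset.mem_filter.2 ⟨Finset.mem_univ _, ?_⟩
    rw [h1]
    exact hi
  · rintro ⟨l, hl, rfl⟩
    unfold subT at hl
    exact (Finset.mem_filter.1 hl).2

private theorem PV_prt {m B : ℕ} (T : Finset (Fin (m * B))) (v v' : Fin m) :
    subT (prt (blk m B) T v) v' = if v' = v then subT T v else ∅ := by
  unfold subT prt
  by_cases h : v' = v
  · subst h
    rw [if_pos rfl]
    ext l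
    simp [PV_blk]
  · rw [if_neg h]
    ext l
    simp [PV_blk, h]

theorem ltB_empty {B m : ℕ} {L : Set (Finset (Fin B))} (h : ∅ ∈ L) : LtB m L ∅ := by
  intro v
  rw [PV_empty]
  exact h

theorem ltB_down {B m : ℕ} {L : Set (Finset (Fin B))} (h : ∀ R R' : Finset (Fin B), R ⊆ R' → R' ∈ L → R ∈ L)
    (R R' : Finset (Fin (m * B))) (hR : R ⊆ R') (hR' : LtB m L R') : LtB m L R := by
  intro v
  refine h _ _ ?_ (hR' v)
  intro l hl
  unfold subT at hl ⊢
  exact Finset.mem_filter.2 ⟨Finset.mem_univ _, hR (Finset.mem_filter.1 hl).2⟩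

theorem cB_dep {r t m B : ℕ} (A : Set (Fin B → ZMod 2)) (ω : Sys r t m B) (j : Fin r) (x y : Fin (m * B) → ZMod 2)
    (h : ∀ i, blk m B i ∈ SB ω j → x i = y i) (hx : x ∈ CB A ω j) : y ∈ CB A ω j := by
  obtain ⟨i, hi⟩ := hx
  refine ⟨i, ?_⟩
  have h1 : sub x (ω j i).1 = sub y (ω j i).1 := by
    funext l
    apply h
    rw [PV_blk]
    unfold SB
    exact Finset.mem_image.2 ⟨i, Finset.mem_univ _, rfl⟩
  rw [← h1]
  exact hi

theorem priv_of_good {r t m B : ℕ} {A : Set (Fin B → ZMod 2)} {L : Set (Finset (Fin B))} (hG : Good A L)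
    (ω : Sys r t m B) : Priv (blk m B) (LtB m L) (SB ω) (CB A ω) := by
  intro j v hv L' hL' hLt
  obtain ⟨i, -, hi⟩ : ∃ i ∈ (Finset.univ : Finset (Fin t)), (ω j i).1 = v := by
    unfold SB at hv
    exact Finset.mem_image.1 hv
  obtain ⟨P0, hP0, hsum⟩ := good_dual (good_translate hG (ω j i).2) (hLt v)
  obtain ⟨lift, hlift⟩ : ∃ lift : (Fin B → ZMod 2) → (Fin (m * B) → ZMod 2),
      lift = fun z0 i => if blk m B i = v then z0 (finProdFinEquiv.symm i).2 else 0 := ⟨_, rfl⟩
  have hl1 : ∀ z0 l, lift z0 (finProdFinEquiv (v, l)) = z0 l := by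
    intro z0 l
    rw [hlift]
    simp only [PV_blk, if_true, Equiv.symm_apply_apply]
  have hinj : Function.Injective lift := by
    intro a c hac
    funext l
    rw [← hl1 a l, ← hl1 c l, hac]
  refine ⟨P0.image lift, ?_, ?_⟩
  · intro z hz x
    obtain ⟨z0, hz0, rfl⟩ := Finset.mem_image.1 hz
    refine ⟨i, ?_⟩
    have h1 : sub (merge (blk m B) v (lift z0) x) (ω j i).1 = z0 := by
      funext l
      unfold sub merge
      rw [hi, PV_blk, if_pos rfl, hl1]
    rw [h1]
    exact hP0 z0 hz0
  · intro R hR hRt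
    rw [Finset.sum_image (fun a _ c _ h => hinj h)]
    have h2 : ∀ z0, mono R (lift z0) = mono (subT R v) z0 := by
      intro z0
      have h3 : mono R (lift z0) =
          mono ((subT R v).image (fun l => finProdFinEquiv (v, l))) (lift z0) := by
        rw [← PV_img hR]
      rw [h3]
      unfold mono
      rw [Finset.prod_image]
      · exact Finset.prod_congr rfl fun l _ => hl1 z0 l
      · intro a _ c _ hac
        have h4 := finProdFinEquiv.injective hac
        exact (Prod.mk.inj h4).2
    rw [Finset.sum_congr rfl (fun z0 _ => h2 z0), hsum _ (hRt v)]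
    by_cases h5 : R = L'
    · rw [if_pos h5, if_pos (by rw [h5])]
    · rw [if_neg h5, if_neg]
      intro h6
      apply h5
      rw [PV_img hR, PV_img hL', h6]

/-- the heavy blocks of `T` are the `v` with `subT T v ∉ L` -/
theorem heavy_ltB {m B : ℕ} {L : Set (Finset (Fin B))} (h : ∅ ∈ L) (T : Finset (Fin (m * B))) :
    heavy (blk m B) (LtB m L) T = Finset.univ.filter (fun v => subT T v ∉ L) := by
  unfold heavy
  apply Finset.filter_congr
  intro v _
  have h1 : LtB m L (prt (blk m B) T v) ↔ subT T v ∈ L := by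
    constructor
    · intro h2
      have h3 := h2 v
      rw [PV_prt, if_pos rfl] at h3
      exact h3
    · intro h2 v'
      rw [PV_prt]
      by_cases h3 : v' = v
      · rw [if_pos h3]
        exact h2
      · rw [if_neg h3]
        exact h
  rw [h1]

end H98DH
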