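import Pool.Agent.H98.DH.Defs

/-!
ROW RA (random system: counting, part 1; about 130 lines).  `Sys r t m B = Fin r → Fin t → Fin m × (Fin B → ZMod 2)`.  PROOF.
`card_pair`: for fixed `x`, the number of pairs `(v, σ)` with `sub x v + σ ∉ A` is `m * (2^B - Nat.card A)`: for every `v`, `σ ↦ sub x v + σ` is a bijection.
`count_sat`: `ω` satisfies all constraints at `x` iff for every `j` not (all `t` pairs are bad); number of `ω j : Fin t → pairs` with all pairs bad: `(m (2^B - |A|))^t` (`Fintype.card_pi`-like, `Fintype.piFinset`,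
`Fintype.card_piFinset`); so the number of good `ω j` is `(m 2^B)^t - (m (2^B - |A|))^t = (m 2^B)^t (1 - (1 - η)^t)` with `η = |A| / 2^B`, and the number of `ω` is its `r`-th power.  (`Fintype.card (Sys r t m B) = ((m * 2^B)^t)^r`.)
`count_unsat`: union over the `2^(m*B)` points `x` (`Finset.card_biUnion_le`).
-/

set_option autoImplicit false
open scoped Classical

namespace H98DH

private theorem ra_card_Y (B : ℕ) : Fintype.card (Fin B → ZMod 2) = 2 ^ B := by
  rw [Fintype.card_fun, ZMod.card, Fintype.card_fin]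

private theorem ra_natCard {B : ℕ} (A : Set (Fin B → ZMod 2)) :
    Nat.card A = (Finset.univ.filter (fun σ : Fin B → ZMod 2 => σ ∈ A)).card := by
  rw [Nat.card_eq_fintype_card, Fintype.card_subtype]

private theorem ra_split {B : ℕ} (A : Set (Fin B → ZMod 2)) :
    Nat.card A + (Finset.univ.filter (fun σ : Fin B → ZMod 2 => σ ∉ A)).card = 2 ^ B := by
  have h := Finset.card_filter_add_card_filter_not (s := (Finset.univ : Finset (Fin B → ZMod 2))) (fun σ => σ ∈ A)
  rw [Finset.card_univ, ra_card_Y] at h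
  rw [ra_natCard]
  exact h

theorem card_pair {m B : ℕ} (A : Set (Fin B → ZMod 2)) (x : Fin (m * B) → ZMod 2) :
    (Finset.univ.filter (fun p : Fin m × (Fin B → ZMod 2) => sub x p.1 + p.2 ∉ A)).card =
      m * (2 ^ B - Nat.card A) := by
  have h1 : (Finset.univ.filter (fun p : Fin m × (Fin B → ZMod 2) => sub x p.1 + p.2 ∉ A)).card =
      ((Finset.univ : Finset (Fin m)) ×ˢ (Finset.univ.filter (fun σ : Fin B → ZMod 2 => σ ∉ A))).card := by
    refine Finset.card_bij (fun p _ => (p.1, sub x p.1 + p.2)) ?_ ?_ ?_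
    · rintro ⟨v, σ⟩ h
      rw [Finset.mem_filter] at h
      exact Finset.mem_product.2 ⟨Finset.mem_univ _, Finset.mem_filter.2 ⟨Finset.mem_univ _, h.2⟩⟩
    · rintro ⟨v, σ⟩ _ ⟨v', σ'⟩ _ h
      obtain ⟨h2, h3⟩ := Prod.mk.inj h
      have h2' : v = v' := h2
      subst h2'
      have h3' : sub x v + σ = sub x v + σ' := h3
      rw [add_left_cancel h3']
    · rintro ⟨v, τ⟩ h
      have h2 := (Finset.mem_filter.1 (Finset.mem_product.1 h).2).2
      have e : sub x v + (τ - sub x v) = τ := add_sub_cancel _ _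
      refine ⟨(v, τ - sub x v), Finset.mem_filter.2 ⟨Finset.mem_univ _, ?_⟩, ?_⟩
      · show sub x v + (τ - sub x v) ∉ A
        rw [e]
        exact h2
      · show (v, sub x v + (τ - sub x v)) = (v, τ)
        rw [e]
  have h2 := ra_split A
  rw [h1, Finset.card_product, Finset.card_univ, Fintype.card_fin]
  have h3 : (Finset.univ.filter (fun σ : Fin B → ZMod 2 => σ ∉ A)).card = 2 ^ B - Nat.card A := by omega
  rw [h3]

theorem card_Sys (r t m B : ℕ) : Fintype.card (Sys r t m B) = ((m * 2 ^ B) ^ t) ^ r := by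
  show Fintype.card (Fin r → Fin t → Fin m × (Fin B → ZMod 2)) = _
  rw [Fintype.card_fun, Fintype.card_fun, Fintype.card_prod, ra_card_Y, Fintype.card_fin, Fintype.card_fin,
    Fintype.card_fin]

theorem count_sat {r t m B : ℕ} (A : Set (Fin B → ZMod 2)) (x : Fin (m * B) → ZMod 2) :
    ((Finset.univ.filter (fun ω : Sys r t m B => ∀ j, x ∈ CB A ω j)).card : ℝ) =
      (1 - (1 - (Nat.card A : ℝ) / 2 ^ B) ^ t) ^ r * Fintype.card (Sys r t m B) := by
  obtain ⟨a, ha⟩ : ∃ a : ℕ, a = Nat.card A := ⟨_, rfl⟩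
  have haB : a ≤ 2 ^ B := by
    have := ra_split A
    omega
  -- the systems which are satisfied at `x`
  have h1 : (Finset.univ.filter (fun ω : Sys r t m B => ∀ j, x ∈ CB A ω j)) =
      Fintype.piFinset (fun _ : Fin r => Finset.univ.filter
        (fun w : Fin t → Fin m × (Fin B → ZMod 2) => ∃ i, sub x (w i).1 + (w i).2 ∈ A)) := by
    ext ω
    rw [Finset.mem_filter, Fintype.mem_piFinset]
    constructor
    · rintro ⟨-, h⟩ j
      exact Finset.mem_filter.2 ⟨Finset.mem_univ _, h j⟩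
    · intro h
      exact ⟨Finset.mem_univ _, fun j => (Finset.mem_filter.1 (h j)).2⟩
  -- all pairs bad
  have h2 : (Finset.univ.filter
      (fun w : Fin t → Fin m × (Fin B → ZMod 2) => ¬ ∃ i, sub x (w i).1 + (w i).2 ∈ A)) =
      Fintype.piFinset (fun _ : Fin t => Finset.univ.filter
        (fun p : Fin m × (Fin B → ZMod 2) => sub x p.1 + p.2 ∉ A)) := by
    ext w
    rw [Finset.mem_filter, Fintype.mem_piFinset]
    constructor
    · rintro ⟨-, h⟩ i
      exact Finset.mem_filter.2 ⟨Finset.mem_univ _, fun h2 => h ⟨i, h2⟩⟩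
    · rintro h
      refine ⟨Finset.mem_univ _, ?_⟩
      rintro ⟨i, hi⟩
      exact (Finset.mem_filter.1 (h i)).2 hi
  have h3 : (Finset.univ.filter
      (fun w : Fin t → Fin m × (Fin B → ZMod 2) => ¬ ∃ i, sub x (w i).1 + (w i).2 ∈ A)).card =
      (m * (2 ^ B - a)) ^ t := by
    rw [h2, Fintype.card_piFinset, Finset.prod_const, card_pair, Finset.card_univ, Fintype.card_fin, ha]
  have h4 := Finset.card_filter_add_card_filter_not
    (s := (Finset.univ : Finset (Fin t → Fin m × (Fin B → ZMod 2))))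
    (fun w => ∃ i, sub x (w i).1 + (w i).2 ∈ A)
  rw [h3, Finset.card_univ, Fintype.card_fun, Fintype.card_prod, ra_card_Y, Fintype.card_fin, Fintype.card_fin] at h4
  have h5 : (((Finset.univ.filter
      (fun w : Fin t → Fin m × (Fin B → ZMod 2) => ∃ i, sub x (w i).1 + (w i).2 ∈ A)).card : ℕ) : ℝ) =
      (1 - (1 - (a : ℝ) / 2 ^ B) ^ t) * ((m : ℝ) * 2 ^ B) ^ t := by
    have h6 : (((Finset.univ.filter
      (fun w : Fin t → Fin m × (Fin B → ZMod 2) => ∃ i, sub x (w i).1 + (w i).2 ∈ A)).card : ℕ) : ℝ) +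
      ((m : ℝ) * (2 ^ B - a)) ^ t = ((m : ℝ) * 2 ^ B) ^ t := by
      have h7 := congrArg (Nat.cast : ℕ → ℝ) h4
      push_cast [haB] at h7
      exact h7
    have hB : (2 : ℝ) ^ B ≠ 0 := by positivity
    have h8 : (m : ℝ) * (2 ^ B - a) = (1 - (a : ℝ) / 2 ^ B) * ((m : ℝ) * 2 ^ B) := by
      field_simp
    rw [h8, mul_pow] at h6
    linarith
  rw [h1, Fintype.card_piFinset, Finset.prod_const, card_Sys, Finset.card_univ, Fintype.card_fin]
  push_cast
  rw [h5, mul_pow, ha]

theorem count_unsat {r t m B : ℕ} (A : Set (Fin B → ZMod 2)) :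
    ((Finset.univ.filter (fun ω : Sys r t m B => ∃ x, ∀ j, x ∈ CB A ω j)).card : ℝ) ≤
      2 ^ (m * B) * (1 - (1 - (Nat.card A : ℝ) / 2 ^ B) ^ t) ^ r * Fintype.card (Sys r t m B) := by
  have h1 : (Finset.univ.filter (fun ω : Sys r t m B => ∃ x, ∀ j, x ∈ CB A ω j)) =
      (Finset.univ : Finset (Fin (m * B) → ZMod 2)).biUnion
        (fun x => Finset.univ.filter (fun ω : Sys r t m B => ∀ j, x ∈ CB A ω j)) := by
    ext ω
    rw [Finset.mem_filter, Finset.mem_biUnion]
    constructor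
    · rintro ⟨-, x, h⟩
      exact ⟨x, Finset.mem_univ _, Finset.mem_filter.2 ⟨Finset.mem_univ _, h⟩⟩
    · rintro ⟨x, -, h⟩
      exact ⟨Finset.mem_univ _, x, (Finset.mem_filter.1 h).2⟩
  rw [h1]
  have h2 : (((Finset.univ : Finset (Fin (m * B) → ZMod 2)).biUnion
        (fun x => Finset.univ.filter (fun ω : Sys r t m B => ∀ j, x ∈ CB A ω j))).card : ℝ) ≤
      ∑ x : Fin (m * B) → ZMod 2, ((Finset.univ.filter (fun ω : Sys r t m B => ∀ j, x ∈ CB A ω j)).card : ℝ) := by
    exact_mod_cast Finset.card_biUnion_le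
  refine h2.trans (le_of_eq ?_)
  rw [Finset.sum_congr rfl fun x _ => count_sat A x, Finset.sum_const, Finset.card_univ, ra_card_Y, nsmul_eq_mul]
  push_cast
  ring

end H98DH
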