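import Pool.Agent.H98.DH.Defs

/-!
ROW RB (random system: counting, part 2; about 170 lines).  PROOF.
`count_sub`: `J.biUnion (SB ω) ⊆ W` iff `(ω j i).1 ∈ W` for all `j ∈ J`, all `i`: `ω` in a `Fintype.piFinset` (twice): the number is `((|W| 2^B)^t)^|J| ((m 2^B)^t)^(r - |J|)`, and the total number is
`((m 2^B)^t)^r`.  (`Finset.prod_ite`/`Finset.prod_const`, `|J| ≤ r`.)
`card_powersetCard_le`: the number of sets `J` with `J.card = l` is `r.choose l ≤ r ^ l` (`Nat.choose_le_pow`).
`count_expd`: if `¬ Expd` there is `J` with `s < 2|J|`, `l = |J| ≤ s` and `|J.biUnion (SB ω)| ≤ D0 + l ≤ m`, so it is contained in a set `W` of exactly `D0 + l` blocks (`Finset.exists_superset_card_eq`).  Union bound over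
`l`, `J`, `W` with `count_sub`.
`count_free`: if `¬ Free L ω s T` there is nonempty `J`, `l = |J| ≤ s`, with `|J.biUnion (SB ω) \ H| ≤ l`, `H` = heavy blocks of `T`; there is `g : Fin l → Fin m` whose range contains `J.biUnion (SB ω) \ H` (`1 ≤ m`, `1 ≤ l`), so
`J.biUnion (SB ω) ⊆ W = H ∪ range g`, `|W| ≤ |H| + l`.  Union bound over `l`, `J` and the `m ^ l` functions `g`.
-/

set_option autoImplicit false
open scoped Classical

namespace H98DH

private theorem RB_mem {r t m B : ℕ} (J : Finset (Fin r)) (W : Finset (Fin m)) (ω : Sys r t m B) :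
    J.biUnion (SB ω) ⊆ W ↔ ∀ j ∈ J, ∀ i, (ω j i).1 ∈ W := by
  constructor
  · intro h j hj i
    apply h
    rw [Finset.mem_biUnion]
    exact ⟨j, hj, Finset.mem_image.2 ⟨i, Finset.mem_univ _, rfl⟩⟩
  · intro h v hv
    rw [Finset.mem_biUnion] at hv
    obtain ⟨j, hj, hv⟩ := hv
    obtain ⟨i, _, rfl⟩ := Finset.mem_image.1 hv
    exact h j hj i

theorem count_sub {r t m B : ℕ} (hm : 1 ≤ m) (J : Finset (Fin r)) (W : Finset (Fin m)) :
    ((Finset.univ.filter (fun ω : Sys r t m B => J.biUnion (SB ω) ⊆ W)).card : ℝ) ≤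
      ((W.card : ℝ) / m) ^ (t * J.card) * Fintype.card (Sys r t m B) := by
  have hm0 : (m : ℝ) ≠ 0 := by
    have : m ≠ 0 := by omega
    exact_mod_cast this
  have h1 : Finset.univ.filter (fun ω : Sys r t m B => J.biUnion (SB ω) ⊆ W) =
      Fintype.piFinset (fun j : Fin r => Fintype.piFinset (fun _ : Fin t =>
        if j ∈ J then W ×ˢ (Finset.univ : Finset (Fin B → ZMod 2)) else Finset.univ)) := by
    ext ω
    rw [Finset.mem_filter, Fintype.mem_piFinset, RB_mem]
    simp only [Finset.mem_univ, true_and, Fintype.mem_piFinset]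
    constructor
    · intro h j i
      by_cases hj : j ∈ J
      · rw [if_pos hj]
        exact Finset.mem_product.2 ⟨h j hj i, Finset.mem_univ _⟩
      · rw [if_neg hj]
        exact Finset.mem_univ _
    · intro h j hj i
      have h2 := h j i
      rw [if_pos hj] at h2
      exact (Finset.mem_product.1 h2).1
  have h2 : (Fintype.card (Sys r t m B) : ℝ) =
      ∏ _j : Fin r, ((m : ℝ) * Fintype.card (Fin B → ZMod 2)) ^ t := by
    rw [Finset.prod_const, Finset.card_univ, Fintype.card_fin]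
    have h3 : Fintype.card (Sys r t m B) = ((m * Fintype.card (Fin B → ZMod 2)) ^ t) ^ r := by
      simp only [Sys, Fintype.card_fun, Fintype.card_prod, Fintype.card_fin]
    rw [h3]
    push_cast
    rfl
  have h3 : ((W.card : ℝ) / m) ^ (t * J.card) = ∏ j : Fin r, (if j ∈ J then ((W.card : ℝ) / m) ^ t else 1) := by
    rw [Finset.prod_ite_mem, Finset.univ_inter, Finset.prod_const, pow_mul]
  rw [h1, Fintype.card_piFinset, h2, h3, ← Finset.prod_mul_distrib]
  push_cast
  apply le_of_eq
  apply Finset.prod_congr rfl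
  intro j _
  rw [Fintype.card_piFinset]
  by_cases hj : j ∈ J
  · simp only [if_pos hj, Finset.prod_const, Finset.card_univ, Fintype.card_fin, Finset.card_product]
    push_cast
    rw [← mul_pow]
    congr 1
    field_simp
  · simp only [if_neg hj, Finset.prod_const, Finset.card_univ, Fintype.card_fin, Fintype.card_prod]
    push_cast
    rw [one_mul]

private theorem RB_choose (n l : ℕ) : ((n.choose l : ℕ) : ℝ) ≤ (n : ℝ) ^ l := by
  exact_mod_cast Nat.choose_le_pow n l

theorem count_expd {r t m B s D0 : ℕ} (hm : 1 ≤ m) (hD : D0 + s ≤ m) :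
    ((Finset.univ.filter (fun ω : Sys r t m B => ¬ Expd (SB ω) s D0)).card : ℝ) ≤
      (∑ l ∈ (Finset.range (s + 1)).filter (fun l => s < 2 * l),
        (r : ℝ) ^ l * (m.choose (D0 + l) : ℝ) * (((D0 + l : ℕ) : ℝ) / m) ^ (t * l)) *
        Fintype.card (Sys r t m B) := by
  set I := (Finset.range (s + 1)).filter (fun l => s < 2 * l) with hI
  have h1 : Finset.univ.filter (fun ω : Sys r t m B => ¬ Expd (SB ω) s D0) ⊆
      I.biUnion (fun l => (Finset.powersetCard l (Finset.univ : Finset (Fin r)) ×ˢ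
        Finset.powersetCard (D0 + l) (Finset.univ : Finset (Fin m))).biUnion (fun p =>
          Finset.univ.filter (fun ω : Sys r t m B => p.1.biUnion (SB ω) ⊆ p.2))) := by
    intro ω hω
    have h2 := (Finset.mem_filter.1 hω).2
    unfold Expd at h2
    push Not at h2
    obtain ⟨J, hJ1, hJ2, hJ3⟩ := h2
    have h3 : D0 + J.card ≤ (Finset.univ : Finset (Fin m)).card := by
      rw [Finset.card_univ, Fintype.card_fin]
      omega
    obtain ⟨W, hW1, _, hW2⟩ := Finset.exists_subsuperset_card_eq (Finset.subset_univ (J.biUnion (SB ω))) hJ3 h3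
    rw [Finset.mem_biUnion]
    refine ⟨J.card, ?_, ?_⟩
    · rw [hI, Finset.mem_filter, Finset.mem_range]
      omega
    · rw [Finset.mem_biUnion]
      refine ⟨(J, W), ?_, ?_⟩
      · rw [Finset.mem_product, Finset.mem_powersetCard, Finset.mem_powersetCard]
        exact ⟨⟨Finset.subset_univ _, rfl⟩, ⟨Finset.subset_univ _, hW2⟩⟩
      · rw [Finset.mem_filter]
        exact ⟨Finset.mem_univ _, hW1⟩
  have h2 := Finset.card_le_card h1
  have h3 := le_trans h2 Finset.card_biUnion_le
  have h4 : ((Finset.univ.filter (fun ω : Sys r t m B => ¬ Expd (SB ω) s D0)).card : ℝ) ≤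
      ∑ l ∈ I, (((Finset.powersetCard l (Finset.univ : Finset (Fin r)) ×ˢ
        Finset.powersetCard (D0 + l) (Finset.univ : Finset (Fin m))).biUnion (fun p =>
          Finset.univ.filter (fun ω : Sys r t m B => p.1.biUnion (SB ω) ⊆ p.2))).card : ℝ) := by
    exact_mod_cast h3
  refine le_trans h4 ?_
  rw [Finset.sum_mul]
  apply Finset.sum_le_sum
  intro l _
  have h5 : (((Finset.powersetCard l (Finset.univ : Finset (Fin r)) ×ˢ
        Finset.powersetCard (D0 + l) (Finset.univ : Finset (Fin m))).biUnion (fun p =>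
          Finset.univ.filter (fun ω : Sys r t m B => p.1.biUnion (SB ω) ⊆ p.2))).card : ℝ) ≤
      ∑ p ∈ Finset.powersetCard l (Finset.univ : Finset (Fin r)) ×ˢ
        Finset.powersetCard (D0 + l) (Finset.univ : Finset (Fin m)),
          ((Finset.univ.filter (fun ω : Sys r t m B => p.1.biUnion (SB ω) ⊆ p.2)).card : ℝ) := by
    exact_mod_cast Finset.card_biUnion_le
  refine le_trans h5 ?_
  have h6 : ∀ p ∈ Finset.powersetCard l (Finset.univ : Finset (Fin r)) ×ˢ
        Finset.powersetCard (D0 + l) (Finset.univ : Finset (Fin m)),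
          ((Finset.univ.filter (fun ω : Sys r t m B => p.1.biUnion (SB ω) ⊆ p.2)).card : ℝ) ≤
            (((D0 + l : ℕ) : ℝ) / m) ^ (t * l) * Fintype.card (Sys r t m B) := by
    intro p hp
    rw [Finset.mem_product, Finset.mem_powersetCard, Finset.mem_powersetCard] at hp
    have h7 := count_sub (t := t) (B := B) hm p.1 p.2
    rw [hp.1.2, hp.2.2] at h7
    exact h7
  refine le_trans (Finset.sum_le_sum h6) ?_
  rw [Finset.sum_const, Finset.card_product, Finset.card_powersetCard, Finset.card_powersetCard,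
    Finset.card_univ, Finset.card_univ, Fintype.card_fin, Fintype.card_fin, nsmul_eq_mul]
  push_cast
  have h8 : 0 ≤ (((D0 : ℝ) + l) / m) ^ (t * l) * (Fintype.card (Sys r t m B) : ℝ) := by positivity
  have h9 : 0 ≤ (m.choose (D0 + l) : ℝ) := by positivity
  calc ((r.choose l : ℕ) : ℝ) * (m.choose (D0 + l) : ℝ) *
        ((((D0 : ℝ) + l) / m) ^ (t * l) * (Fintype.card (Sys r t m B) : ℝ))
      ≤ (r : ℝ) ^ l * (m.choose (D0 + l) : ℝ) *
        ((((D0 : ℝ) + l) / m) ^ (t * l) * (Fintype.card (Sys r t m B) : ℝ)) :=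
        mul_le_mul_of_nonneg_right (mul_le_mul_of_nonneg_right (RB_choose r l) h9) h8
    _ = (r : ℝ) ^ l * (m.choose (D0 + l) : ℝ) * (((D0 : ℝ) + l) / m) ^ (t * l) *
        (Fintype.card (Sys r t m B) : ℝ) := by ring

private theorem RB_cover {m l : ℕ} (hm : 1 ≤ m) (X : Finset (Fin m)) (hX : X.card ≤ l) :
    ∃ g : Fin l → Fin m, X ⊆ Finset.univ.image g := by
  refine ⟨fun i => if h : i.1 < X.card then (X.equivFin.symm ⟨i.1, h⟩).1 else ⟨0, hm⟩, ?_⟩
  intro x hx
  rw [Finset.mem_image]
  have h1 := (X.equivFin ⟨x, hx⟩).2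
  refine ⟨⟨(X.equivFin ⟨x, hx⟩).1, lt_of_lt_of_le h1 hX⟩, Finset.mem_univ _, ?_⟩
  rw [dif_pos h1]
  simp

theorem count_free {r t m B s : ℕ} (hm : 1 ≤ m) (L : Set (Finset (Fin B))) (T : Finset (Fin (m * B))) {h : ℕ}
    (hT : (heavy (blk m B) (LtB m L) T).card ≤ h) :
    ((Finset.univ.filter (fun ω : Sys r t m B => ¬ Free L ω s T)).card : ℝ) ≤
      (∑ l ∈ Finset.Icc 1 s, (r : ℝ) ^ l * (m : ℝ) ^ l * (((h + l : ℕ) : ℝ) / m) ^ (t * l)) *
        Fintype.card (Sys r t m B) := by
  set H := heavy (blk m B) (LtB m L) T with hH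
  have h1 : Finset.univ.filter (fun ω : Sys r t m B => ¬ Free L ω s T) ⊆
      (Finset.Icc 1 s).biUnion (fun l => (Finset.powersetCard l (Finset.univ : Finset (Fin r)) ×ˢ
        (Finset.univ : Finset (Fin l → Fin m))).biUnion (fun p =>
          Finset.univ.filter (fun ω : Sys r t m B => p.1.biUnion (SB ω) ⊆ H ∪ Finset.univ.image p.2))) := by
    intro ω hω
    have h2 := (Finset.mem_filter.1 hω).2
    unfold Free at h2
    push Not at h2
    obtain ⟨J, hJ1, hJ2, hJ3⟩ := h2
    obtain ⟨g, hg⟩ := RB_cover hm (J.biUnion (SB ω) \ H) hJ3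
    rw [Finset.mem_biUnion]
    refine ⟨J.card, ?_, ?_⟩
    · rw [Finset.mem_Icc]
      exact ⟨Finset.card_pos.2 hJ1, hJ2⟩
    · rw [Finset.mem_biUnion]
      refine ⟨(J, g), ?_, ?_⟩
      · rw [Finset.mem_product, Finset.mem_powersetCard]
        exact ⟨⟨Finset.subset_univ _, rfl⟩, Finset.mem_univ _⟩
      · rw [Finset.mem_filter]
        refine ⟨Finset.mem_univ _, ?_⟩
        intro v hv
        by_cases hvH : v ∈ H
        · exact Finset.mem_union_left _ hvH
        · exact Finset.mem_union_right _ (hg (Finset.mem_sdiff.2 ⟨hv, hvH⟩))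
  have h2 := Finset.card_le_card h1
  have h3 := le_trans h2 Finset.card_biUnion_le
  have h4 : ((Finset.univ.filter (fun ω : Sys r t m B => ¬ Free L ω s T)).card : ℝ) ≤
      ∑ l ∈ Finset.Icc 1 s, (((Finset.powersetCard l (Finset.univ : Finset (Fin r)) ×ˢ
        (Finset.univ : Finset (Fin l → Fin m))).biUnion (fun p =>
          Finset.univ.filter (fun ω : Sys r t m B => p.1.biUnion (SB ω) ⊆ H ∪ Finset.univ.image p.2))).card : ℝ) := by
    exact_mod_cast h3
  refine le_trans h4 ?_
  rw [Finset.sum_mul]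
  apply Finset.sum_le_sum
  intro l _
  have h5 : (((Finset.powersetCard l (Finset.univ : Finset (Fin r)) ×ˢ
        (Finset.univ : Finset (Fin l → Fin m))).biUnion (fun p =>
          Finset.univ.filter (fun ω : Sys r t m B => p.1.biUnion (SB ω) ⊆ H ∪ Finset.univ.image p.2))).card : ℝ) ≤
      ∑ p ∈ Finset.powersetCard l (Finset.univ : Finset (Fin r)) ×ˢ (Finset.univ : Finset (Fin l → Fin m)),
          ((Finset.univ.filter (fun ω : Sys r t m B => p.1.biUnion (SB ω) ⊆ H ∪ Finset.univ.image p.2)).card : ℝ) := by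
    exact_mod_cast Finset.card_biUnion_le
  refine le_trans h5 ?_
  have h6 : ∀ p ∈ Finset.powersetCard l (Finset.univ : Finset (Fin r)) ×ˢ (Finset.univ : Finset (Fin l → Fin m)),
          ((Finset.univ.filter (fun ω : Sys r t m B => p.1.biUnion (SB ω) ⊆ H ∪ Finset.univ.image p.2)).card : ℝ) ≤
            (((h + l : ℕ) : ℝ) / m) ^ (t * l) * Fintype.card (Sys r t m B) := by
    intro p hp
    rw [Finset.mem_product, Finset.mem_powersetCard] at hp
    have h7 := count_sub (t := t) (B := B) hm p.1 (H ∪ Finset.univ.image p.2)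
    rw [hp.1.2] at h7
    refine le_trans h7 ?_
    have h8 : (H ∪ Finset.univ.image p.2).card ≤ h + l := by
      refine le_trans (Finset.card_union_le _ _) (Nat.add_le_add hT ?_)
      refine le_trans Finset.card_image_le ?_
      rw [Finset.card_univ, Fintype.card_fin]
    have h9 : ((H ∪ Finset.univ.image p.2).card : ℝ) ≤ ((h + l : ℕ) : ℝ) := by exact_mod_cast h8
    apply mul_le_mul_of_nonneg_right _ (Nat.cast_nonneg _)
    apply pow_le_pow_left₀ (by positivity)
    exact div_le_div_of_nonneg_right h9 (Nat.cast_nonneg _)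
  refine le_trans (Finset.sum_le_sum h6) ?_
  rw [Finset.sum_const, Finset.card_product, Finset.card_powersetCard,
    Finset.card_univ, Fintype.card_fin, nsmul_eq_mul, Finset.card_univ, Fintype.card_fun, Fintype.card_fin,
    Fintype.card_fin]
  push_cast
  have h8 : 0 ≤ (((h : ℝ) + l) / m) ^ (t * l) * (Fintype.card (Sys r t m B) : ℝ) := by positivity
  have h9 : 0 ≤ (m : ℝ) ^ l := by positivity
  calc ((r.choose l : ℕ) : ℝ) * (m : ℝ) ^ l *
        ((((h : ℝ) + l) / m) ^ (t * l) * (Fintype.card (Sys r t m B) : ℝ))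
      ≤ (r : ℝ) ^ l * (m : ℝ) ^ l *
        ((((h : ℝ) + l) / m) ^ (t * l) * (Fintype.card (Sys r t m B) : ℝ)) :=
        mul_le_mul_of_nonneg_right (mul_le_mul_of_nonneg_right (RB_choose r l) h9) h8
    _ = (r : ℝ) ^ l * (m : ℝ) ^ l * (((h : ℝ) + l) / m) ^ (t * l) *
        (Fintype.card (Sys r t m B) : ℝ) := by ring

end H98DH
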