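import Pool.Agent.H98.DH.PV
import Pool.Agent.H98.DH.GC
import Pool.Agent.H98.DH.GW
import Pool.Agent.H98.DH.RA
import Pool.Agent.H98.DH.RB

/-!
ROW RC (weight of the sets with many heavy blocks, and existence of a good system; about 150 lines).  PROOF.
`heavy_gf`: `∑_T q^|T| a^(number of light blocks of T) = ∏_v ∑_(R ⊆ Fin B) q^|R| (if R ∈ L then a else 1)`, via the bijection `T ↦ (subT T v)_v` (`subT_ext`, `exists_subT`, `card_subT`, `heavy_ltB`, `Finset.prod_univ_sum`), and
`∑_R q^|R| (if R ∈ L then a else 1) = (1+q)^B - (1-a) (1+q)^B wt (q/(1+q)) L` (`wt_q` and `∑_R q^|R| = (1+q)^B`).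
`weight_heavy`: if `D1 < |heavy T|` then the number of light blocks is `≤ m - D1`, so `1 ≤ a^(light) / a^(m - D1)` (`0 < a ≤ 1`).
`exists_system`: let `M` = number of systems.  Bad systems of type 1 (some point satisfies everything) and of type 2 (`¬ Expd`): at most `M/8` each (`count_unsat`, `count_expd`).  Type 3: those `ω` with
`∑_(T, |heavy T| ≤ D1, ¬ Free) q^|T| > (1/4)(1+q)^n`, `n = m*B`: the sum over `ω` of the left side is `∑_T q^|T| #{ω | ¬ Free} ≤ (1/8) M ∑_T q^|T| = (1/8) M (1+q)^n` (`count_free`, `h4`), so their number is `≤ M/2`.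
`M/8 + M/8 + M/2 < M` (`M > 0` as `1 ≤ m`).  For a system of no type: `∑_(|heavy T| ≤ D1, Free) q^|T| = (1+q)^n - ∑_(D1 < |heavy T|) - ∑_(≤ D1, ¬ Free) ≥ (1 - 1/4 - 1/4)(1+q)^n` (`weight_heavy`, `h5`).
-/

set_option autoImplicit false
open scoped Classical

namespace H98DH

theorem heavy_gf {m B : ℕ} {q : ℝ} (hq : 0 < q) {L : Set (Finset (Fin B))} (hL : ∅ ∈ L) (a : ℝ) :
    ∑ T : Finset (Fin (m * B)), q ^ T.card * a ^ (m - (heavy (blk m B) (LtB m L) T).card) =
      ((1 + q) ^ B * (1 - (1 - a) * wt (q / (1 + q)) L)) ^ m := by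
  have hz : ∀ T : Finset (Fin (m * B)), q ^ T.card * a ^ (m - (heavy (blk m B) (LtB m L) T).card) =
      ∏ v : Fin m, (q ^ (subT T v).card * (if subT T v ∈ L then a else 1)) := by
    intro T
    rw [Finset.prod_mul_distrib, Finset.prod_pow_eq_pow_sum, ← card_subT]
    congr 1
    rw [Finset.prod_ite, Finset.prod_const, Finset.prod_const_one, mul_one, heavy_ltB hL T]
    congr 1
    have h1 := Finset.card_filter_add_card_filter_not (s := (Finset.univ : Finset (Fin m)))
      (fun v => subT T v ∈ L)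
    rw [Finset.card_univ, Fintype.card_fin] at h1
    have h2 : (Finset.univ.filter (fun v : Fin m => subT T v ∉ L)).card =
        (Finset.univ.filter (fun v : Fin m => ¬ (subT T v ∈ L))).card := rfl
    omega
  have hB : ∑ R : Finset (Fin B), q ^ R.card = (1 + q) ^ B := by
    have h1 := Fintype.sum_pow_mul_eq_add_pow (Fin B) q 1
    rw [Fintype.card_fin] at h1
    simp only [one_pow, mul_one] at h1
    rw [h1, add_comm]
  have hF : ∑ R : Finset (Fin B), (q ^ R.card * (if R ∈ L then a else 1)) =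
      (1 + q) ^ B * (1 - (1 - a) * wt (q / (1 + q)) L) := by
    have h1 : ∑ R : Finset (Fin B), (q ^ R.card * (if R ∈ L then a else 1)) =
        ∑ R : Finset (Fin B), q ^ R.card - (1 - a) *
          ∑ T ∈ Finset.univ.filter (fun T : Finset (Fin B) => T ∈ L), q ^ T.card := by
      rw [Finset.sum_filter, Finset.mul_sum, ← Finset.sum_sub_distrib]
      refine Finset.sum_congr rfl fun R _ => ?_
      by_cases hR : R ∈ L
      · rw [if_pos hR, if_pos hR]
        ring
      · rw [if_neg hR, if_neg hR]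
        ring
    rw [h1, hB, wt_q hq]
    ring
  rw [← hF]
  have h1 : (∑ R : Finset (Fin B), (q ^ R.card * (if R ∈ L then a else 1))) ^ m =
      ∏ _v : Fin m, ∑ R : Finset (Fin B), (q ^ R.card * (if R ∈ L then a else 1)) := by
    rw [Finset.prod_const, Finset.card_univ, Fintype.card_fin]
  rw [h1, Finset.prod_univ_sum]
  refine Finset.sum_nbij' (fun T i => subT T i) (fun x => unT x) ?_ ?_ ?_ ?_ ?_
  · intro T _
    rw [Fintype.mem_piFinset]
    intro i
    exact Finset.mem_univ _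
  · intro x _
    exact Finset.mem_univ _
  · intro T _
    exact unT_subT T
  · intro x _
    exact subT_unT x
  · intro T _
    exact hz T

theorem weight_heavy {m B : ℕ} {q : ℝ} (hq : 0 < q) {L : Set (Finset (Fin B))} (hL : ∅ ∈ L) {a : ℝ} (ha : 0 < a)
    (ha1 : a ≤ 1) (D1 : ℕ) :
    ∑ T ∈ Finset.univ.filter (fun T : Finset (Fin (m * B)) => D1 < (heavy (blk m B) (LtB m L) T).card), q ^ T.card ≤
      (1 + q) ^ (m * B) * ((1 - (1 - a) * wt (q / (1 + q)) L) ^ m / a ^ (m - D1)) := by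
  have h1 := heavy_gf (m := m) hq hL a
  have h2 : a ^ (m - D1) * ∑ T ∈ Finset.univ.filter (fun T : Finset (Fin (m * B)) =>
      D1 < (heavy (blk m B) (LtB m L) T).card), q ^ T.card ≤
      ∑ T : Finset (Fin (m * B)), q ^ T.card * a ^ (m - (heavy (blk m B) (LtB m L) T).card) := by
    rw [Finset.mul_sum]
    refine (Finset.sum_le_sum (g := fun T : Finset (Fin (m * B)) =>
      q ^ T.card * a ^ (m - (heavy (blk m B) (LtB m L) T).card)) fun T hT => ?_).trans
      (Finset.sum_le_sum_of_subset_of_nonneg (Finset.filter_subset _ _) fun T _ _ => ?_)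
    · have h3 := (Finset.mem_filter.1 hT).2
      rw [mul_comm]
      refine mul_le_mul_of_nonneg_left ?_ (pow_nonneg hq.le _)
      exact pow_le_pow_of_le_one ha.le ha1 (by omega)
    · exact mul_nonneg (pow_nonneg hq.le _) (pow_nonneg ha.le _)
  rw [h1, mul_pow, ← pow_mul, mul_comm B m] at h2
  have h3 : 0 < a ^ (m - D1) := pow_pos ha _
  rw [← mul_div_assoc, le_div_iff₀ h3, mul_comm]
  exact h2

theorem exists_system {r t m B s D0 D1 : ℕ} {A : Set (Fin B → ZMod 2)} {L : Set (Finset (Fin B))} (hm : 1 ≤ m)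
    (hL : ∅ ∈ L) {q : ℝ} (hq : 0 < q) (hD : D0 + s ≤ m)
    (h1 : (2 : ℝ) ^ (m * B) * (1 - (1 - (Nat.card A : ℝ) / 2 ^ B) ^ t) ^ r ≤ 1 / 8)
    (h3 : ∑ l ∈ (Finset.range (s + 1)).filter (fun l => s < 2 * l),
        (r : ℝ) ^ l * (m.choose (D0 + l) : ℝ) * (((D0 + l : ℕ) : ℝ) / m) ^ (t * l) ≤ 1 / 8)
    (h4 : ∑ l ∈ Finset.Icc 1 s, (r : ℝ) ^ l * (m : ℝ) ^ l * (((D1 + l : ℕ) : ℝ) / m) ^ (t * l) ≤ 1 / 8)
    (h5 : (1 - (1 - 9 / 10) * wt (q / (1 + q)) L) ^ m / (9 / 10) ^ (m - D1) ≤ 1 / 4) :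
    ∃ ω : Sys r t m B, (∀ x, ∃ j, x ∉ CB A ω j) ∧ Expd (SB ω) s D0 ∧
      1 / 2 * (1 + q) ^ (m * B) ≤ ∑ T ∈ Finset.univ.filter (fun T : Finset (Fin (m * B)) =>
        (heavy (blk m B) (LtB m L) T).card ≤ D1 ∧ Free L ω s T), q ^ T.card := by
  obtain ⟨M, hM⟩ : ∃ M : ℝ, M = (Fintype.card (Sys r t m B) : ℝ) := ⟨_, rfl⟩
  have hM0 : 0 < M := by
    haveI : Nonempty (Fin m) := ⟨⟨0, hm⟩⟩
    haveI : Nonempty (Sys r t m B) := ⟨fun _ _ => (Classical.arbitrary (Fin m), 0)⟩
    rw [hM]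
    exact_mod_cast Fintype.card_pos
  have hn0 : 0 < (1 + q) ^ (m * B) := by positivity
  have hall : ∑ T : Finset (Fin (m * B)), q ^ T.card = (1 + q) ^ (m * B) := by
    have h1 := Fintype.sum_pow_mul_eq_add_pow (Fin (m * B)) q 1
    rw [Fintype.card_fin] at h1
    simp only [one_pow, mul_one] at h1
    rw [h1, add_comm]
  obtain ⟨B1, hB1⟩ : ∃ B1 : Finset (Sys r t m B),
      B1 = Finset.univ.filter (fun ω : Sys r t m B => ∃ x, ∀ j, x ∈ CB A ω j) := ⟨_, rfl⟩
  obtain ⟨B2, hB2⟩ : ∃ B2 : Finset (Sys r t m B),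
      B2 = Finset.univ.filter (fun ω : Sys r t m B => ¬ Expd (SB ω) s D0) := ⟨_, rfl⟩
  obtain ⟨W, hW⟩ : ∃ W : Sys r t m B → ℝ, W = fun ω => ∑ T ∈ Finset.univ.filter
      (fun T : Finset (Fin (m * B)) => (heavy (blk m B) (LtB m L) T).card ≤ D1 ∧ ¬ Free L ω s T),
        q ^ T.card := ⟨_, rfl⟩
  obtain ⟨B3, hB3⟩ : ∃ B3 : Finset (Sys r t m B),
      B3 = Finset.univ.filter (fun ω : Sys r t m B => 1 / 4 * (1 + q) ^ (m * B) < W ω) := ⟨_, rfl⟩
  have c1 : (B1.card : ℝ) ≤ 1 / 8 * M := by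
    have h2 := count_unsat (r := r) (t := t) (m := m) A
    rw [← hB1, ← hM] at h2
    exact h2.trans (mul_le_mul_of_nonneg_right h1 hM0.le)
  have c2 : (B2.card : ℝ) ≤ 1 / 8 * M := by
    have h2 := count_expd (r := r) (t := t) (B := B) (s := s) (D0 := D0) hm hD
    rw [← hB2, ← hM] at h2
    exact h2.trans (mul_le_mul_of_nonneg_right h3 hM0.le)
  have hWn : ∀ ω, 0 ≤ W ω := by
    intro ω
    rw [hW]
    exact Finset.sum_nonneg fun T _ => pow_nonneg hq.le _
  have c3 : (B3.card : ℝ) ≤ 1 / 2 * M := by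
    have h2 : (B3.card : ℝ) * (1 / 4 * (1 + q) ^ (m * B)) ≤ ∑ ω : Sys r t m B, W ω := by
      calc (B3.card : ℝ) * (1 / 4 * (1 + q) ^ (m * B)) = ∑ _ω ∈ B3, (1 / 4 * (1 + q) ^ (m * B)) := by
            rw [Finset.sum_const, nsmul_eq_mul]
        _ ≤ ∑ ω ∈ B3, W ω := by
            refine Finset.sum_le_sum fun ω hω => ?_
            rw [hB3] at hω
            exact (Finset.mem_filter.1 hω).2.le
        _ ≤ ∑ ω : Sys r t m B, W ω :=
            Finset.sum_le_sum_of_subset_of_nonneg (Finset.subset_univ _) fun ω _ _ => hWn ω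
    have h6 : ∑ ω : Sys r t m B, W ω ≤ 1 / 8 * M * (1 + q) ^ (m * B) := by
      have h7 : ∑ ω : Sys r t m B, W ω = ∑ T : Finset (Fin (m * B)),
          ∑ ω : Sys r t m B, (if (heavy (blk m B) (LtB m L) T).card ≤ D1 ∧ ¬ Free L ω s T
            then q ^ T.card else 0) := by
        rw [Finset.sum_comm]
        refine Finset.sum_congr rfl fun ω _ => ?_
        rw [hW]
        exact Finset.sum_filter _ _
      rw [h7, ← hall, Finset.mul_sum]
      refine Finset.sum_le_sum fun T _ => ?_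
      by_cases hT : (heavy (blk m B) (LtB m L) T).card ≤ D1
      · have h8 := count_free (r := r) (t := t) (s := s) hm L T hT
        have h9 : ∑ ω : Sys r t m B, (if (heavy (blk m B) (LtB m L) T).card ≤ D1 ∧ ¬ Free L ω s T
            then q ^ T.card else 0) =
            ((Finset.univ.filter (fun ω : Sys r t m B => ¬ Free L ω s T)).card : ℝ) * q ^ T.card := by
          rw [← nsmul_eq_mul, ← Finset.sum_const, Finset.sum_filter]
          refine Finset.sum_congr rfl fun ω _ => ?_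
          by_cases h10 : Free L ω s T
          · rw [if_neg (fun h => h.2 h10), if_neg (fun h => h h10)]
          · rw [if_pos ⟨hT, h10⟩, if_pos h10]
        rw [h9]
        refine mul_le_mul_of_nonneg_right ?_ (pow_nonneg hq.le _)
        rw [← hM] at h8
        exact h8.trans (mul_le_mul_of_nonneg_right h4 hM0.le)
      · have h9 : ∑ ω : Sys r t m B, (if (heavy (blk m B) (LtB m L) T).card ≤ D1 ∧ ¬ Free L ω s T
            then q ^ T.card else 0) = 0 :=
          Finset.sum_eq_zero fun ω _ => if_neg fun h => hT h.1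
        rw [h9]
        have h10 : 0 ≤ q ^ T.card := pow_nonneg hq.le _
        have h11 : 0 ≤ 1 / 8 * M := by linarith
        exact mul_nonneg h11 h10
    have h12 := h2.trans h6
    have h13 : ((B3.card : ℝ) * (1 / 4)) * (1 + q) ^ (m * B) ≤ (1 / 8 * M) * (1 + q) ^ (m * B) := by
      rw [mul_assoc]
      exact h12
    have h14 := le_of_mul_le_mul_right h13 hn0
    linarith
  obtain ⟨ω, hω⟩ : ∃ ω : Sys r t m B, ω ∉ B1 ∧ ω ∉ B2 ∧ ω ∉ B3 := by
    by_contra hcon
    push Not at hcon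
    have h2 : (Finset.univ : Finset (Sys r t m B)) ⊆ B1 ∪ (B2 ∪ B3) := by
      intro ω _
      by_cases h6 : ω ∈ B1
      · exact Finset.mem_union_left _ h6
      · refine Finset.mem_union_right _ ?_
        by_cases h7 : ω ∈ B2
        · exact Finset.mem_union_left _ h7
        · exact Finset.mem_union_right _ (hcon ω h6 h7)
    have h6 := Finset.card_le_card h2
    have h7 := Finset.card_union_le B1 (B2 ∪ B3)
    have h8 := Finset.card_union_le B2 B3
    rw [Finset.card_univ] at h6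
    have h9 : (Fintype.card (Sys r t m B) : ℝ) ≤ (B1.card : ℝ) + ((B2.card : ℝ) + (B3.card : ℝ)) := by
      exact_mod_cast h6.trans (h7.trans (Nat.add_le_add_left h8 _))
    rw [← hM] at h9
    linarith
  obtain ⟨hω1, hω2, hω3⟩ := hω
  refine ⟨ω, ?_, ?_, ?_⟩
  · intro x
    by_contra hcon
    push Not at hcon
    apply hω1
    rw [hB1]
    exact Finset.mem_filter.2 ⟨Finset.mem_univ _, x, hcon⟩
  · by_contra hcon
    apply hω2
    rw [hB2]
    exact Finset.mem_filter.2 ⟨Finset.mem_univ _, hcon⟩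
  · have hw : W ω ≤ 1 / 4 * (1 + q) ^ (m * B) := by
      by_contra hcon
      apply hω3
      rw [hB3]
      exact Finset.mem_filter.2 ⟨Finset.mem_univ _, not_le.1 hcon⟩
    have hh := weight_heavy (m := m) hq hL (a := 9 / 10) (by norm_num) (by norm_num) D1
    have hh2 := hh.trans (mul_le_mul_of_nonneg_left h5 hn0.le)
    have hsplit : ∑ T : Finset (Fin (m * B)), q ^ T.card =
        ∑ T ∈ Finset.univ.filter (fun T : Finset (Fin (m * B)) =>
          D1 < (heavy (blk m B) (LtB m L) T).card), q ^ T.card +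
        (∑ T ∈ Finset.univ.filter (fun T : Finset (Fin (m * B)) =>
          (heavy (blk m B) (LtB m L) T).card ≤ D1 ∧ ¬ Free L ω s T), q ^ T.card +
        ∑ T ∈ Finset.univ.filter (fun T : Finset (Fin (m * B)) =>
          (heavy (blk m B) (LtB m L) T).card ≤ D1 ∧ Free L ω s T), q ^ T.card) := by
      rw [Finset.sum_filter, Finset.sum_filter, Finset.sum_filter, ← Finset.sum_add_distrib,
        ← Finset.sum_add_distrib]
      refine Finset.sum_congr rfl fun T _ => ?_
      by_cases h6 : (heavy (blk m B) (LtB m L) T).card ≤ D1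
      · rw [if_neg (not_lt.2 h6)]
        by_cases h7 : Free L ω s T
        · rw [if_neg (fun h => h.2 h7), if_pos ⟨h6, h7⟩, zero_add, zero_add]
        · rw [if_pos ⟨h6, h7⟩, if_neg (fun h => h7 h.2), zero_add, add_zero]
      · rw [if_pos (not_le.1 h6), if_neg (fun h => h6 h.1), if_neg (fun h => h6 h.1), add_zero, add_zero]
    rw [hW] at hw
    rw [hall] at hsplit
    linarith

end H98DH
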