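import Mathlib

/-!
ROW RD (numbers for the random system; about 170 lines, pure real analysis).  Here `eta m` is large, `X ≥ max(m, n)`, `Λ = Real.log X`, `t = ⌈5 Λ / η⌉₊`, `r = ⌈X / (1-η)^t⌉₊`.  PROOF.  Facts: `η ≤ 1/20`, `1 - η ≤ exp(-η)`,
`1 - η ≥ exp(-(η + η^2))` (`0 ≤ η ≤ 1/2`; e.g. from `Real.one_sub_inv_le_log_of_pos` or `Real.add_one_le_exp`: `exp(η+η^2) ≥ 1 + η + η^2 + (η+η²)²/2 ≥ 1/(1-η)` for `η ≤ 1/2`; any proof), `5Λ ≤ η t ≤ 5Λ + η`, `Λ ≥ 640`.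
`num_r`: `r ≤ X/(1-η)^t + 1 ≤ 2 X exp(t(η+η²)) ≤ 2 exp(Λ) exp((5Λ + 1/20)(21/20)) ≤ exp(7Λ) = X^7` (and `log r ≤ Λ + log 2 + t(η + η²)`).
`num_un`: `2^n (1 - (1-η)^t)^r ≤ 2^n exp(-r (1-η)^t) ≤ 2^n exp(-X) ≤ (2/e)^X ≤ 1/8` as `n ≤ X`, `X ≥ 8` (`Real.one_sub_le_exp_neg`, `log 2 < 0.7`).
`num_G`: `D1 = ⌊(1-1.8η) m⌋₊`, `l ≤ s = ⌊η m/20⌋₊`: `(D1 + l)/m ≤ 1 - 1.75 η ≤ exp(-1.75 η)`; the `l`-th term is at most `y^l`, `y = r m exp(-1.75 η t) ≤ exp(2Λ + log 2 + 1.05 η t - 1.75 η t) ≤ exp(2Λ + 1 - 3.5Λ) ≤ 1/16`, and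
`∑_(l ≥ 1) y^l ≤ 2 y ≤ 1/8`.
`num_E`: `D0 = ⌊(1-1.4η) m⌋₊`; for `s < 2l`, `l ≤ s`: `D0 + l ≤ (1 - 1.35η) m`, `η m < 40 l` (`η m < 20 (s+1) ≤ 40 l`); `y = m - (D0 + l)` satisfies `1.35 η m ≤ y ≤ 1.4 η m + 1 ≤ 57 l`;
`m.choose (D0 + l) = m.choose y ≤ m^y / y! ≤ (e m / y)^y ≤ (e/η)^y ≤ exp(57 l (1 + log (1/η))) ≤ exp(57 l Λ/640)` (`Nat.choose_le_pow_div`, `y! ≥ (y/e)^y`, i.e. `y^y / y! ≤ exp y`: `Real.pow_div_factorial_le_exp`);
the `l`-th term is at most `exp(l (Λ + log 2 + 1.05 η t + 0.09 Λ - 1.35 η t)) ≤ exp(l(1.09 Λ + 1 - 1.5 Λ)) ≤ (1/16)^l`, geometric sum again.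
`num_W`: `λ ≥ 2η`: `(1 - λ/10)^m ≤ exp(-0.2 η m)`, `(9/10)^(m - D1) ≥ (9/10)^(1.8 η m + 1)` (real power; `m - D1 ≤ 1.8 η m + 1`), `log(10/9) ≤ 0.1054`: quotient `≤ exp(-0.2 η m + 0.18972 η m + 0.1054) ≤ exp(-0.01 η m + 0.11) ≤ 1/4` if `η m ≥ 1000`.
You may split the file into RD, RD2 if you like.
-/

set_option autoImplicit false

namespace H98DH

theorem rd_exp_le {η : ℝ} (h0 : 0 < η) (h1 : η ≤ 1 / 20) : Real.exp (-(η + η ^ 2)) ≤ 1 - η := by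
  have h2 : 0 ≤ η + η ^ 2 := by positivity
  have h3 := Real.quadratic_le_exp_of_nonneg h2
  have h4 : 1 ≤ Real.exp (η + η ^ 2) * (1 - η) := by
    have h5 : (1 + (η + η ^ 2) + (η + η ^ 2) ^ 2 / 2) * (1 - η) ≤ Real.exp (η + η ^ 2) * (1 - η) :=
      mul_le_mul_of_nonneg_right h3 (by linarith)
    have h6 : 1 ≤ (1 + (η + η ^ 2) + (η + η ^ 2) ^ 2 / 2) * (1 - η) := by
      have h7 : (1 + (η + η ^ 2) + (η + η ^ 2) ^ 2 / 2) * (1 - η) - 1 =
          η ^ 2 * ((1 + η) ^ 2 * (1 - η) / 2 - η) := by ring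
      have h8 : 0 ≤ (1 + η) ^ 2 * (1 - η) / 2 - η := by nlinarith [mul_pos h0 h0]
      have h9 := mul_nonneg (sq_nonneg η) h8
      linarith
    linarith
  rw [Real.exp_neg, inv_le_iff_one_le_mul₀ (Real.exp_pos _)]
  linarith [mul_comm (Real.exp (η + η ^ 2)) (1 - η)]

theorem rd_inv_pow {η : ℝ} (h0 : 0 < η) (h1 : η ≤ 1 / 20) (t : ℕ) :
    1 / (1 - η) ^ t ≤ Real.exp (t * (η + η ^ 2)) := by
  have h2 : 0 < 1 - η := by linarith
  rw [div_le_iff₀ (pow_pos h2 t)]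
  have h3 : Real.exp (t * (η + η ^ 2)) = (Real.exp (η + η ^ 2)) ^ t := by rw [← Real.exp_nat_mul]
  rw [h3, ← mul_pow]
  have h4 := rd_exp_le h0 h1
  rw [Real.exp_neg, inv_le_iff_one_le_mul₀ (Real.exp_pos _)] at h4
  refine one_le_pow₀ ?_
  linarith [mul_comm (Real.exp (η + η ^ 2)) (1 - η)]

theorem rd_t {η Λ : ℝ} {t : ℕ} (h0 : 0 < η) (hΛ : 0 ≤ Λ) (ht : t = ⌈5 * Λ / η⌉₊) :
    5 * Λ ≤ η * t ∧ η * t ≤ 5 * Λ + η := by
  have h2 : 5 * Λ / η ≤ t := by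
    rw [ht]
    exact Nat.le_ceil _
  have h3 : (t : ℝ) < 5 * Λ / η + 1 := by
    rw [ht]
    exact Nat.ceil_lt_add_one (by positivity)
  constructor
  · rw [div_le_iff₀ h0] at h2
    linarith
  · have h4 : η * t ≤ η * (5 * Λ / η + 1) := mul_le_mul_of_nonneg_left h3.le h0.le
    have h5 : η * (5 * Λ / η + 1) = 5 * Λ + η := by
      field_simp
    linarith

theorem num_r {η X : ℝ} {t r : ℕ} (hX0 : 0 < X) (h0 : 0 < η) (h1 : η ≤ 1 / 20) (hX : 640 ≤ Real.log X)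
    (ht : t = ⌈5 * Real.log X / η⌉₊) (hr : r = ⌈X / (1 - η) ^ t⌉₊) :
    (r : ℝ) ≤ 2 * X * Real.exp (t * (η + η ^ 2)) ∧ (r : ℝ) ≤ X ^ 7 := by
  have hη : 0 < 1 - η := by linarith
  have hXe : X = Real.exp (Real.log X) := (Real.exp_log hX0).symm
  have hX1 : 1 ≤ X := by
    rw [hXe]
    exact Real.one_le_exp (by linarith)
  have h2 : (r : ℝ) ≤ 2 * X * Real.exp (t * (η + η ^ 2)) := by
    have h3 : (r : ℝ) < X / (1 - η) ^ t + 1 := by
      rw [hr]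
      exact Nat.ceil_lt_add_one (by positivity)
    have h4 : X / (1 - η) ^ t ≤ X * Real.exp (t * (η + η ^ 2)) := by
      have := mul_le_mul_of_nonneg_left (rd_inv_pow h0 h1 t) hX0.le
      rwa [mul_one_div] at this
    have h5 : 1 ≤ Real.exp (t * (η + η ^ 2)) := Real.one_le_exp (by positivity)
    have h6 : 1 ≤ X * Real.exp (t * (η + η ^ 2)) := one_le_mul_of_one_le_of_one_le hX1 h5
    linarith
  refine ⟨h2, h2.trans ?_⟩
  obtain ⟨h7, h8⟩ := rd_t h0 (by linarith : 0 ≤ Real.log X) ht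
  have h9 : (t : ℝ) * (η + η ^ 2) ≤ (5 * Real.log X + 1 / 20) * (21 / 20) := by
    have h10 : (t : ℝ) * (η + η ^ 2) = (η * t) * (1 + η) := by ring
    rw [h10]
    refine mul_le_mul (by linarith) (by linarith) (by linarith) (by linarith)
  have h11 : (2 : ℝ) ≤ Real.exp 1 := by
    have := Real.add_one_le_exp 1
    linarith
  have h12 : X ^ 7 = Real.exp (7 * Real.log X) := by
    rw [show (7 : ℝ) * Real.log X = ((7 : ℕ) : ℝ) * Real.log X by norm_num, Real.exp_nat_mul, Real.exp_log hX0]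
  calc 2 * X * Real.exp (t * (η + η ^ 2)) ≤ Real.exp 1 * Real.exp (Real.log X) * Real.exp ((5 * Real.log X + 1 / 20) * (21 / 20)) := by
        rw [Real.exp_log hX0]
        refine mul_le_mul (mul_le_mul_of_nonneg_right h11 hX0.le) (Real.exp_le_exp.mpr h9) (Real.exp_pos _).le (by positivity)
    _ = Real.exp (1 + Real.log X + (5 * Real.log X + 1 / 20) * (21 / 20)) := by rw [Real.exp_add, Real.exp_add]
    _ ≤ Real.exp (7 * Real.log X) := Real.exp_le_exp.mpr (by linarith)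
    _ = X ^ 7 := h12.symm

theorem num_un {η X : ℝ} {n t r : ℕ} (h0 : 0 < η) (h1 : η ≤ 1 / 20) (hX : 640 ≤ Real.log X) (hn : (n : ℝ) ≤ X)
    (hr : r = ⌈X / (1 - η) ^ t⌉₊) : (2 : ℝ) ^ n * (1 - (1 - η) ^ t) ^ r ≤ 1 / 8 := by
  have hX0 : 0 ≤ X := (Nat.cast_nonneg n).trans hn
  have hX1 : 0 < X := by
    rcases hX0.lt_or_eq with h | h
    · exact h
    · rw [← h, Real.log_zero] at hX
      linarith
  have hXe : X = Real.exp (Real.log X) := (Real.exp_log hX1).symm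
  have hXb : 641 ≤ X := by
    rw [hXe]
    have := Real.add_one_le_exp (Real.log X)
    linarith
  have hη : 0 < 1 - η := by linarith
  set u := (1 - η) ^ t with hu
  have hu0 : 0 < u := pow_pos hη t
  have hu1 : u ≤ 1 := pow_le_one₀ hη.le (by linarith)
  have h2 : X ≤ r * u := by
    have h3 : X / u ≤ r := by
      rw [hr]
      exact Nat.le_ceil _
    rwa [div_le_iff₀ hu0] at h3
  have h4 : (1 - u) ^ r ≤ Real.exp (-X) := by
    calc (1 - u) ^ r ≤ (Real.exp (-u)) ^ r := pow_le_pow_left₀ (by linarith) (Real.one_sub_le_exp_neg u) r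
      _ = Real.exp (r * -u) := by rw [← Real.exp_nat_mul]
      _ ≤ Real.exp (-X) := Real.exp_le_exp.mpr (by linarith)
  have h5 : (2 : ℝ) ^ n ≤ Real.exp (X * (7 / 10)) := by
    have h6 : (2 : ℝ) ≤ Real.exp (7 / 10) := by
      rw [← Real.exp_log (show (0 : ℝ) < 2 by norm_num)]
      exact Real.exp_le_exp.mpr (by linarith [Real.log_two_lt_d9])
    calc (2 : ℝ) ^ n ≤ (Real.exp (7 / 10)) ^ n := pow_le_pow_left₀ (by norm_num) h6 n
      _ = Real.exp (n * (7 / 10)) := by rw [← Real.exp_nat_mul]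
      _ ≤ Real.exp (X * (7 / 10)) := Real.exp_le_exp.mpr (by linarith)
  calc (2 : ℝ) ^ n * (1 - u) ^ r ≤ Real.exp (X * (7 / 10)) * Real.exp (-X) :=
        mul_le_mul h5 h4 (pow_nonneg (by linarith) r) (Real.exp_pos _).le
    _ = Real.exp (X * (7 / 10) + -X) := by rw [Real.exp_add]
    _ ≤ Real.exp (-7) := Real.exp_le_exp.mpr (by linarith)
    _ ≤ 1 / 8 := by
        rw [Real.exp_neg, inv_eq_one_div]
        have := Real.add_one_le_exp (7 : ℝ)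
        exact one_div_le_one_div_of_le (by norm_num) (by linarith)

theorem rd_geom (s : ℕ) : ∑ l ∈ Finset.Icc 1 s, (1 / 16 : ℝ) ^ l ≤ 1 / 8 * (1 - (1 / 16) ^ s) := by
  induction s with
  | zero => simp
  | succ s ih =>
    rw [Finset.sum_Icc_succ_top (by omega)]
    have h : (1 / 16 : ℝ) ^ (s + 1) = (1 / 16) ^ s * (1 / 16) := pow_succ _ _
    rw [h]
    have h2 : (0 : ℝ) ≤ (1 / 16) ^ s := by positivity
    linarith

theorem num_G {η X : ℝ} {m t r s D1 : ℕ} (h0 : 0 < η) (h1 : η ≤ 1 / 20) (hX : 640 ≤ Real.log X) (hm : (m : ℝ) ≤ X)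
    (hηm : 1000 ≤ η * m) (ht : t = ⌈5 * Real.log X / η⌉₊) (hr : r = ⌈X / (1 - η) ^ t⌉₊)
    (hs : s = ⌊η * m / 20⌋₊) (hD1 : D1 = ⌊(1 - 9 / 5 * η) * m⌋₊) :
    ∑ l ∈ Finset.Icc 1 s, (r : ℝ) ^ l * (m : ℝ) ^ l * (((D1 + l : ℕ) : ℝ) / m) ^ (t * l) ≤ 1 / 8 := by
  have hm0 : (0 : ℝ) < m := by
    by_contra hcon
    have h2 : (m : ℝ) = 0 := le_antisymm (not_lt.mp hcon) (Nat.cast_nonneg m)
    rw [h2, mul_zero] at hηm
    linarith
  have hX0 : 0 < X := hm0.trans_le hm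
  have hXe : X = Real.exp (Real.log X) := (Real.exp_log hX0).symm
  obtain ⟨h7, h8⟩ := rd_t h0 (by linarith : 0 ≤ Real.log X) ht
  have hrr := (num_r hX0 h0 h1 hX ht hr).1
  have hy : (r : ℝ) * m * Real.exp (-(7 / 4 * η)) ^ t ≤ 1 / 16 := by
    have h3 : Real.exp (-(7 / 4 * η)) ^ t = Real.exp (-(7 / 4) * (η * t)) := by
      rw [← Real.exp_nat_mul]
      congr 1
      ring
    rw [h3]
    have h4 : (r : ℝ) ≤ 2 * X * Real.exp (21 / 20 * (η * t)) := by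
      refine hrr.trans (mul_le_mul_of_nonneg_left (Real.exp_le_exp.mpr ?_) (by positivity))
      have h5 : (t : ℝ) * (η + η ^ 2) = (1 + η) * (η * t) := by ring
      rw [h5]
      exact mul_le_mul_of_nonneg_right (by linarith) (by positivity)
    calc (r : ℝ) * m * Real.exp (-(7 / 4) * (η * t))
        ≤ 2 * X * Real.exp (21 / 20 * (η * t)) * X * Real.exp (-(7 / 4) * (η * t)) := by
          refine mul_le_mul_of_nonneg_right ?_ (Real.exp_pos _).le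
          exact mul_le_mul h4 hm hm0.le (by positivity)
      _ = 2 * (X * X * (Real.exp (21 / 20 * (η * t)) * Real.exp (-(7 / 4) * (η * t)))) := by ring
      _ = 2 * (Real.exp (Real.log X + Real.log X + (21 / 20 * (η * t) + -(7 / 4) * (η * t)))) := by
          rw [Real.exp_add, Real.exp_add, Real.exp_add, Real.exp_log hX0]
      _ ≤ 2 * Real.exp (-31) := by
          refine mul_le_mul_of_nonneg_left (Real.exp_le_exp.mpr ?_) (by norm_num)
          linarith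
      _ ≤ 1 / 16 := by
          have h6 := Real.add_one_le_exp (31 : ℝ)
          have h9 : Real.exp (-31) ≤ 1 / 32 := by
            rw [Real.exp_neg, inv_eq_one_div]
            exact one_div_le_one_div_of_le (by norm_num) (by linarith)
          linarith
  have hterm : ∀ l ∈ Finset.Icc 1 s, (r : ℝ) ^ l * (m : ℝ) ^ l * (((D1 + l : ℕ) : ℝ) / m) ^ (t * l) ≤ (1 / 16) ^ l := by
    intro l hl
    have hls : l ≤ s := (Finset.mem_Icc.mp hl).2
    have h10 : (l : ℝ) ≤ η * m / 20 := by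
      have h11 : (s : ℝ) ≤ η * m / 20 := by
        rw [hs]
        exact Nat.floor_le (by positivity)
      exact (Nat.cast_le.mpr hls).trans h11
    have h12 : (D1 : ℝ) ≤ (1 - 9 / 5 * η) * m := by
      rw [hD1]
      exact Nat.floor_le (mul_nonneg (by linarith) hm0.le)
    have h13 : (((D1 + l : ℕ) : ℝ) / m) ≤ Real.exp (-(7 / 4 * η)) := by
      refine le_trans ?_ (Real.one_sub_le_exp_neg _)
      rw [div_le_iff₀ hm0]
      push_cast
      nlinarith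
    have h14 : (0 : ℝ) ≤ ((D1 + l : ℕ) : ℝ) / m := by positivity
    calc (r : ℝ) ^ l * (m : ℝ) ^ l * (((D1 + l : ℕ) : ℝ) / m) ^ (t * l)
        = ((r : ℝ) * m * (((D1 + l : ℕ) : ℝ) / m) ^ t) ^ l := by
          rw [mul_pow, mul_pow, ← pow_mul]
      _ ≤ ((r : ℝ) * m * Real.exp (-(7 / 4 * η)) ^ t) ^ l := by
          refine pow_le_pow_left₀ (by positivity) ?_ l
          exact mul_le_mul_of_nonneg_left (pow_le_pow_left₀ h14 h13 t) (by positivity)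
      _ ≤ (1 / 16) ^ l := pow_le_pow_left₀ (by positivity) hy l
  have h15 := (Finset.sum_le_sum hterm).trans (rd_geom s)
  have h16 : (0 : ℝ) ≤ (1 / 16) ^ s := by positivity
  linarith

theorem num_W {η l : ℝ} {m D1 : ℕ} (h0 : 0 < η) (h1 : η ≤ 1 / 20) (hηm : 1000 ≤ η * m)
    (hD1 : D1 = ⌊(1 - 9 / 5 * η) * m⌋₊) (hl : 2 * η ≤ l) (hl1 : l ≤ 1) :
    (1 - (1 - 9 / 10) * l) ^ m / (9 / 10 : ℝ) ^ (m - D1) ≤ 1 / 4 := by
  have hm0 : (0 : ℝ) ≤ m := Nat.cast_nonneg m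
  have h2 : (1 - (1 - 9 / 10) * l) ^ m ≤ Real.exp (-(1 / 5 * (η * m))) := by
    calc (1 - (1 - 9 / 10) * l) ^ m ≤ (Real.exp (-((1 - 9 / 10) * l))) ^ m :=
          pow_le_pow_left₀ (by linarith) (Real.one_sub_le_exp_neg _) m
      _ = Real.exp (m * -((1 - 9 / 10) * l)) := by rw [← Real.exp_nat_mul]
      _ ≤ Real.exp (-(1 / 5 * (η * m))) := by
          refine Real.exp_le_exp.mpr ?_
          nlinarith [mul_le_mul_of_nonneg_right hl hm0]
  have h3 : Real.exp (-(106 / 1000 : ℝ)) ≤ 9 / 10 := by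
    have h4 := Real.quadratic_le_exp_of_nonneg (show (0 : ℝ) ≤ 106 / 1000 by norm_num)
    rw [Real.exp_neg, inv_le_comm₀ (Real.exp_pos _) (by norm_num)]
    refine le_trans ?_ h4
    norm_num
  have h5 : ((m - D1 : ℕ) : ℝ) ≤ 9 / 5 * (η * m) + 1 := by
    have h6 : (1 - 9 / 5 * η) * m < D1 + 1 := by
      rw [hD1]
      exact Nat.lt_floor_add_one _
    have h7 : D1 ≤ m := by
      rw [hD1]
      refine Nat.floor_le_of_le ?_
      nlinarith
    rw [Nat.cast_sub h7]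
    nlinarith
  have h8 : Real.exp (-(106 / 1000 * (9 / 5 * (η * m) + 1))) ≤ (9 / 10 : ℝ) ^ (m - D1) := by
    calc Real.exp (-(106 / 1000 * (9 / 5 * (η * m) + 1))) ≤ Real.exp (((m - D1 : ℕ) : ℝ) * -(106 / 1000)) := by
          refine Real.exp_le_exp.mpr ?_
          linarith
      _ = (Real.exp (-(106 / 1000 : ℝ))) ^ (m - D1) := by rw [← Real.exp_nat_mul]
      _ ≤ (9 / 10 : ℝ) ^ (m - D1) := pow_le_pow_left₀ (Real.exp_pos _).le h3 _
  rw [div_le_iff₀ (by positivity)]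
  refine h2.trans ?_
  calc Real.exp (-(1 / 5 * (η * m))) ≤ Real.exp (-(106 / 1000 * (9 / 5 * (η * m) + 1)) + -3) := by
        refine Real.exp_le_exp.mpr ?_
        linarith
    _ = Real.exp (-(106 / 1000 * (9 / 5 * (η * m) + 1))) * Real.exp (-3) := Real.exp_add _ _
    _ ≤ (9 / 10 : ℝ) ^ (m - D1) * (1 / 4) := by
        refine mul_le_mul h8 ?_ (Real.exp_pos _).le (by positivity)
        rw [Real.exp_neg, inv_eq_one_div]
        have := Real.add_one_le_exp (3 : ℝ)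
        exact one_div_le_one_div_of_le (by norm_num) (by linarith)
    _ = 1 / 4 * (9 / 10 : ℝ) ^ (m - D1) := mul_comm _ _

end H98DH
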