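import Pool.Agent.H98.DH.CL
import Pool.Agent.H98.DH.OB

/-!
ROW RS (about 90 lines).  PROOF.  `U = heavy blk Lt T`, `A = Sup S s U`.  Take `p` from `sup_hall` (`J ⊇ A`).  For `j ∈ J \ A` take `P j` from `hpriv j (p j)` with `L = prt blk T (p j)`
(light because `p j ∉ U`).  For `J1 ⊆ J \ A` let `X J1 = {x | x ∈ Sat C A ∧ ∀ j ∈ J1, ∃ z ∈ P j, ∀ i, blk i = p j → x i = z i}`.
`X (J \ A) ⊆ Sat C J`: for `j ∈ J \ A`, `x = merge blk (p j) z x ∈ C j`.  So `Red o (van (Sat C J)) T → Red o (van (X (J \ A))) T` (`van` is antitone).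
Induction over `J1` (`Finset.induction_on`, `J1 ⊆ J \ A`): `Red o (van (X (insert j J1))) T → Red o (van (X J1)) T` by `one_block` with `v = p j`, `Z = X J1`, `W = X (insert j J1)`, `P = P j`:
for `x ∈ X J1`, `z ∈ P j` the point `x' = merge blk (p j) z x` satisfies `Sat C A` (`hC`: `x'` and `x` agree on the blocks of `S j'`, `j' ∈ A`, since `p j ∉ A.biUnion S`), agrees with `x` on the blocks `p j'`, `j' ∈ J1`
(`p j' ≠ p j` by injectivity), and with `z` on the block `p j`.  Finally `X ∅ = Sat C A`.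
-/

set_option autoImplicit false
open scoped Classical

namespace H98DH

open H96RE H91RE

theorem red_sup {n m : ℕ} {ι : Type} [Fintype ι] {blk : Fin n → Fin m} {Lt : Finset (Fin n) → Prop}
    {o : Finset (Fin n) → ℕ} (ho : HOrd blk Lt o)
    {S : ι → Finset (Fin m)} {C : ι → Set (Fin n → ZMod 2)}
    (hC : ∀ j x y, (∀ i, blk i ∈ S j → x i = y i) → x ∈ C j → y ∈ C j) (hpriv : Priv blk Lt S C)
    {s D0 : ℕ} (hE : Expd S s D0) (T : Finset (Fin n)) (hT : (heavy blk Lt T).card ≤ D0)
    (J : Finset ι) (h1 : Sup S s (heavy blk Lt T) ⊆ J) (h2 : J.card ≤ s)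
    (hred : Red o (H96RX.van (Sat C J)) T) : Red o (H96RX.van (Sat C (Sup S s (heavy blk Lt T)))) T := by
  set A := Sup S s (heavy blk Lt T) with hA
  by_cases hne : (J \ A).Nonempty
  swap
  · have e : J = A := Finset.Subset.antisymm
      (Finset.sdiff_eq_empty_iff_subset.1 (Finset.not_nonempty_iff_eq_empty.1 hne)) h1
    rw [← e]
    exact hred
  obtain ⟨p, hpinj, hp⟩ := sup_hall hE hT h1 h2 hne
  have hlight : ∀ j ∈ J \ A, Lt (prt blk T (p j)) := by
    intro j hj
    by_contra h
    exact (hp j hj).2.1 (Finset.mem_filter.2 ⟨Finset.mem_univ _, h⟩)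
  have hP : ∀ j : ι, ∃ P : Finset (Fin n → ZMod 2), j ∈ J \ A →
      ((∀ z ∈ P, ∀ x, merge blk (p j) z x ∈ C j) ∧
        ∀ R : Finset (Fin n), (∀ i ∈ R, blk i = p j) → Lt R →
          ∑ z ∈ P, mono R z = if R = prt blk T (p j) then 1 else 0) := by
    intro j
    by_cases hj : j ∈ J \ A
    · obtain ⟨P, h3, h4⟩ := hpriv j (p j) (hp j hj).1 (prt blk T (p j))
        (fun i hi => (Finset.mem_filter.1 hi).2) (hlight j hj)
      exact ⟨P, fun _ => ⟨h3, h4⟩⟩
    · exact ⟨∅, fun h => absurd h hj⟩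
  choose P hP using hP
  let X : Finset ι → Set (Fin n → ZMod 2) := fun J1 =>
    {x | x ∈ Sat C A ∧ ∀ j ∈ J1, ∃ z ∈ P j, ∀ i, blk i = p j → x i = z i}
  have hX : X (J \ A) ⊆ Sat C J := by
    intro x hx j hj
    by_cases hjA : j ∈ A
    · exact hx.1 j hjA
    · obtain ⟨z, hz, hxz⟩ := hx.2 j (Finset.mem_sdiff.2 ⟨hj, hjA⟩)
      have h5 := (hP j (Finset.mem_sdiff.2 ⟨hj, hjA⟩)).1 z hz x
      have e : merge blk (p j) z x = x := by
        funext i
        unfold merge
        split_ifs with h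
        · exact (hxz i h).symm
        · rfl
      rwa [e] at h5
  have hmono : ∀ {V W : Submodule (ZMod 2) (Fn n)}, V ≤ W → Red o V T → Red o W T :=
    fun h h' => (sup_le_sup_right h _) h'
  have hvan : ∀ {Z W : Set (Fin n → ZMod 2)}, Z ⊆ W → H96RX.van W ≤ H96RX.van Z :=
    fun h g hg x hx => hg x (h hx)
  have key : ∀ J1 : Finset ι, J1 ⊆ J \ A → Red o (H96RX.van (X J1)) T →
      Red o (H96RX.van (Sat C A)) T := by
    intro J1
    induction J1 using Finset.induction_on with
    | empty =>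
      intro _ h
      have h8 : Sat C A ⊆ X ∅ := fun x hx => ⟨hx, fun j hj => absurd hj (Finset.notMem_empty j)⟩
      exact hmono (hvan h8) h
    | insert j J1 hj ih =>
      intro hsub h
      apply ih (fun _ h => hsub (Finset.mem_insert_of_mem h))
      have hjm : j ∈ J \ A := hsub (Finset.mem_insert_self _ _)
      refine one_block ho (p j) (X J1) (X (insert j J1)) T (hlight j hjm) (P j) (hP j hjm).2 ?_ h
      intro x hx z hz
      refine ⟨?_, ?_⟩
      · intro j' hj'
        apply hC j' x _ _ (hx.1 j' hj')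
        intro i hi
        have h6 : blk i ≠ p j := fun e =>
          (hp j hjm).2.2 (Finset.mem_biUnion.2 ⟨j', hj', e ▸ hi⟩)
        unfold merge
        rw [if_neg h6]
      · intro j' hj'
        rcases Finset.mem_insert.1 hj' with rfl | hj''
        · exact ⟨z, hz, fun i hi => by unfold merge; rw [if_pos hi]⟩
        · obtain ⟨z', hz', h5⟩ := hx.2 j' hj''
          refine ⟨z', hz', fun i hi => ?_⟩
          have h6 : blk i ≠ p j := by
            intro e
            have h7 := hpinj j' (hsub (Finset.mem_insert_of_mem hj'')) j hjm (hi.symm.trans e)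
            rw [h7] at hj''
            exact hj hj''
          unfold merge
          rw [if_neg h6]
          exact h5 i hi
  exact key (J \ A) subset_rfl (hmono (hvan hX) hred)

end H98DH
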