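import Pool.Agent.H98.DH.San

/-!
One sequence of constraint sets for all depths (project DH; helper91, after a remark of helper61): monotonicity of `Refutes` in all parameters and the
diagonal argument.
-/

set_option autoImplicit false
open scoped Classical

namespace H98DH

open H96RE H91RE

theorem par_mono_e {n e e' : ℕ} (he : e ≤ e') (G : ℕ → Fn n) (I : Set ℕ) : Par e G I ≤ Par e' G I := by
  unfold Par
  exact sup_le_sup (Pol_mono he) le_rfl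

/-- `Refutes` is monotone in the degree, the number of levels, the fan-in and the number of gates -/
theorem Refutes.mono_all {n : ℕ} {ι : Type} {C : ι → Set (Fin n → ZMod 2)} {e e' D D' f f' S S' : ℕ} (he : e ≤ e')
    (hD : D ≤ D') (hD' : 1 ≤ D') (hf : f ≤ f') (hS : S ≤ S') (h : Refutes C e D f S) : Refutes C e' D' f' S' := by
  refine Refutes.mono hD' hS ?_
  obtain ⟨c, N, F, hF1, hF2, hF3⟩ := h
  let c' : Circ n e' D' S :=
    { lev := c.lev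
      G := c.G
      pos := c.pos
      le := fun g hg => (c.le g hg).trans hD
      or := fun g hg => by
        obtain ⟨H, hH1, hH2⟩ := c.or g hg
        exact ⟨H, fun k hk => par_mono_e he _ _ (hH1 k hk), hH2⟩ }
  refine ⟨c', N, F, fun i hi => par_mono_e he _ _ (hF1 i hi), fun i hi => ?_, hF3⟩
  rcases hF2 i hi with h1 | ⟨K, hK1, hK2, hK3⟩
  · exact Or.inl h1
  · exact Or.inr ⟨K, hK1.trans hf, hK2, hK3⟩

/-- the diagonal argument -/
theorem diag (P : ℕ → ℕ → Prop) (h : ∀ K, ∃ N0, ∀ n, N0 ≤ n → P K n) (g : ℕ → ℕ)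
    (hg : Filter.Tendsto g Filter.atTop Filter.atTop) :
    ∃ K : ℕ → ℕ, Filter.Tendsto K Filter.atTop Filter.atTop ∧ (∀ n, K n ≤ g n) ∧ ∀ᶠ n in Filter.atTop, P (K n) n := by
  choose N0 hN0 using h
  refine ⟨fun n => Nat.findGreatest (fun k => N0 k ≤ n) (g n), ?_, fun n => Nat.findGreatest_le _, ?_⟩
  · rw [Filter.tendsto_atTop]
    intro k
    filter_upwards [hg.eventually_ge_atTop k, Filter.eventually_ge_atTop (N0 k)] with n h1 h2
    exact Nat.le_findGreatest h1 h2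
  · filter_upwards [Filter.eventually_ge_atTop (N0 0)] with n h1
    exact hN0 _ n (Nat.findGreatest_spec (P := fun k => N0 k ≤ n) (Nat.zero_le _) h1)

/-- One sequence hard for all constants, from hardness for each fixed depth. -/
theorem seq_of {a : ℕ}
    (hmain : ∀ K, 1 ≤ K → ∃ N0, ∀ n, N0 ≤ n → ∃ (n' r : ℕ) (Φ : Fin r → Fm n' (K + 1)), n' ≤ n ∧ r ≤ n ^ a ∧
      (∀ j, leaves (K + 1) (Φ j) ≤ n) ∧ (∀ x, ∃ j, ¬ Holds (K + 1) (Φ j) x) ∧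
      ∀ S, S ≤ n ^ K → ¬ Refutes (fun j => {x | Holds (K + 1) (Φ j) x}) K (K + 1) K S)
    (g : ℕ → ℕ) (hg : Filter.Tendsto g Filter.atTop Filter.atTop) :
    ∃ (d nv r : ℕ → ℕ) (Φ : ∀ n, Fin (r n) → Fm (nv n) (d n)),
      (∀ᶠ n in Filter.atTop, d n ≤ g n ∧ nv n ≤ n ∧ r n ≤ n ^ a ∧ (∀ j, leaves (d n) (Φ n j) ≤ n) ∧
        ∀ x, ∃ j, ¬ Holds (d n) (Φ n j) x) ∧
      ∀ e D f c : ℕ, ∀ᶠ n in Filter.atTop, ∀ S, S ≤ n ^ c →
        ¬ Refutes (fun j => {x | Holds (d n) (Φ n j) x}) e D f S := by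
  obtain ⟨K, hK1, hK2, hK3⟩ := diag (fun K n => ∃ (n' r : ℕ) (Φ : Fin r → Fm n' (K + 1 + 1)), n' ≤ n ∧ r ≤ n ^ a ∧
      (∀ j, leaves (K + 1 + 1) (Φ j) ≤ n) ∧ (∀ x, ∃ j, ¬ Holds (K + 1 + 1) (Φ j) x) ∧
      ∀ S, S ≤ n ^ (K + 1) → ¬ Refutes (fun j => {x | Holds (K + 1 + 1) (Φ j) x}) (K + 1) (K + 1 + 1) (K + 1) S)
    (fun K => hmain (K + 1) (by omega)) (fun n => g n - 2) (by
      rw [Filter.tendsto_atTop]
      intro k
      filter_upwards [hg.eventually_ge_atTop (k + 2)] with n hn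
      omega)
  have hex : ∀ n, ∃ (n' r : ℕ) (Φ : Fin r → Fm n' (K n + 1 + 1)),
      (∃ (n' r : ℕ) (Φ : Fin r → Fm n' (K n + 1 + 1)), n' ≤ n ∧ r ≤ n ^ a ∧
        (∀ j, leaves (K n + 1 + 1) (Φ j) ≤ n) ∧ (∀ x, ∃ j, ¬ Holds (K n + 1 + 1) (Φ j) x) ∧
        ∀ S, S ≤ n ^ (K n + 1) → ¬ Refutes (fun j => {x | Holds (K n + 1 + 1) (Φ j) x}) (K n + 1) (K n + 1 + 1) (K n + 1) S) →
      n' ≤ n ∧ r ≤ n ^ a ∧
        (∀ j, leaves (K n + 1 + 1) (Φ j) ≤ n) ∧ (∀ x, ∃ j, ¬ Holds (K n + 1 + 1) (Φ j) x) ∧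
        ∀ S, S ≤ n ^ (K n + 1) → ¬ Refutes (fun j => {x | Holds (K n + 1 + 1) (Φ j) x}) (K n + 1) (K n + 1 + 1) (K n + 1) S := by
    intro n
    by_cases h1 : (∃ (n' r : ℕ) (Φ : Fin r → Fm n' (K n + 1 + 1)), n' ≤ n ∧ r ≤ n ^ a ∧
        (∀ j, leaves (K n + 1 + 1) (Φ j) ≤ n) ∧ (∀ x, ∃ j, ¬ Holds (K n + 1 + 1) (Φ j) x) ∧
        ∀ S, S ≤ n ^ (K n + 1) → ¬ Refutes (fun j => {x | Holds (K n + 1 + 1) (Φ j) x}) (K n + 1) (K n + 1 + 1) (K n + 1) S)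
    · obtain ⟨n', r, Φ, h2⟩ := h1
      exact ⟨n', r, Φ, fun _ => h2⟩
    · exact ⟨0, 0, Fin.elim0, fun h2 => absurd h2 h1⟩
  choose nv r Φ hΦ using hex
  refine ⟨fun n => K n + 1 + 1, nv, r, Φ, ?_, ?_⟩
  · filter_upwards [hK3, hg.eventually_ge_atTop 2] with n h1 h2
    have h3 := hΦ n h1
    have h4 := hK2 n
    exact ⟨by omega, h3.1, h3.2.1, h3.2.2.1, h3.2.2.2.1⟩
  · intro e D f c
    filter_upwards [hK3, hK1.eventually_ge_atTop (e + D + f + c), Filter.eventually_ge_atTop 1] with n h1 h2 h3 S hS href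
    have h4 := hΦ n h1
    refine h4.2.2.2.2 S (hS.trans (Nat.pow_le_pow_right h3 (by omega))) ?_
    exact Refutes.mono_all (by omega) (by omega) (by omega) (by omega) le_rfl href

end H98DH
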